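import Pool.Agent.Q273.MV.Stm

/-!
# Statements of the lemmas of the project MV, second part
-/

set_option autoImplicit false

open MeasureTheory NumberField NumberField.mixedEmbedding

namespace Q273.MV

/-- job PIG2: pigeonhole with a large box; `A` is a finite quotient -/
def S_PIG2 : Prop :=
  ∀ (K : Type) [Field K] [NumberField K] (n : ℕ) (ξ : Fin n → mixedSpace K),
    ∃ C : ℝ, 1 ≤ C ∧ ∀ (A : Type) [AddCommGroup A] [Finite A]
      (φ : (Fin (n + 1) → 𝓞 K) →+ A) (N L : ℕ), 1 ≤ L →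
      Nat.card A < (N + 1) ^ Module.finrank ℚ K * (L + 1) ^ (Module.finrank ℚ K * n) →
      ∃ x : Fin (n + 1) → 𝓞 K, x ≠ 0 ∧ φ x = 0 ∧
        (∀ w : InfinitePlace K, w ((x 0 : 𝓞 K) : K) ≤ C * N) ∧
        ∀ (w : InfinitePlace K) (j : Fin n),
          normAtPlace w (mixedEmbedding K ((x 0 : 𝓞 K) : K) * ξ j -
            mixedEmbedding K ((x j.succ : 𝓞 K) : K)) ≤ C * L

end Q273.MV
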