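import Mathlib

/-!
# Statements of the lemmas of the project MV (metric Vojta law)
-/

set_option autoImplicit false

open MeasureTheory NumberField NumberField.mixedEmbedding

namespace Q273.MV

/-- the proximity function: the sum over the archimedean places of
`n_w log max (1, 1 / max_j |ξ_j - y_j|_w)` -/
noncomputable def prox {K : Type} [Field K] [NumberField K] {n : ℕ} (ξ : Fin n → mixedSpace K)
    (y : Fin n → K) : ℝ :=
  ∑ w : InfinitePlace K, (w.mult : ℝ) *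
    Real.log (max 1 (⨆ j, normAtPlace w (ξ j - mixedEmbedding K (y j)))⁻¹)

open scoped Classical in
/-- job AE: countably many points with summable weights -/
def S_AE : Prop :=
  ∀ (K : Type) [Field K] [NumberField K] (n : ℕ), 1 ≤ n → ∀ η : ℝ, 0 < η → η < 1 →
    ∀ (ι : Type) [Countable ι] (y : ι → Fin n → K) (W : ι → ℝ), (∀ i, 0 ≤ W i) → Summable W →
      ∀ᵐ ξ : Fin n → mixedSpace K, ∃ C : ℝ, ∀ i,
        W i * Real.exp ((n : ℝ) * (1 - η) * prox ξ (y i)) ≤ C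

/-- job SUM: from counting to summability -/
def S_SUM : Prop :=
  ∀ (T : Type) (S : Set T) (H : T → ℝ) (s t C : ℝ), s < t → 0 < t →
    (∀ x ∈ S, 1 ≤ H x) →
    (∀ X : ℝ, 1 ≤ X → {x | x ∈ S ∧ H x ≤ X}.Finite ∧
      ({x | x ∈ S ∧ H x ≤ X}.ncard : ℝ) ≤ C * X ^ s) →
    Summable (fun x : S => (H x) ^ (-t))

/-- job PIG: pigeonhole in `𝓞 K ^ (n + 1)`; `A` is a finite quotient -/
def S_PIG : Prop :=
  ∀ (K : Type) [Field K] [NumberField K] (n : ℕ) (ξ : Fin n → mixedSpace K),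
    ∃ C : ℝ, 1 ≤ C ∧ ∀ (A : Type) [AddCommGroup A] [Finite A]
      (φ : (Fin (n + 1) → 𝓞 K) →+ A) (N M : ℕ), 1 ≤ M →
      M ^ (Module.finrank ℚ K * n) * Nat.card A < (N + 1) ^ Module.finrank ℚ K →
      ∃ x : Fin (n + 1) → 𝓞 K, x 0 ≠ 0 ∧ φ x = 0 ∧
        (∀ w : InfinitePlace K, w ((x 0 : 𝓞 K) : K) ≤ C * N) ∧
        ∀ (w : InfinitePlace K) (j : Fin n),
          normAtPlace w (mixedEmbedding K ((x 0 : 𝓞 K) : K) * ξ j -
            mixedEmbedding K ((x j.succ : 𝓞 K) : K)) ≤ C / M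

end Q273.MV
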