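import Pool.Agent.Q273.MV.Loc

/-!
# Losses of integral vectors with prescribed divisibilities
-/

set_option autoImplicit false
set_option linter.unusedSectionVars false

namespace Q273.MV

open NumberField IsDedekindDomain Finset Pool.Agent.H691R3 Height Pool.Agent.W232.VA

variable {K : Type} [Field K] [NumberField K] {n r : ℕ}

open Classical in
/-- the term of the truncated counting function at `v` -/
noncomputable def ind (S : Finset (HeightOneSpectrum (𝓞 K))) (a : Fin r → Fin (n + 1) → K)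
    (x : Fin (n + 1) → K) (v : HeightOneSpectrum (𝓞 K)) : ℝ :=
  if v ∉ S ∧ ∃ i, 0 < Pool.Agent.W232.VA.lam (fv v) (a i) x then Real.log (Nv v) else 0

lemma ind_nonneg (S : Finset (HeightOneSpectrum (𝓞 K))) (a : Fin r → Fin (n + 1) → K)
    (x : Fin (n + 1) → K) (v : HeightOneSpectrum (𝓞 K)) : 0 ≤ ind S a x v := by
  unfold ind
  split_ifs
  · exact (log_Nv_pos v).le
  · exact le_rfl

lemma ind_le (S : Finset (HeightOneSpectrum (𝓞 K))) (a : Fin r → Fin (n + 1) → K)
    (x : Fin (n + 1) → K) (v : HeightOneSpectrum (𝓞 K)) : ind S a x v ≤ Real.log (Nv v) := by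
  unfold ind
  split_ifs
  · exact le_rfl
  · exact (log_Nv_pos v).le

lemma N1_eq (S : Finset (HeightOneSpectrum (𝓞 K))) {a : Fin r → Fin (n + 1) → K}
    {x : Fin (n + 1) → K} {T : Finset (HeightOneSpectrum (𝓞 K))}
    (hT : ∀ v ∉ T, ∀ i, Pool.Agent.W232.VA.lam (fv v) (a i) x = 0) :
    N1 S a x = ∑ v ∈ T, ind S a x v := by
  classical
  unfold N1
  rw [finsum_eq_sum_of_support_subset (s := T)]
  · rfl
  intro v hv
  by_contra hne
  rw [Function.mem_support] at hv
  apply hv
  rw [if_neg]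
  rintro ⟨_, i, hi⟩
  rw [hT v hne i] at hi
  exact lt_irrefl _ hi

lemma hW_eq' {a : Fin r → Fin (n + 1) → K} {x : Fin (n + 1) → K}
    {T : Finset (HeightOneSpectrum (𝓞 K))}
    (hT : ∀ v ∉ T, ∀ i, Pool.Agent.W232.VA.lam (fv v) (a i) x = 0) :
    hW a x = ∑ w : InfinitePlace K, (w.mult : ℝ) * wt w.1 a x + ∑ v ∈ T, wt (fv v) a x := by
  unfold hW
  congr 1
  rw [finsum_eq_sum_of_support_subset (s := T)]
  intro v hv
  by_contra hne
  exact hv (wt_zero (hT v hne))

lemma A_nonneg (S : Finset (HeightOneSpectrum (𝓞 K))) {a : Fin r → Fin (n + 1) → K}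
    (ha : ∀ i, a i ≠ 0) {x : Fin (n + 1) → K} (hx : x ≠ 0) (hl : ∀ i, lin (a i) x ≠ 0)
    (v : HeightOneSpectrum (𝓞 K)) : 0 ≤ wt (fv v) a x - ind S a x v := by
  unfold ind
  split_ifs with h
  · obtain ⟨_, i, hi⟩ := h
    have := log_Nv_le_wt v ha hx hl hi
    linarith
  · have := wt_nonneg (fv v) a x
    linarith

lemma A_ge_B (S : Finset (HeightOneSpectrum (𝓞 K))) {a : Fin r → Fin (n + 1) → K}
    (ha : ∀ i, a i ≠ 0) {x : Fin (n + 1) → K} (hx : x ≠ 0) (hl : ∀ i, lin (a i) x ≠ 0)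
    (v : HeightOneSpectrum (𝓞 K)) (i : Fin r) :
    Pool.Agent.W232.VA.lam (fv v) (a i) x - ind S (fun _ : Fin 1 => a i) x v ≤
      wt (fv v) a x - ind S a x v := by
  classical
  have h0 := A_nonneg S ha hx hl v
  have h1 := lam_le_wt v ha x i
  have h2 := lam_fin_nonneg v (ha i) hx (hl i)
  by_cases hi : 0 < Pool.Agent.W232.VA.lam (fv v) (a i) x
  · by_cases hS : v ∈ S
    · have e1 : ind S a x v = 0 := by
        unfold ind
        rw [if_neg (fun h => h.1 hS)]
      have e2 := ind_nonneg S (fun _ : Fin 1 => a i) x v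
      linarith
    · have e1 : ind S (fun _ : Fin 1 => a i) x v = Real.log (Nv v) := by
        unfold ind
        rw [if_pos ⟨hS, 0, hi⟩]
      have e2 := ind_le S a x v
      linarith
  · have e1 : Pool.Agent.W232.VA.lam (fv v) (a i) x = 0 := le_antisymm (not_lt.1 hi) h2
    have e2 := ind_nonneg S (fun _ : Fin 1 => a i) x v
    linarith

/-- distinct hyperplanes -/
lemma indep_pair {a : Fin r → Fin (n + 1) → K} (ha : ∀ i, a i ≠ 0)
    (hd : ∀ i l, i ≠ l → ∀ c : K, a i ≠ c • a l) {i l : Fin r} (hil : i ≠ l) :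
    LinearIndependent K (fun j : ({i, l} : Finset (Fin r)) => a j) := by
  rw [Fintype.linearIndependent_iff]
  intro g hg
  have hi : i ∈ ({i, l} : Finset (Fin r)) := by simp
  have hl : l ∈ ({i, l} : Finset (Fin r)) := by simp
  have hsum : g ⟨i, hi⟩ • a i + g ⟨l, hl⟩ • a l = 0 := by
    have h2 : ∑ j : ({i, l} : Finset (Fin r)), g j • a j =
        ∑ j ∈ ({i, l} : Finset (Fin r)),
          (if h : j ∈ ({i, l} : Finset (Fin r)) then g ⟨j, h⟩ else 0) • a j := by
      rw [← Finset.sum_attach ({i, l} : Finset (Fin r))]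
      exact Finset.sum_congr rfl fun j _ => by rw [dif_pos j.2]
    rw [h2, Finset.sum_pair hil, dif_pos hi, dif_pos hl] at hg
    exact hg
  have h1 : g ⟨i, hi⟩ = 0 := by
    by_contra hne
    apply hd i l hil (-(g ⟨i, hi⟩)⁻¹ * g ⟨l, hl⟩)
    have h2 : g ⟨i, hi⟩ • a i = -(g ⟨l, hl⟩ • a l) := eq_neg_of_add_eq_zero_left hsum
    have h3 : a i = (g ⟨i, hi⟩)⁻¹ • (g ⟨i, hi⟩ • a i) := by
      rw [smul_smul, inv_mul_cancel₀ hne, one_smul]
    rw [h3, h2, smul_neg, smul_smul, neg_mul, neg_smul]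
  have h2 : g ⟨l, hl⟩ = 0 := by
    rw [h1, zero_smul, zero_add] at hsum
    by_contra hne
    exact ha l ((smul_eq_zero.1 hsum).resolve_left hne)
  rintro ⟨j, hj⟩
  rw [Finset.mem_insert, Finset.mem_singleton] at hj
  rcases hj with rfl | rfl
  · exact h1
  · exact h2

lemma A_ge_pair (S : Finset (HeightOneSpectrum (𝓞 K))) {a : Fin r → Fin (n + 1) → K}
    (ha : ∀ i, a i ≠ 0) (hd : ∀ i l, i ≠ l → ∀ c : K, a i ≠ c • a l) {x : Fin (n + 1) → K}
    (v : HeightOneSpectrum (𝓞 K)) {i l : Fin r} (hil : i ≠ l) :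
    Pool.Agent.W232.VA.lam (fv v) (a i) x - ind S (fun _ : Fin 1 => a i) x v +
      (Pool.Agent.W232.VA.lam (fv v) (a l) x - Real.log (Nv v)) ≤
      wt (fv v) a x - ind S a x v := by
  have h1 := le_wt (fv v) a x {i, l} (indep_pair ha hd hil)
  rw [Finset.sum_pair hil] at h1
  have h2 := ind_nonneg S (fun _ : Fin 1 => a i) x v
  have h3 := ind_le S a x v
  linarith

/-- the three inequalities, before the divisibilities are inserted -/
theorem loc0 (S : Finset (HeightOneSpectrum (𝓞 K))) {a : Fin r → Fin (n + 1) → K}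
    (ha : ∀ i, a i ≠ 0) (hd : ∀ i l, i ≠ l → ∀ c : K, a i ≠ c • a l)
    (P : Fin r → HeightOneSpectrum (𝓞 K)) (hP : Function.Injective P) {x : Fin (n + 1) → K}
    (hx : x ≠ 0) (hl : ∀ i, lin (a i) x ≠ 0) :
    (∑ l, (Pool.Agent.W232.VA.lam (fv (P l)) (a l) x - Real.log (Nv (P l))) ≤ hW a x - N1 S a x) ∧
    (∀ i, Pool.Agent.W232.VA.lam (fv (P i)) (a i) x - Real.log (Nv (P i)) -
        (Module.finrank ℚ K : ℝ) * Real.log ((n : ℝ) + 1) - Real.log (mulHeight (a i)) ≤
        Real.log (mulHeight x) - N1 S (fun _ : Fin 1 => a i) x) ∧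
    ∀ i, Real.log (mulHeight x) + Real.log (mulHeight (a i)) - N1 S (fun _ : Fin 1 => a i) x +
        ∑ l ∈ univ.erase i, (Pool.Agent.W232.VA.lam (fv (P l)) (a l) x - Real.log (Nv (P l))) ≤
        hW a x - N1 S a x := by
  classical
  obtain ⟨T0, hT0⟩ := exists_T ha hx hl
  set T := T0 ∪ univ.image P with hT
  have hT' : ∀ v ∉ T, ∀ i, Pool.Agent.W232.VA.lam (fv v) (a i) x = 0 := fun v hv i =>
    hT0 v (fun h => hv (Finset.mem_union_left _ h)) i
  have hPT : ∀ l, P l ∈ T := fun l =>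
    Finset.mem_union_right _ (Finset.mem_image_of_mem P (Finset.mem_univ l))
  have hwt : 0 ≤ ∑ w : InfinitePlace K, (w.mult : ℝ) * wt w.1 a x :=
    Finset.sum_nonneg fun w _ => mul_nonneg (Nat.cast_nonneg _) (wt_nonneg _ _ _)
  have hWN : hW a x - N1 S a x = ∑ w : InfinitePlace K, (w.mult : ℝ) * wt w.1 a x +
      ∑ v ∈ T, (wt (fv v) a x - ind S a x v) := by
    rw [hW_eq' hT', N1_eq S hT', Finset.sum_sub_distrib]
    ring
  have hsingle : ∀ i, Real.log (mulHeight x) + Real.log (mulHeight (a i)) -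
      N1 S (fun _ : Fin 1 => a i) x = ∑ w : InfinitePlace K,
        (w.mult : ℝ) * Pool.Agent.W232.VA.lam w.1 (a i) x +
      ∑ v ∈ T, (Pool.Agent.W232.VA.lam (fv v) (a i) x - ind S (fun _ : Fin 1 => a i) x v) := by
    intro i
    have h1 := sum_lam' (ha i) hx (hl i) T (fun v hv => hT' v hv i)
    rw [N1_eq (a := fun _ : Fin 1 => a i) S (T := T) (fun v hv _ => hT' v hv i),
      Finset.sum_sub_distrib]
    linarith
  have hB : ∀ (i : Fin r) (v : HeightOneSpectrum (𝓞 K)),
      0 ≤ Pool.Agent.W232.VA.lam (fv v) (a i) x - ind S (fun _ : Fin 1 => a i) x v := by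
    intro i v
    have h2 := lam_fin_nonneg v (ha i) hx (hl i)
    by_cases hi : 0 < Pool.Agent.W232.VA.lam (fv v) (a i) x
    · obtain ⟨k, hk⟩ := lam_fin v (ha i) hx (hl i)
      have hk1 : (1 : ℝ) ≤ k := by
        rcases Nat.eq_zero_or_pos k with h0 | h0
        · rw [hk, h0] at hi
          simp at hi
        · exact_mod_cast h0
      have h3 := log_Nv_pos v
      have h4 := ind_le S (fun _ : Fin 1 => a i) x v
      nlinarith
    · have e1 : ind S (fun _ : Fin 1 => a i) x v = 0 := by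
        unfold ind
        rw [if_neg]
        rintro ⟨_, _, h⟩
        exact hi h
      linarith
  refine ⟨?_, fun i => ?_, fun i => ?_⟩
  · rw [hWN]
    have h1 : ∑ v ∈ univ.image P, (wt (fv v) a x - ind S a x v) ≤
        ∑ v ∈ T, (wt (fv v) a x - ind S a x v) :=
      Finset.sum_le_sum_of_subset_of_nonneg Finset.subset_union_right
        fun v _ _ => A_nonneg S ha hx hl v
    rw [Finset.sum_image fun i _ j _ h => hP h] at h1
    have h2 : ∑ l, (Pool.Agent.W232.VA.lam (fv (P l)) (a l) x - Real.log (Nv (P l))) ≤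
        ∑ l, (wt (fv (P l)) a x - ind S a x (P l)) := by
      refine Finset.sum_le_sum fun l _ => ?_
      have := lam_le_wt (P l) ha x l
      have := ind_le S a x (P l)
      linarith
    linarith
  · have h0 := hsingle i
    have h1 : Pool.Agent.W232.VA.lam (fv (P i)) (a i) x - ind S (fun _ : Fin 1 => a i) x (P i) ≤
        ∑ v ∈ T, (Pool.Agent.W232.VA.lam (fv v) (a i) x - ind S (fun _ : Fin 1 => a i) x v) :=
      Finset.single_le_sum (f := fun v => Pool.Agent.W232.VA.lam (fv v) (a i) x -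
        ind S (fun _ : Fin 1 => a i) x v) (fun v _ => hB i v) (hPT i)
    have h2 := ind_le S (fun _ : Fin 1 => a i) x (P i)
    have h3 : -((Module.finrank ℚ K : ℝ) * Real.log ((n : ℝ) + 1)) ≤
        ∑ w : InfinitePlace K, (w.mult : ℝ) * Pool.Agent.W232.VA.lam w.1 (a i) x := by
      rw [← sum_mult_real, ← neg_mul, ← Finset.sum_neg_distrib, Finset.sum_mul]
      refine Finset.sum_le_sum fun w _ => ?_
      have h4 := lam_arch_ge w (ha i) hx (hl i)
      have h5 : (0 : ℝ) ≤ w.mult := Nat.cast_nonneg _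
      nlinarith
    linarith
  · have h0 := hsingle i
    have h3 : ∑ w : InfinitePlace K, (w.mult : ℝ) * Pool.Agent.W232.VA.lam w.1 (a i) x ≤
        ∑ w : InfinitePlace K, (w.mult : ℝ) * wt w.1 a x := by
      refine Finset.sum_le_sum fun w _ => mul_le_mul_of_nonneg_left ?_ (Nat.cast_nonneg _)
      have hind := indep_singleton (K := K) a (ha i)
      have h2 := le_wt w.1 a x {i} hind
      rwa [Finset.sum_singleton] at h2
    have h4 : ∑ l ∈ univ.erase i,
        (Pool.Agent.W232.VA.lam (fv (P l)) (a l) x - Real.log (Nv (P l))) ≤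
        ∑ v ∈ T, ((wt (fv v) a x - ind S a x v) -
          (Pool.Agent.W232.VA.lam (fv v) (a i) x - ind S (fun _ : Fin 1 => a i) x v)) := by
      have h5 : ∑ v ∈ (univ.erase i).image P, ((wt (fv v) a x - ind S a x v) -
          (Pool.Agent.W232.VA.lam (fv v) (a i) x - ind S (fun _ : Fin 1 => a i) x v)) ≤
          ∑ v ∈ T, ((wt (fv v) a x - ind S a x v) -
          (Pool.Agent.W232.VA.lam (fv v) (a i) x - ind S (fun _ : Fin 1 => a i) x v)) := by
        refine Finset.sum_le_sum_of_subset_of_nonneg ?_ fun v _ _ => ?_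
        · intro v hv
          obtain ⟨l, _, rfl⟩ := Finset.mem_image.1 hv
          exact hPT l
        · have := A_ge_B S ha hx hl v i
          linarith
      rw [Finset.sum_image fun i _ j _ h => hP h] at h5
      refine le_trans (Finset.sum_le_sum fun l hl' => ?_) h5
      have hil : i ≠ l := fun h => (Finset.mem_erase.1 hl').1 h.symm
      have := A_ge_pair (a := a) S ha hd (x := x) (P l) hil
      linarith
    have h6 := Finset.sum_sub_distrib (s := T) (fun v => wt (fv v) a x - ind S a x v)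
      (fun v => Pool.Agent.W232.VA.lam (fv v) (a i) x - ind S (fun _ : Fin 1 => a i) x v)
    rw [h6] at h4
    rw [hWN, h0]
    linarith

end Q273.MV
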