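import Pool.Agent.Q273.MV.Sharp

/-!
# The metric law for hyperplane arrangements, assembled
-/

set_option autoImplicit false
set_option linter.unusedSectionVars false

namespace Q273.MV

open MeasureTheory NumberField NumberField.mixedEmbedding NumberField.InfinitePlace
open IsDedekindDomain Finset Pool.Agent.W232.VA Pool.Agent.H691R3 Height
open LinearAlgebra.Projectivization

variable {K : Type} [Field K] [NumberField K] {n r : ℕ}

theorem infinite_primes (K : Type) [Field K] [NumberField K] :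
    Infinite (HeightOneSpectrum (𝓞 K)) := by
  by_contra hfin
  rw [not_infinite_iff_finite] at hfin
  obtain ⟨B, hB⟩ := (Set.finite_range
    (fun v : HeightOneSpectrum (𝓞 K) => Ideal.absNorm v.asIdeal)).bddAbove
  obtain ⟨p, hpB, hp⟩ := Nat.exists_infinite_primes (B + 1)
  have hpK : ((p : ℕ) : 𝓞 K) ≠ 0 := by exact_mod_cast hp.ne_zero
  have hnu : ¬ IsUnit ((p : ℕ) : 𝓞 K) := by
    intro hu
    have h1 : IsUnit (Algebra.norm ℤ ((p : ℕ) : 𝓞 K)) := hu.map (Algebra.norm ℤ)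
    have h2 : Algebra.norm ℤ ((p : ℕ) : 𝓞 K) = (p : ℤ) ^ Module.finrank ℤ (𝓞 K) := by
      have := Algebra.norm_algebraMap (S := 𝓞 K) (p : ℤ)
      simpa using this
    rw [h2] at h1
    have h3 : Module.finrank ℤ (𝓞 K) ≠ 0 := by
      rw [RingOfIntegers.rank]
      exact Module.finrank_pos.ne'
    have h4 := (isUnit_pow_iff h3).1 h1
    have h5 := (Nat.prime_iff_prime_int.1 hp).not_isUnit
    exact h5 h4
  obtain ⟨m, hm, hle⟩ := Ideal.exists_le_maximal (Ideal.span {((p : ℕ) : 𝓞 K)})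
    (by rwa [Ne, Ideal.span_singleton_eq_top])
  have hpm : ((p : ℕ) : 𝓞 K) ∈ m := hle (Ideal.mem_span_singleton_self _)
  have hm0 : m ≠ ⊥ := by
    intro h0
    rw [h0, Ideal.mem_bot] at hpm
    exact hpK hpm
  let v : HeightOneSpectrum (𝓞 K) := ⟨m, hm.isPrime, hm0⟩
  have h1 : Ideal.absNorm m ≤ B := hB ⟨v, rfl⟩
  have h2 : ¬ p ∣ Ideal.absNorm m := by
    intro h
    have h3 := Nat.le_of_dvd (Nat.pos_of_ne_zero (by
      rw [Ne, Ideal.absNorm_eq_zero_iff]
      exact hm0)) h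
    omega
  have h3 : IsCoprime ((p : ℕ) : ℤ) ((Ideal.absNorm m : ℕ) : ℤ) := by
    rw [Nat.isCoprime_iff_coprime]
    exact (Nat.Prime.coprime_iff_not_dvd hp).2 h2
  obtain ⟨u, w, huw⟩ := h3
  apply hm.ne_top
  rw [Ideal.eq_top_iff_one]
  have h4 : (1 : 𝓞 K) = (u : 𝓞 K) * ((p : ℕ) : 𝓞 K) + (w : 𝓞 K) * ((Ideal.absNorm m : ℕ) : 𝓞 K) := by
    have h5 : ((1 : ℤ) : 𝓞 K) = ((u * ((p : ℕ) : ℤ) + w * ((Ideal.absNorm m : ℕ) : ℤ) : ℤ) : 𝓞 K) := by
      rw [huw]
    push_cast at h5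
    exact h5
  rw [h4]
  exact Ideal.add_mem _ (Ideal.mul_mem_left _ _ hpm) (Ideal.mul_mem_left _ _ (Ideal.absNorm_mem m))

open scoped Classical in
theorem gen_ae : ∀ᵐ ξ : Fin n → mixedSpace K, Gen ξ := by
  have : Countable K := Q273.Apx.countable_numberField K
  have h : ∀ᵐ ξ : Fin n → mixedSpace K, ∀ a : {a : Fin (n + 1) → K // a ≠ 0},
      ∀ w : InfinitePlace K, normAtPlace w (linX a.1 ξ) ≠ 0 :=
    ae_all_iff.2 fun a => null a.1 a.2
  filter_upwards [h] with ξ hξ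
  exact fun a ha => hξ ⟨a, ha⟩

/-- the lower law for a general arrangement of distinct hyperplanes -/
theorem sharp2 (hn : 1 ≤ n) {ξ : Fin n → mixedSpace K} (hξ : Gen ξ)
    (S : Finset (HeightOneSpectrum (𝓞 K))) (a : Fin r → Fin (n + 1) → K)
    (ha : ∀ i, a i ≠ 0) (hd : ∀ i l, i ≠ l → ∀ c : K, a i ≠ c • a l)
    (hlaw : LawAt ξ S a) (δ : Fin r → ℝ) (hδ : ∀ i, 0 ≤ δ i) (hΔ : ∑ i, δ i ≤ 1 / 2)
    (ε : ℝ) (hε : 0 < ε) (B : ℝ) :
    ∃ P : ℙ K (Fin (n + 1) → K), (∀ i, lin (a i) P.rep ≠ 0) ∧ P.rep 0 ≠ 0 ∧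
      B ≤ Real.log P.mulHeight ∧
      |n * prox ξ (aff P) - ((n : ℝ) + 1 - ∑ i, δ i) * Real.log P.mulHeight| ≤
        ε * Real.log P.mulHeight ∧
      |(hW a P.rep - N1 S a P.rep) - (∑ i, δ i) * Real.log P.mulHeight| ≤
        ε * Real.log P.mulHeight ∧
      ∀ i, |(Real.log P.mulHeight - N1 S (fun _ : Fin 1 => a i) P.rep) -
        δ i * Real.log P.mulHeight| ≤ ε * Real.log P.mulHeight := by
  classical
  obtain ⟨s, hs, b, hb⟩ := exists_scale a
  have hb0 : ∀ i, cz (b i) ≠ 0 := fun i => by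
    rw [hb i]; exact smul_ne_zero hs (ha i)
  have hbd : ∀ i l, i ≠ l → ∀ c : K, cz (b i) ≠ c • cz (b l) := by
    intro i l hil c h
    rw [hb i, hb l, smul_comm] at h
    exact hd i l hil c (smul_right_injective _ hs h)
  have htr : ∀ P : ℙ K (Fin (n + 1) → K), N1 S (fun i => cz (b i)) P.rep = N1 S a P.rep ∧
      hW (fun i => cz (b i)) P.rep = hW a P.rep := fun P =>
    transfer S (a := a) (b := fun i => cz (b i)) (t := 1) hs one_ne_zero hb (one_smul K _).symm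
  have htri : ∀ (i : Fin r) (P : ℙ K (Fin (n + 1) → K)),
      N1 S (fun _ : Fin 1 => cz (b i)) P.rep = N1 S (fun _ : Fin 1 => a i) P.rep := fun i P =>
    (transfer S (a := fun _ : Fin 1 => a i) (b := fun _ : Fin 1 => cz (b i)) (t := 1) hs
      one_ne_zero (fun _ => hb i) (one_smul K _).symm).1
  have hlin : ∀ (i : Fin r) (P : ℙ K (Fin (n + 1) → K)),
      lin (cz (b i)) P.rep ≠ 0 ↔ lin (a i) P.rep ≠ 0 := by
    intro i P
    rw [hb i, lin_smul_left]
    constructor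
    · intro h h0
      exact h (by rw [h0, mul_zero])
    · intro h
      exact mul_ne_zero hs h
  have hlaw' : LawAt ξ S fun i => cz (b i) := by
    intro ε hε
    obtain ⟨C, hC⟩ := hlaw ε hε
    refine ⟨C, fun P hP hle => ?_⟩
    rw [(htr P).1, (htr P).2]
    exact hC P (fun i => (hlin i P).1 (hP i)) hle
  -- shrink the distribution
  set θ : ℝ := min (ε / 2) (1 / 2) with hθ
  have hθ0 : 0 < θ := lt_min (by positivity) (by norm_num)
  have hθ1 : θ ≤ 1 / 2 := min_le_right _ _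
  have hθε : θ ≤ ε / 2 := min_le_left _ _
  have hΔ0 : 0 ≤ ∑ i, δ i := Finset.sum_nonneg fun i _ => hδ i
  have hsum : ∑ i, (1 - θ) * δ i = (1 - θ) * ∑ i, δ i := (Finset.mul_sum _ _ _).symm
  have hlt : ∑ i, (1 - θ) * δ i < 1 / 2 := by
    rw [hsum]
    nlinarith
  obtain ⟨P, h1, h2, h3, h4, h5, h6⟩ := sharp1 hn hξ S b hb0 hbd hlaw' (infinite_primes K)
    (fun i => (1 - θ) * δ i) (fun i => mul_nonneg (by linarith) (hδ i)) hlt (ε / 2)
    (by positivity) B
  have hH := log_mulHeight_nonneg P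
  rw [(htr P).1, (htr P).2] at h5
  rw [hsum] at h4 h5
  have hδ1 : ∀ i, δ i ≤ 1 := fun i => by
    have := Finset.single_le_sum (f := fun i => δ i) (fun i _ => hδ i) (Finset.mem_univ i)
    linarith
  have hθH : 0 ≤ θ * Real.log P.mulHeight := mul_nonneg hθ0.le hH
  have hθεH : θ * Real.log P.mulHeight ≤ ε / 2 * Real.log P.mulHeight :=
    mul_le_mul_of_nonneg_right hθε hH
  refine ⟨P, fun i => (hlin i P).1 (h1 i), h2, h3, ?_, ?_, fun i => ?_⟩
  · rw [abs_le] at h4 ⊢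
    have e1 : 0 ≤ θ * Real.log P.mulHeight * ∑ i, δ i := mul_nonneg hθH hΔ0
    have e2 : θ * Real.log P.mulHeight * ∑ i, δ i ≤ θ * Real.log P.mulHeight := by nlinarith
    constructor
    · nlinarith [h4.1]
    · nlinarith [h4.2]
  · rw [abs_le] at h5 ⊢
    have e1 : 0 ≤ θ * Real.log P.mulHeight * ∑ i, δ i := mul_nonneg hθH hΔ0
    have e2 : θ * Real.log P.mulHeight * ∑ i, δ i ≤ θ * Real.log P.mulHeight := by nlinarith
    constructor
    · nlinarith [h5.1]
    · nlinarith [h5.2]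
  · have h7 := h6 i
    rw [htri i P] at h7
    rw [abs_le] at h7 ⊢
    have e1 : 0 ≤ θ * Real.log P.mulHeight * δ i := mul_nonneg hθH (hδ i)
    have e2 : θ * Real.log P.mulHeight * δ i ≤ θ * Real.log P.mulHeight := by
      nlinarith [hδ1 i, hδ i]
    constructor
    · nlinarith [h7.1]
    · nlinarith [h7.2]

end Q273.MV
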