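import Mathlib

/-!
# From a grid of thresholds to one inequality, second range
-/

set_option autoImplicit false

namespace Q273.MV

theorem tradeoff2 {T : Type*} (h ℓ p : T → ℝ) (Good : Set T) {n0 κ0 : ℝ}
    (hκ0 : 0 ≤ κ0) (hℓ : ∀ x ∈ Good, 0 ≤ ℓ x) (hh : ∀ x ∈ Good, 0 ≤ h x)
    (hup : ∀ j J : ℕ, 0 < J → j ≤ J → ∀ ε : ℝ, 0 < ε → ∃ C : ℝ, ∀ x ∈ Good,
      κ0 * ((j : ℝ) / J) * h x ≤ ℓ x → p x ≤ (n0 - κ0 * ((j : ℝ) / J) + ε) * h x + C) (B0 : ℝ) :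
    ∀ ε : ℝ, 0 < ε → ∃ C : ℝ, ∀ x ∈ Good, ℓ x ≤ κ0 * h x + B0 →
      p x + ℓ x ≤ (n0 + ε) * h x + C := by
  classical
  intro ε hε
  obtain ⟨J, hJ⟩ := exists_nat_gt (2 * κ0 / ε)
  have hJ0' : (0 : ℝ) < J := lt_of_le_of_lt (by positivity) hJ
  have hJ0 : 0 < J := by exact_mod_cast hJ0'
  have hJε : κ0 / J ≤ ε / 2 := by
    rw [div_lt_iff₀ hε] at hJ
    rw [div_le_div_iff₀ hJ0' two_pos]
    linarith
  have h1 : ∀ j : ℕ, ∃ C : ℝ, j ≤ J → ∀ x ∈ Good,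
      κ0 * ((j : ℝ) / J) * h x ≤ ℓ x → p x ≤ (n0 - κ0 * ((j : ℝ) / J) + ε / 2) * h x + C := by
    intro j
    by_cases hj : j ≤ J
    · obtain ⟨C, hC⟩ := hup j J hJ0 hj (ε / 2) (by positivity)
      exact ⟨C, fun _ => hC⟩
    · exact ⟨0, fun h => absurd h hj⟩
  choose C hC using h1
  set C1 : ℝ := ∑ j ∈ Finset.range (J + 1), |C j| with hC1
  have hC1le : ∀ j ≤ J, C j ≤ C1 := by
    intro j hj
    have h2 := Finset.single_le_sum (f := fun j => |C j|) (fun j _ => abs_nonneg _)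
      (Finset.mem_range.2 (Nat.lt_succ_of_le hj))
    exact (le_abs_self _).trans h2
  refine ⟨C1 + |B0|, fun x hx hpx => ?_⟩
  have hB := le_abs_self B0
  have hB0 := abs_nonneg B0
  have hhx := hh x hx
  have hℓx := hℓ x hx
  set j := Nat.findGreatest (fun j : ℕ => κ0 * ((j : ℝ) / J) * h x ≤ ℓ x) J with hj
  have hjJ : j ≤ J := Nat.findGreatest_le J
  have hj0 : κ0 * ((j : ℝ) / J) * h x ≤ ℓ x := by
    have := Nat.findGreatest_spec (P := fun j : ℕ => κ0 * ((j : ℝ) / J) * h x ≤ ℓ x)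
      (Nat.zero_le J) (by simpa using hℓx)
    exact this
  have h2 := hC j hjJ x hx hj0
  have h3 := hC1le j hjJ
  rcases Nat.lt_or_ge j J with hlt | hge
  · have h4 : ¬ (κ0 * (((j + 1 : ℕ) : ℝ) / J) * h x ≤ ℓ x) := by
      have := Nat.findGreatest_is_greatest (P := fun j : ℕ => κ0 * ((j : ℝ) / J) * h x ≤ ℓ x)
        (n := J) (k := j + 1) (Nat.lt_succ_self _) hlt
      exact this
    push Not at h4
    push_cast at h4
    have h5 : κ0 * (((j : ℝ) + 1) / J) * h x = κ0 * ((j : ℝ) / J) * h x + κ0 / J * h x := by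
      field_simp
    rw [h5] at h4
    have h6 : κ0 / J * h x ≤ ε / 2 * h x := mul_le_mul_of_nonneg_right hJε hhx
    nlinarith
  · have hjeq : j = J := le_antisymm hjJ hge
    have h4 : κ0 * ((j : ℝ) / J) = κ0 := by
      rw [hjeq, div_self hJ0'.ne', mul_one]
    rw [h4] at h2
    have h6 : 0 ≤ ε / 2 * h x := by positivity
    nlinarith

end Q273.MV
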