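import Pool.Agent.Q273.MV.P1
import Pool.Agent.Q273.MV.Fin
import Pool.Agent.Q273.MV.Trade2

/-!
# The projective line: the upper law
-/

set_option autoImplicit false
set_option linter.unusedSectionVars false

namespace Q273.MV

open MeasureTheory NumberField IsDedekindDomain Finset Pool.Agent.H691R3 Height
open Pool.Agent.W232.VA NumberField.mixedEmbedding NumberField.InfinitePlace
open Pool.Agent.Results.MP_4d5ce1_nt.ExceptionalSetExponents (height counting exceptional)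

variable {K : Type} [Field K] [NumberField K] {q : ℕ}

/-- the relative logarithmic height -/
noncomputable def hh (x : K) : ℝ := Real.log (mulHeight (vec x))

lemma hh_eq (x : K) : hh x = (Module.finrank ℚ K : ℝ) * height x := log_height_vec x

lemma hh_nonneg (x : K) : 0 ≤ hh x := Real.log_nonneg (one_le_mulHeight _)

/-- the loss at one point -/
noncomputable def sI (T : Set (HeightOneSpectrum (𝓞 K))) (α : K × K) (x : K) : ℝ :=
  hh x - (Module.finrank ℚ K : ℝ) * counting T (fun _ : Fin 1 => α) x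

/-- the range of the exact law -/
noncomputable def kap (q : ℕ) : ℝ := if q = 2 then 2 else if q = 3 then 1 else 6 / 7

lemma kap_pos (q : ℕ) : 0 < kap q := by
  unfold kap
  split_ifs <;> norm_num

/-- pairwise distinct points of the line -/
def Pts (α : Fin q → K × K) : Prop :=
  (∀ i, α i ≠ 0) ∧ ∀ i j, i ≠ j → (α i).1 * (α j).2 - (α i).2 * (α j).1 ≠ 0

/-- the upper law at `ξ` -/
def LawP (ξ : Fin 1 → mixedSpace K) (T : Set (HeightOneSpectrum (𝓞 K))) (α : Fin q → K × K)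
    (κ0 : ℝ) : Prop :=
  ∀ ε : ℝ, 0 < ε → ∃ C : ℝ, ∀ x : K, (∀ l, x * (α l).2 - 1 * (α l).1 ≠ 0) →
    (∑ l, sI T (α l) x ≤ κ0 * hh x ∨ (2 - κ0 + ε) * hh x ≤ prox ξ (fun _ => x)) →
    prox ξ (fun _ => x) + ∑ l, sI T (α l) x ≤ (2 + ε) * hh x + C

lemma finrank_posR (K : Type) [Field K] [NumberField K] : (0 : ℝ) < (Module.finrank ℚ K : ℝ) := by
  have : 0 < Module.finrank ℚ K := Module.finrank_pos
  exact_mod_cast this

lemma sum_sI (T : Set (HeightOneSpectrum (𝓞 K))) {α : Fin q → K × K}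
    (hα : ∀ l, α l ≠ 0) {x : K} (hx : ∀ l, x * (α l).2 - 1 * (α l).1 ≠ 0) :
    ∑ l, sI T (α l) x = (Module.finrank ℚ K : ℝ) * ((q : ℝ) * height x - counting T α x) := by
  unfold sI
  rw [Finset.sum_sub_distrib, Finset.sum_const, Finset.card_univ, Fintype.card_fin, nsmul_eq_mul,
    ← Finset.mul_sum, ← counting_sum hα hx, hh_eq]
  ring

lemma sI_ge {T : Set (HeightOneSpectrum (𝓞 K))} (hT : T.Finite) {α : K × K} (hα : α ≠ 0) :
    ∃ c : ℝ, 0 ≤ c ∧ ∀ x : K, x * α.2 - 1 * α.1 ≠ 0 → -c ≤ sI T α x := by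
  refine ⟨(Module.finrank ℚ K : ℝ) * Real.log (((1 : ℕ) : ℝ) + 1) +
    Real.log (mulHeight (frm α)), ?_, fun x hx => ?_⟩
  · have h1 : 0 ≤ Real.log (((1 : ℕ) : ℝ) + 1) := Real.log_nonneg (by norm_num)
    have h2 : 0 ≤ Real.log (mulHeight (frm α)) := Real.log_nonneg (one_le_mulHeight _)
    have h3 := (finrank_posR K).le
    positivity
  · unfold sI
    rw [counting_single hT hα hx]
    have h := single_ge hT.toFinset (frm_ne hα) (vec_ne x) (by rw [lin_frm_vec]; exact hx)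
    have e : hh x = Real.log (mulHeight (vec x)) := rfl
    rw [e]
    linarith

lemma sum_sI_ge {T : Set (HeightOneSpectrum (𝓞 K))} (hT : T.Finite) {α : Fin q → K × K}
    (hα : ∀ l, α l ≠ 0) : ∃ c : ℕ, ∀ x : K, (∀ l, x * (α l).2 - 1 * (α l).1 ≠ 0) →
      0 ≤ ∑ l, sI T (α l) x + c := by
  choose c hc0 hc using fun l => sI_ge hT (hα l)
  obtain ⟨N, hN⟩ := exists_nat_ge (∑ l, c l)
  refine ⟨N, fun x hx => ?_⟩
  have h : -∑ l, c l ≤ ∑ l, sI T (α l) x := by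
    rw [← Finset.sum_neg_distrib]
    exact Finset.sum_le_sum fun l _ => hc l x (hx l)
  linarith

/-- the exceptional elements -/
def ES (T : Set (HeightOneSpectrum (𝓞 K))) (α : Fin q → K × K) (κ c : ℝ) : Set K :=
  {x | (∀ l, x * (α l).2 - 1 * (α l).1 ≠ 0) ∧ κ * hh x ≤ ∑ l, sI T (α l) x + c}

lemma ES_count {T : Set (HeightOneSpectrum (𝓞 K))} (hT : T.Finite) (hq : 2 ≤ q)
    {α : Fin q → K × K} (hα : Pts α) {κ c : ℝ} (hκ0 : 0 ≤ κ) (hκ2 : κ < 2)
    (hκ : κ ≤ 6 / 7 ∨ (q = 3 ∧ κ ≤ 1) ∨ q = 2) (δ : ℝ) (hδ : 0 < δ) :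
    ∃ C : ℝ, ∀ X : ℝ, 1 ≤ X → {x | x ∈ ES T α κ c ∧ mulHeight (vec x) ≤ X}.Finite ∧
      ({x | x ∈ ES T α κ c ∧ mulHeight (vec x) ≤ X}.ncard : ℝ) ≤ C * X ^ (2 - κ + δ) := by
  have hd := finrank_posR K
  obtain ⟨h1, _, h3⟩ :=
    (Pool.Agent.Results.MP_4d5ce1_nt.ExceptionalSetExponents.result K T hT q hq α hα.1 hα.2
      κ (c / (Module.finrank ℚ K : ℝ) + 1) hκ0).1 hκ2
  obtain ⟨C, hC⟩ := (h3 hκ).1 ((Module.finrank ℚ K : ℝ) * δ) (by positivity)
  have hsub : ∀ X : ℝ, 1 ≤ X → {x | x ∈ ES T α κ c ∧ mulHeight (vec x) ≤ X} ⊆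
      exceptional T α κ (c / (Module.finrank ℚ K : ℝ) + 1)
        (X ^ (1 / (Module.finrank ℚ K : ℝ))) := by
    rintro X hX x ⟨⟨hx, hx2⟩, hx3⟩
    refine ⟨hx, ?_, ?_⟩
    · rw [Real.rpow_def_of_pos (by linarith)]
      refine Real.exp_le_exp.2 ?_
      have h4 : hh x ≤ Real.log X := Real.log_le_log
        (lt_of_lt_of_le one_pos (one_le_mulHeight _)) hx3
      rw [hh_eq] at h4
      rw [mul_one_div, le_div_iff₀ hd]
      linarith
    · rw [sum_sI T hα.1 hx, hh_eq] at hx2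
      have h5 : (Module.finrank ℚ K : ℝ) * counting T α x <
          (Module.finrank ℚ K : ℝ) * (((q : ℝ) - κ) * height x +
            (c / (Module.finrank ℚ K : ℝ) + 1)) := by
        have h6 : (Module.finrank ℚ K : ℝ) * (c / (Module.finrank ℚ K : ℝ)) = c := by
          field_simp
        nlinarith
      exact lt_of_mul_lt_mul_left h5 hd.le
  refine ⟨C, fun X hX => ?_⟩
  have hX1 : 1 ≤ X ^ (1 / (Module.finrank ℚ K : ℝ)) := Real.one_le_rpow hX (by positivity)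
  have hfin := h1 _ hX1
  refine ⟨hfin.subset (hsub X hX), ?_⟩
  have h4 : ({x | x ∈ ES T α κ c ∧ mulHeight (vec x) ≤ X}.ncard : ℝ) ≤
      ((exceptional T α κ (c / (Module.finrank ℚ K : ℝ) + 1)
        (X ^ (1 / (Module.finrank ℚ K : ℝ)))).ncard : ℝ) := by
    exact_mod_cast Set.ncard_le_ncard (hsub X hX) hfin
  refine h4.trans ((hC _ hX1).trans (le_of_eq ?_))
  congr 1
  rw [← Real.rpow_mul (by linarith)]
  congr 1
  field_simp

lemma finP {T : Set (HeightOneSpectrum (𝓞 K))} (hT : T.Finite) (hq : 2 ≤ q)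
    {α : Fin q → K × K} (hα : Pts α) (B : ℝ) :
    {x : K | (∀ l, x * (α l).2 - 1 * (α l).1 ≠ 0) ∧ hh x ≤ B}.Finite := by
  obtain ⟨c, hc⟩ := sum_sI_ge hT hα.1
  obtain ⟨C, hC⟩ := ES_count hT hq hα (κ := 0) (c := c) le_rfl (by norm_num)
    (Or.inl (by norm_num)) 1 one_pos
  refine (hC (max (Real.exp B) 1) (le_max_right _ _)).1.subset ?_
  rintro x ⟨h1, h2⟩
  refine ⟨⟨h1, ?_⟩, ?_⟩
  · rw [zero_mul]
    exact hc x h1
  · refine le_trans ?_ (le_max_left _ _)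
    rw [← Real.log_le_iff_le_exp (lt_of_lt_of_le one_pos (one_le_mulHeight _))]
    exact h2

open scoped Classical in
theorem lawP : ∀ᵐ ξ : Fin 1 → mixedSpace K, ∀ (q : ℕ), 2 ≤ q → ∀ α : Fin q → K × K, Pts α →
    ∀ T : Set (HeightOneSpectrum (𝓞 K)), T.Finite → LawP ξ T α (kap q) := by
  have : Countable K := Q273.Apx.countable_numberField K
  have : Countable {T : Set (HeightOneSpectrum (𝓞 K)) // T.Finite} :=
    Q273.Apx.countable_finite_sets K
  let ι : Type := (Σ q : ℕ, {α : Fin q → K × K // 2 ≤ q ∧ Pts α}) ×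
    {T : Set (HeightOneSpectrum (𝓞 K)) // T.Finite} × {κ : ℚ // 0 ≤ κ} × ℕ
  have key : ∀ i : ι, ∀ᵐ ξ : Fin 1 → mixedSpace K,
      ((i.2.2.1.1 : ℚ) : ℝ) < 2 → (((i.2.2.1.1 : ℚ) : ℝ) ≤ 6 / 7 ∨
        (i.1.1 = 3 ∧ ((i.2.2.1.1 : ℚ) : ℝ) ≤ 1) ∨ i.1.1 = 2) → ∀ ε : ℝ, 0 < ε → ∃ C : ℝ,
      ∀ x ∈ ES i.2.1.1 i.1.2.1 ((i.2.2.1.1 : ℚ) : ℝ) i.2.2.2,
        ((1 : ℕ) : ℝ) * prox ξ (fun _ => x) ≤
          (2 - ((i.2.2.1.1 : ℚ) : ℝ) + ε) * Real.log (mulHeight (vec x)) + C := by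
    rintro ⟨⟨q, α, hq, hα⟩, ⟨T, hT⟩, ⟨κ, hκ0⟩, c⟩
    have hκ0' : (0 : ℝ) ≤ (κ : ℝ) := by exact_mod_cast hκ0
    by_cases h2 : (κ : ℝ) < 2
    · by_cases h3 : (κ : ℝ) ≤ 6 / 7 ∨ (q = 3 ∧ (κ : ℝ) ≤ 1) ∨ q = 2
      · have h := up1 (n := 1) le_rfl (fun (x : K) (_ : Fin 1) => x)
          (fun x => mulHeight (vec x)) (ES T α (κ : ℝ) c)
          (fun x _ => one_le_mulHeight _) (s := 2 - (κ : ℝ)) (by linarith)
          (fun δ hδ => ES_count hT hq hα hκ0' h2 h3 δ hδ)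
        filter_upwards [h] with ξ hξ
        exact fun _ _ => hξ
      · exact Filter.Eventually.of_forall fun ξ _ h => absurd h h3
    · exact Filter.Eventually.of_forall fun ξ h => absurd h h2
  filter_upwards [ae_all_iff.2 key] with ξ hξ
  intro q hq α hα T hT
  obtain ⟨c, hc⟩ := sum_sI_ge hT hα.1
  -- the grid
  have hgrid : ∀ (κ : ℚ), 0 ≤ κ → (κ : ℝ) ≤ kap q → ∀ ε : ℝ, 0 < ε → ∃ C : ℝ, ∀ x : K,
      (∀ l, x * (α l).2 - 1 * (α l).1 ≠ 0) → (κ : ℝ) * hh x ≤ ∑ l, sI T (α l) x + c →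
      prox ξ (fun _ => x) ≤ (2 - (κ : ℝ) + ε) * hh x + C := by
    have hsmall : ∀ (κ : ℚ), 0 ≤ κ → (κ : ℝ) < 2 → (κ : ℝ) ≤ kap q → ∀ ε : ℝ, 0 < ε → ∃ C : ℝ,
        ∀ x : K, (∀ l, x * (α l).2 - 1 * (α l).1 ≠ 0) →
        (κ : ℝ) * hh x ≤ ∑ l, sI T (α l) x + c →
        prox ξ (fun _ => x) ≤ (2 - (κ : ℝ) + ε) * hh x + C := by
      intro κ hκ0 hκ2 hκk ε hε
      obtain ⟨C, hC⟩ := hξ ⟨⟨q, α, hq, hα⟩, ⟨T, hT⟩, ⟨κ, hκ0⟩, c⟩ hκ2 (by
        unfold kap at hκk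
        by_cases h2 : q = 2
        · exact Or.inr (Or.inr h2)
        · rw [if_neg h2] at hκk
          by_cases h3 : q = 3
          · rw [if_pos h3] at hκk
            exact Or.inr (Or.inl ⟨h3, hκk⟩)
          · rw [if_neg h3] at hκk
            exact Or.inl hκk) ε hε
      refine ⟨C, fun x hx hle => ?_⟩
      have h := hC x ⟨hx, hle⟩
      push_cast at h
      rw [one_mul] at h
      exact h
    intro κ hκ0 hκk ε hε
    by_cases hκ2 : (κ : ℝ) < 2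
    · exact hsmall κ hκ0 hκ2 hκk ε hε
    · obtain ⟨κ', hκ'1, hκ'2⟩ := exists_rat_btwn (show max (0 : ℝ) (2 - ε / 2) < 2 from
        max_lt (by norm_num) (by linarith))
      have h0 : (0 : ℝ) ≤ κ' := ((le_max_left _ _).trans hκ'1.le)
      obtain ⟨C, hC⟩ := hsmall κ' (by exact_mod_cast h0) hκ'2 (by linarith) (ε / 2) (by positivity)
      refine ⟨C, fun x hx hle => ?_⟩
      have h1 := hC x hx (le_trans (mul_le_mul_of_nonneg_right (by linarith) (hh_nonneg x)) hle)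
      refine h1.trans ?_
      have h2 : 2 - ε / 2 ≤ κ' := (le_max_right _ _).trans hκ'1.le
      have hκ2' : (κ : ℝ) = 2 := by
        have h4 : kap q ≤ 2 := by
          unfold kap
          split_ifs <;> norm_num
        linarith
      have h3 := hh_nonneg x
      rw [hκ2']
      nlinarith
  have hkq : ∃ k0 : ℚ, (k0 : ℝ) = kap q ∧ 0 ≤ k0 := by
    unfold kap
    split_ifs
    · exact ⟨2, by norm_num, by norm_num⟩
    · exact ⟨1, by norm_num, by norm_num⟩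
    · exact ⟨6 / 7, by norm_num, by norm_num⟩
  obtain ⟨k0, hk0, hk00⟩ := hkq
  have hgr : ∀ j J : ℕ, 0 < J → j ≤ J → ∀ ε : ℝ, 0 < ε → ∃ C : ℝ,
      ∀ x ∈ {x : K | ∀ l, x * (α l).2 - 1 * (α l).1 ≠ 0},
      kap q * ((j : ℝ) / J) * hh x ≤ ∑ l, sI T (α l) x + c →
      prox ξ (fun _ => x) ≤ (2 - kap q * ((j : ℝ) / J) + ε) * hh x + C := by
    intro j J hJ hj ε hε
    have hJ0 : (0 : ℚ) < J := by exact_mod_cast hJ
    obtain ⟨C, hC⟩ := hgrid (k0 * ((j : ℚ) / J)) (by positivity) (by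
      push_cast
      rw [hk0]
      have h1 : ((j : ℝ) / J) ≤ 1 := by
        rw [div_le_one (by exact_mod_cast hJ)]
        exact_mod_cast hj
      have h2 := kap_pos q
      nlinarith) ε hε
    refine ⟨C, fun x hx hle => ?_⟩
    have h2 := hC x hx (by
      push_cast
      rw [hk0]
      exact hle)
    push_cast at h2
    rw [hk0] at h2
    exact h2
  have h := tradeoff (fun x : K => hh x) (fun x => ∑ l, sI T (α l) x + c)
    (fun x => prox ξ (fun _ => x)) {x | ∀ l, x * (α l).2 - 1 * (α l).1 ≠ 0} (n0 := 2)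
    (κ0 := kap q) (by norm_num) (kap_pos q).le (fun x hx => hc x hx) (fun x _ => hh_nonneg x)
    (fun B => finP hT hq hα B) hgr
  have h' := tradeoff2 (fun x : K => hh x) (fun x => ∑ l, sI T (α l) x + c)
    (fun x => prox ξ (fun _ => x)) {x | ∀ l, x * (α l).2 - 1 * (α l).1 ≠ 0} (n0 := 2)
    (κ0 := kap q) (kap_pos q).le (fun x hx => hc x hx) (fun x _ => hh_nonneg x) hgr c
  intro ε hε
  obtain ⟨C, hC⟩ := h ε hε
  obtain ⟨C', hC'⟩ := h' ε hε
  refine ⟨max C C', fun x hx hle => ?_⟩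
  have h2 : (0 : ℝ) ≤ c := Nat.cast_nonneg c
  have h3 := le_max_left C C'
  have h4 := le_max_right C C'
  rcases hle with hle | hle
  · have h1 := hC' x hx (by linarith)
    linarith
  · have h1 := hC x hx hle
    linarith

end Q273.MV
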