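import Pool.Agent.Q273.MV.Stm3

/-!
# Statements of the lemmas of the project MV, fifth part
-/

set_option autoImplicit false

open MeasureTheory
open scoped NNReal

namespace Q273.MV

/-- job UBI: points near almost every point at every scale give limsup sets of large dimension -/
def S_UBI : Prop :=
  ∀ (E : Type) [NormedAddCommGroup E] [NormedSpace ℝ E] [FiniteDimensional ℝ E]
    [MeasurableSpace E] [BorelSpace E] (μ : Measure E) [μ.IsAddHaarMeasure] (c0 : E)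
    (R0 : ℝ) (s : ℝ≥0) (τ β : ℝ) (Y : ℕ → ℝ → Set E) (F : ℕ → ℕ → Set E),
    0 < R0 → 0 < s → 0 < β → β < τ → (s : ℝ) * τ < Module.finrank ℝ E * β →
    (∀ n, Monotone (F n)) → (∀ n, ∀ᵐ ξ ∂μ, ∃ m, ξ ∈ F n m) →
    (∀ n m, ∃ t1 : ℝ, ∀ t, t1 ≤ t → ∀ ξ ∈ F n m, ∃ y ∈ Y n t, ‖ξ - y‖ ≤ Real.exp (-(β * t))) →
    Measure.hausdorffMeasure (s : ℝ) (Metric.closedBall c0 R0 ∩
      {ξ | ∀ n : ℕ, ∃ t : ℝ, (n : ℝ) ≤ t ∧ ∃ y ∈ Y n t, ‖ξ - y‖ ≤ Real.exp (-(τ * t))}) ≠ 0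

end Q273.MV
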