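import Pool.Agent.Q273.MV.P8
import Pool.Agent.Q273.MV.Stm5

/-!
# The projective line: Hausdorff dimension
-/

set_option autoImplicit false
set_option linter.unusedSectionVars false

namespace Q273.MV

open MeasureTheory NumberField NumberField.mixedEmbedding NumberField.InfinitePlace
open IsDedekindDomain Finset Pool.Agent.W232.VA Pool.Agent.H691R3 Height
open Pool.Agent.Results.MP_4d5ce1_nt.ExceptionalSetExponents (height counting)
open scoped NNReal ENNReal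

variable {K : Type} [Field K] [NumberField K] {q : ℕ}

open scoped Classical in
/-- targets which are approximated by infinitely many points with prescribed losses -/
def WW (T : Set (HeightOneSpectrum (𝓞 K))) (α : Fin q → K × K) (τ : ℝ) (δ : Fin q → ℝ) :
    Set (mixedSpace K) :=
  {ξ | ∀ ε : ℝ, 0 < ε → ∀ B : ℝ, ∃ x : K, (∀ l, x * (α l).2 - 1 * (α l).1 ≠ 0) ∧ B ≤ hh x ∧
    ‖ξ - mixedEmbedding K x‖ ≤ Real.exp (-((τ - ε) * hh x)) ∧
    ∀ l, (δ l - ε) * hh x ≤ sI T (α l) x}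

lemma kap_le_two (q : ℕ) : kap q ≤ 2 := by
  unfold kap
  split_ifs <;> norm_num

lemma kap_cond {κ : ℝ} (h : κ ≤ kap q) : κ ≤ 6 / 7 ∨ (q = 3 ∧ κ ≤ 1) ∨ q = 2 := by
  unfold kap at h
  by_cases h2 : q = 2
  · exact Or.inr (Or.inr h2)
  · rw [if_neg h2] at h
    by_cases h3 : q = 3
    · rw [if_pos h3] at h
      exact Or.inr (Or.inl ⟨h3, h⟩)
    · rw [if_neg h3] at h
      exact Or.inl h

open scoped Classical in
theorem dim_up (hq : 2 ≤ q) {T : Set (HeightOneSpectrum (𝓞 K))} (hT : T.Finite)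
    {α : Fin q → K × K} (hα : Pts α) {τ : ℝ} (hτ : 0 < τ) {δ : Fin q → ℝ}
    (hκ : ∑ i, δ i ≤ kap q) :
    dimH (WW T α τ δ) ≤ ENNReal.ofReal ((2 - ∑ i, δ i) / τ) := by
  set Δ : ℝ := ∑ i, δ i with hΔ
  have hΔ2 : Δ ≤ 2 := hκ.trans (kap_le_two q)
  have hq0 : (0 : ℝ) ≤ q := Nat.cast_nonneg q
  obtain ⟨c, hc⟩ := sum_sI_ge hT hα.1
  -- one precision
  have one : ∀ ε : ℝ, 0 < ε → ε < τ →
      dimH (WW T α τ δ) ≤ ENNReal.ofReal ((2 - max 0 (Δ - q * ε - ε)) / (τ - ε)) := by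
    intro ε hε hετ
    set κ : ℝ := max 0 (Δ - q * ε - ε) with hκd
    have hκ0 : 0 ≤ κ := le_max_left _ _
    have hκ2 : κ < 2 := max_lt (by norm_num) (by nlinarith)
    have hκk : κ ≤ kap q := max_le (kap_pos q).le (by nlinarith)
    obtain ⟨E, hE1, hE2⟩ := Q273.Apx.approx (Y := mixedSpace K) (ES T α κ c)
      (fun x => mulHeight (vec x)) (fun x => mixedEmbedding K x) (s := 2 - κ) (τ := τ - ε)
      (by linarith) (by linarith) (fun δ hδ => by
        obtain ⟨C, hC⟩ := ES_count hT hq hα (c := c) hκ0 hκ2 (kap_cond hκk) δ hδ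
        exact ⟨C, hC⟩)
    refine le_trans (dimH_mono fun ξ hξ => ?_) hE1
    by_contra hcon
    have hfin := hE2 ξ hcon 1
    obtain ⟨B, hB⟩ := (hfin.image (fun x => hh x)).bddAbove
    obtain ⟨x, hx1, hx2, hx3, hx4⟩ := hξ ε hε (max B 0 + 1)
    have hB1 : B + 1 ≤ hh x := by
      have := le_max_left B 0
      linarith
    have hpos : 0 ≤ hh x := hh_nonneg x
    have hmem : hh x ∈ (fun x => hh x) '' {t | t ∈ ES T α κ c ∧
        dist ξ (mixedEmbedding K t) ≤ 1 * (mulHeight (vec t)) ^ (-(τ - ε))} := by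
      refine ⟨x, ⟨⟨hx1, ?_⟩, ?_⟩, rfl⟩
      · rcases le_total 0 (Δ - q * ε - ε) with h | h
        · rw [hκd, max_eq_right h]
          have h1 : ∑ l, (δ l - ε) * hh x ≤ ∑ l, sI T (α l) x :=
            Finset.sum_le_sum fun l _ => hx4 l
          rw [← Finset.sum_mul, Finset.sum_sub_distrib, Finset.sum_const, Finset.card_univ,
            Fintype.card_fin, nsmul_eq_mul] at h1
          have h2 : (0 : ℝ) ≤ c := Nat.cast_nonneg c
          nlinarith
        · rw [hκd, max_eq_left h, zero_mul]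
          exact hc x hx1
      · rw [one_mul, dist_eq_norm, Real.rpow_def_of_pos (lt_of_lt_of_le one_pos (one_le_mulHeight _))]
        refine hx3.trans (le_of_eq ?_)
        congr 1
        show -((τ - ε) * Real.log (mulHeight (vec x))) = _
        ring
    have := hB hmem
    linarith
  set D0 : ℝ := (2 - Δ) / τ with hD0
  have hD00 : 0 ≤ D0 := div_nonneg (by linarith) hτ.le
  have hD0τ : D0 * τ = 2 - Δ := div_mul_cancel₀ _ hτ.ne'
  apply ENNReal.le_of_forall_pos_le_add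
  intro η hη _
  have hη0 : (0 : ℝ) < η := by exact_mod_cast hη
  set M : ℝ := (q : ℝ) + 1 + D0 + η with hM
  have hM0 : 0 < M := by positivity
  set ε : ℝ := min (τ / 2) (η * τ / M) with hε
  have hε0 : 0 < ε := lt_min (by positivity) (by positivity)
  have hετ : ε < τ := (min_le_left _ _).trans_lt (by linarith)
  have hεM : ε * M ≤ η * τ := by
    have h1 : ε ≤ η * τ / M := min_le_right _ _
    rwa [le_div_iff₀ hM0] at h1
  refine (one ε hε0 hετ).trans ?_
  have h1 : (2 - max 0 (Δ - q * ε - ε)) / (τ - ε) ≤ D0 + η := by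
    rw [div_le_iff₀ (by linarith)]
    have h2 := le_max_right 0 (Δ - q * ε - ε)
    nlinarith
  refine (ENNReal.ofReal_le_ofReal h1).trans ?_
  rw [ENNReal.ofReal_add hD00 hη0.le, ENNReal.ofReal_coe_nnreal]

open scoped Classical in
theorem dim_low (hlow : S_LOW) (hubi : S_UBI) (hq : 2 ≤ q) {T : Set (HeightOneSpectrum (𝓞 K))}
    (hT : T.Finite) {α : Fin q → K × K} (hα : Pts α) {τ : ℝ} {δ : Fin q → ℝ}
    (h0 : ∀ i, 0 ≤ δ i) (h1 : ∀ i, δ i ≤ 1) (hκ : ∑ i, δ i ≤ kap q) (hτ : 0 < τ)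
    (hτ2 : 2 - ∑ i, δ i ≤ τ * (Module.finrank ℚ K : ℝ)) :
    ENNReal.ofReal ((2 - ∑ i, δ i) / τ) ≤ dimH (WW T α τ δ) := by
  set Δ : ℝ := ∑ i, δ i with hΔ
  set d : ℝ := (Module.finrank ℚ K : ℝ) with hd
  have hd1 : (1 : ℝ) ≤ d := by
    have : 0 < Module.finrank ℚ K := Module.finrank_pos
    rw [hd]
    exact_mod_cast this
  have hd0 : 0 < d := by linarith
  refine le_of_forall_lt fun a ha => ?_
  obtain ⟨s', hs1, hs2⟩ := ENNReal.lt_iff_exists_nnreal_btwn.1 ha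
  -- a positive exponent
  have hpos : 0 < (2 - Δ) / τ := by
    by_contra hcon
    push Not at hcon
    rw [ENNReal.ofReal_of_nonpos hcon] at ha
    exact absurd ha ENNReal.not_lt_zero
  set s : ℝ≥0 := max s' (Real.toNNReal ((2 - Δ) / τ / 2)) with hs
  have hslt : (s : ℝ≥0∞) < ENNReal.ofReal ((2 - Δ) / τ) := by
    rw [hs, ENNReal.coe_max]
    refine max_lt hs2 ?_
    rw [ENNReal.ofNNReal_toNNReal]
    exact (ENNReal.ofReal_lt_ofReal_iff hpos).2 (by linarith)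
  have hsr : (s : ℝ) < (2 - Δ) / τ := by
    rw [← ENNReal.ofReal_coe_nnreal] at hslt
    exact (ENNReal.ofReal_lt_ofReal_iff hpos).1 hslt
  have hs0 : (0 : ℝ) < s := by
    have h3 : Real.toNNReal ((2 - Δ) / τ / 2) ≤ s := le_max_right _ _
    have h4 : ((Real.toNNReal ((2 - Δ) / τ / 2) : ℝ≥0) : ℝ) ≤ s := by exact_mod_cast h3
    rw [Real.coe_toNNReal _ (by positivity)] at h4
    linarith [show (0 : ℝ) < (2 - Δ) / τ / 2 by positivity]
  refine hs1.trans_le (le_trans (show (s' : ℝ≥0∞) ≤ s from by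
    rw [hs]
    exact_mod_cast le_max_left _ _) ?_)
  apply le_dimH_of_hausdorffMeasure_ne_zero
  -- the rate
  have hsτ : (s : ℝ) * τ < 2 - Δ := by
    rwa [lt_div_iff₀ hτ] at hsr
  obtain ⟨β, hβ1, hβ2⟩ := exists_between hsτ
  have hβ0 : 0 < β := lt_of_le_of_lt (by positivity) hβ1
  -- the data of the levels
  obtain ⟨s1, hs1', b, hb⟩ := exists_scale fun i => frm (α i)
  obtain ⟨P, hP⟩ : ∃ P : Fin q → HeightOneSpectrum (𝓞 K), Function.Injective P := by
    have := infinite_primes K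
    exact ⟨fun i => Infinite.natEmbedding _ i.1, fun i j h =>
      Fin.ext ((Infinite.natEmbedding _).injective h)⟩
  set e : ℕ → ℝ := fun n => min (1 / ((n : ℝ) + 1)) (min (2 - Δ - β) (1 / 2)) with he
  have he0 : ∀ n, 0 < e n := fun n => lt_min (by positivity) (lt_min (by linarith) (by norm_num))
  have hap := fun n => approx_dist h0 h1 hκ (he0 n)
  choose δ' hδ1 hδ2 hδ3 using hap
  have hcore := fun n => core hq hT hα hs1' hb hP (hδ3 n) (he0 n)
  choose ε1 hε1 hcore2 using hcore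
  have hne := hubi (mixedSpace K) volume 0 1 s (d * τ) β
    (fun n t => {z | ∃ y : K, z = mixedEmbedding K y ∧ (∀ l, y * (α l).2 - 1 * (α l).1 ≠ 0) ∧
      |hh y - d * t| ≤ e n * (d * t) ∧
      ∀ i, |sI T (α i) y - ((δ' n i : ℚ) : ℝ) * (d * t)| ≤ e n * (d * t)})
    (fun n m => Fset T α b P (fun i => ((δ' n i : ℚ) : ℝ)) (ε1 n) m) one_pos
    (by exact_mod_cast hs0) hβ0 (lt_of_lt_of_le hβ2 (by rw [mul_comm]; exact hτ2))
    (by
      rw [mixedEmbedding.finrank K]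
      show (s : ℝ) * (d * τ) < d * β
      nlinarith)
    (fun n => Fset_mono _ _ _ _ _ _)
    (fun n => cover hlow hq hT hα hs1' hb hP (hδ3 n) (hε1 n))
    (fun n m => by
      obtain ⟨t1, ht1⟩ := hcore2 n m
      refine ⟨max t1 0, fun t ht ξ hξ => ?_⟩
      obtain ⟨y, hy1, hy2, hy3, hy4⟩ := ht1 t ((le_max_left _ _).trans ht) ξ hξ
      refine ⟨mixedEmbedding K y, ⟨y, rfl, hy1, hy2, hy3⟩, ?_⟩
      rw [norm_eq_sup'_normAtPlace]
      refine Finset.sup'_le _ _ fun w _ => (hy4 w).trans (Real.exp_le_exp.2 ?_)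
      have ht0 : 0 ≤ t := (le_max_right _ _).trans ht
      have h3 : ∑ i, ((δ' n i : ℚ) : ℝ) ≤ Δ := Finset.sum_le_sum fun i _ => hδ1 n i
      have h4 : e n ≤ 2 - Δ - β := (min_le_right _ _).trans (min_le_left _ _)
      have h5 : β * t ≤ (2 - ∑ i, ((δ' n i : ℚ) : ℝ) - e n) * t :=
        mul_le_mul_of_nonneg_right (by linarith) ht0
      linarith)
  intro hzero
  apply hne
  refine measure_mono_null ?_ hzero
  rintro ξ ⟨_, hξ⟩
  intro ε hε B
  have hξ' : ∀ n : ℕ, ∃ t : ℝ, (n : ℝ) ≤ t ∧ ∃ z : mixedSpace K, (∃ y : K,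
      z = mixedEmbedding K y ∧ (∀ l, y * (α l).2 - 1 * (α l).1 ≠ 0) ∧
      |hh y - d * t| ≤ e n * (d * t) ∧
      ∀ i, |sI T (α i) y - ((δ' n i : ℚ) : ℝ) * (d * t)| ≤ e n * (d * t)) ∧
      ‖ξ - z‖ ≤ Real.exp (-(d * τ * t)) := hξ
  obtain ⟨n, hn⟩ := exists_nat_ge (max (max (6 / ε) (2 * τ / ε)) (2 * |B|))
  obtain ⟨t, hnt, z, ⟨y, rfl, hy1, hy2, hy3⟩, hy4⟩ := hξ' n
  have hn0 : (0 : ℝ) ≤ n := Nat.cast_nonneg n
  have hn1 : 6 / ε ≤ n := ((le_max_left _ _).trans (le_max_left _ _)).trans hn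
  have hn2 : 2 * τ / ε ≤ n := ((le_max_right _ _).trans (le_max_left _ _)).trans hn
  have hn3 : 2 * |B| ≤ n := (le_max_right _ _).trans hn
  have hen : e n ≤ 1 / ((n : ℝ) + 1) := min_le_left _ _
  have hen2 : e n ≤ 1 / 2 := (min_le_right _ _).trans (min_le_right _ _)
  have hen0 := he0 n
  have hen3 : e n * (n + 1) ≤ 1 := by
    rwa [le_div_iff₀ (by positivity)] at hen
  have hen4 : 6 * e n ≤ ε := by
    rw [div_le_iff₀ hε] at hn1
    have h3 : 6 * e n ≤ n * ε * e n := mul_le_mul_of_nonneg_right hn1 hen0.le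
    nlinarith
  have hen5 : 2 * (τ * e n) ≤ ε := by
    rw [div_le_iff₀ hε] at hn2
    have h3 : 2 * τ * e n ≤ n * ε * e n := mul_le_mul_of_nonneg_right hn2 hen0.le
    nlinarith
  have ht0 : 0 ≤ t := hn0.trans hnt
  set D : ℝ := d * t with hD
  have hD0 : 0 ≤ D := mul_nonneg hd0.le ht0
  have htD : t ≤ D := by rw [hD]; nlinarith
  rw [abs_le] at hy2
  have h3 : e n * D ≤ 1 / 2 * D := mul_le_mul_of_nonneg_right hen2 hD0
  have hDh : D ≤ 2 * hh y := by linarith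
  have hh0 := hh_nonneg y
  refine ⟨y, hy1, ?_, ?_, fun l => ?_⟩
  · have := le_abs_self B
    linarith
  · refine hy4.trans (Real.exp_le_exp.2 ?_)
    have h4 : d * τ * t = τ * D := by rw [hD]; ring
    rw [h4]
    have h5 : τ * (hh y - D) ≤ τ * (e n * D) := mul_le_mul_of_nonneg_left hy2.2 hτ.le
    have h6 : 2 * (τ * e n) * D ≤ ε * D := mul_le_mul_of_nonneg_right hen5 hD0
    have h7 : ε * D ≤ ε * (2 * hh y) := mul_le_mul_of_nonneg_left hDh hε.le
    nlinarith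
  · have h4 := hy3 l
    rw [abs_le] at h4
    have h5 := hδ2 n l
    rw [abs_le] at h5
    have h6 : δ l * (hh y - D) ≤ e n * D := by
      have h7 : δ l * (hh y - D) ≤ δ l * (e n * D) :=
        mul_le_mul_of_nonneg_left hy2.2 (h0 l)
      have h8 : δ l * (e n * D) ≤ 1 * (e n * D) :=
        mul_le_mul_of_nonneg_right (h1 l) (mul_nonneg hen0.le hD0)
      linarith
    have h9 : δ l * D ≤ (((δ' n l : ℚ) : ℝ) + e n) * D :=
      mul_le_mul_of_nonneg_right (by linarith) hD0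
    have h10 : 6 * e n * D ≤ ε * D := mul_le_mul_of_nonneg_right hen4 hD0
    have h11 : ε * D ≤ ε * (2 * hh y) := mul_le_mul_of_nonneg_left hDh hε.le
    nlinarith

end Q273.MV
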