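import Pool.Agent.Q273.MV.Stm

/-!
# Job AE: countably many points with summable weights
-/

set_option autoImplicit false

open MeasureTheory NumberField NumberField.mixedEmbedding

namespace Q273.MV

/-- one coordinate -/
lemma ae_one (E : Type) [NormedAddCommGroup E] [NormedSpace ℝ E] [FiniteDimensional ℝ E]
    [MeasurableSpace E] [BorelSpace E] [Nontrivial E] (μ : Measure E) [μ.IsAddHaarMeasure]
    {s : ℝ} (hs : 0 < s) (hs1 : s < Module.finrank ℝ E) (R : ℝ) :
    ∃ C : ℝ, 0 ≤ C ∧ ∀ c : E,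
      Integrable (fun t : E => (Metric.closedBall (0 : E) R).indicator
        (fun t => (max 1 ‖t - c‖⁻¹) ^ s) t) μ ∧
      ∫ t : E, (Metric.closedBall (0 : E) R).indicator
        (fun t => (max 1 ‖t - c‖⁻¹) ^ s) t ∂μ ≤ C := by
  -- the singular function
  obtain ⟨ψ, hψ⟩ : ∃ ψ : E → ℝ, ψ = (Metric.ball (0 : E) 1).indicator (fun u => ‖u‖ ^ (-s)) :=
    ⟨_, rfl⟩
  have hdim : 1 ≤ Module.finrank ℝ E := Module.finrank_pos
  have hψi : Integrable ψ μ := by
    rw [hψ, integrable_indicator_iff measurableSet_ball]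
    have h1 := (integrableOn_fun_norm_addHaar μ (f := fun y : ℝ => y ^ (-s)) (r := 1)).2 (by
      have h2 : IntegrableOn (fun y : ℝ => y ^ (((Module.finrank ℝ E - 1 : ℕ) : ℝ) - s))
          (Set.Ioo 0 1) := by
        rw [intervalIntegral.integrableOn_Ioo_rpow_iff zero_lt_one]
        rw [Nat.cast_sub hdim]
        push_cast
        linarith
      refine h2.congr_fun ?_ measurableSet_Ioo
      intro y hy
      simp only [smul_eq_mul]
      rw [← Real.rpow_natCast, ← Real.rpow_add hy.1]
      congr 1)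
    exact h1
  have hψ0 : ∀ u, 0 ≤ ψ u := by
    intro u
    rw [hψ]
    exact Set.indicator_nonneg (fun x _ => Real.rpow_nonneg (norm_nonneg x) _) u
  have hone : Integrable ((Metric.closedBall (0 : E) R).indicator (fun _ => (1 : ℝ))) μ := by
    rw [integrable_indicator_iff Metric.isClosed_closedBall.measurableSet]
    exact integrableOn_const (measure_closedBall_lt_top).ne
  refine ⟨∫ t, (Metric.closedBall (0 : E) R).indicator (fun _ => (1 : ℝ)) t ∂μ + ∫ t, ψ t ∂μ,
    ?_, fun c => ?_⟩
  · refine add_nonneg (integral_nonneg fun t => ?_) (integral_nonneg hψ0)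
    exact Set.indicator_nonneg (fun _ _ => zero_le_one) t
  · have hψc : Integrable (fun t => ψ (t - c)) μ := hψi.comp_sub_right c
    have hle : ∀ t : E, (Metric.closedBall (0 : E) R).indicator
        (fun t => (max 1 ‖t - c‖⁻¹) ^ s) t ≤
        (Metric.closedBall (0 : E) R).indicator (fun _ => (1 : ℝ)) t + ψ (t - c) := by
      intro t
      by_cases ht : t ∈ Metric.closedBall (0 : E) R
      · rw [Set.indicator_of_mem ht, Set.indicator_of_mem ht]
        have h0 := hψ0 (t - c)
        rcases le_or_gt 1 ‖t - c‖ with h1 | h1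
        · have h2 : max 1 ‖t - c‖⁻¹ = 1 := max_eq_left (inv_le_one_of_one_le₀ h1)
          rw [h2, Real.one_rpow]
          linarith
        · rcases (norm_nonneg (t - c)).eq_or_lt with h2 | h2
          · rw [← h2, inv_zero, max_eq_left zero_le_one, Real.one_rpow]
            linarith
          · have h3 : max 1 ‖t - c‖⁻¹ = ‖t - c‖⁻¹ :=
              max_eq_right ((one_le_inv₀ h2).2 h1.le)
            have h4 : ψ (t - c) = ‖t - c‖ ^ (-s) := by
              rw [hψ, Set.indicator_of_mem]
              rw [mem_ball_zero_iff]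
              exact h1
            rw [h3, h4, Real.inv_rpow h2.le, Real.rpow_neg h2.le]
            linarith
      · rw [Set.indicator_of_notMem ht, Set.indicator_of_notMem ht, zero_add]
        exact hψ0 _
    have hnn : ∀ t : E, 0 ≤ (Metric.closedBall (0 : E) R).indicator
        (fun t => (max 1 ‖t - c‖⁻¹) ^ s) t := fun t =>
      Set.indicator_nonneg (fun x _ => Real.rpow_nonneg (zero_le_one.trans (le_max_left _ _)) _) t
    have hmeas : AEStronglyMeasurable (fun t : E => (Metric.closedBall (0 : E) R).indicator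
        (fun t => (max 1 ‖t - c‖⁻¹) ^ s) t) μ := by
      refine (Measurable.indicator ?_ Metric.isClosed_closedBall.measurableSet).aestronglyMeasurable
      exact ((measurable_const.max ((measurable_id.sub_const c).norm.inv)).pow_const s)
    have hint : Integrable (fun t : E => (Metric.closedBall (0 : E) R).indicator
        (fun t => (max 1 ‖t - c‖⁻¹) ^ s) t) μ := by
      refine (hone.add hψc).mono' hmeas (Filter.Eventually.of_forall fun t => ?_)
      rw [Real.norm_eq_abs, abs_of_nonneg (hnn t)]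
      exact hle t
    refine ⟨hint, ?_⟩
    calc _ ≤ ∫ t, ((Metric.closedBall (0 : E) R).indicator (fun _ => (1 : ℝ)) t + ψ (t - c)) ∂μ :=
          integral_mono hint (hone.add hψc) hle
      _ = _ := by
          rw [integral_add hone hψc, integral_sub_right_eq_self ψ c]

variable (K : Type) [Field K] [NumberField K]

/-- the function of one coordinate of a real place -/
noncomputable def fr (σ R : ℝ) (c t : ℝ) : ℝ :=
  (Metric.closedBall (0 : ℝ) R).indicator (fun t => (max 1 ‖t - c‖⁻¹) ^ σ) t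

/-- the function of one coordinate of a complex place -/
noncomputable def fc (σ R : ℝ) (c t : ℂ) : ℝ :=
  (Metric.closedBall (0 : ℂ) R).indicator (fun t => (max 1 ‖t - c‖⁻¹) ^ (2 * σ)) t

lemma fr_nonneg (σ R c t : ℝ) : 0 ≤ fr σ R c t :=
  Set.indicator_nonneg (fun _ _ => Real.rpow_nonneg (zero_le_one.trans (le_max_left _ _)) _) t

lemma fc_nonneg (σ R : ℝ) (c t : ℂ) : 0 ≤ fc σ R c t :=
  Set.indicator_nonneg (fun _ _ => Real.rpow_nonneg (zero_le_one.trans (le_max_left _ _)) _) t

open scoped Classical in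
/-- the function of one component in the mixed space -/
noncomputable def fm (σ R : ℝ) (c x : mixedSpace K) : ℝ :=
  (∏ w : {w : InfinitePlace K // w.IsReal}, fr σ R (c.1 w) (x.1 w)) *
    ∏ w : {w : InfinitePlace K // w.IsComplex}, fc σ R (c.2 w) (x.2 w)

open scoped Classical in
lemma fm_nonneg (σ R : ℝ) (c x : mixedSpace K) : 0 ≤ fm K σ R c x :=
  mul_nonneg (Finset.prod_nonneg fun _ _ => fr_nonneg _ _ _ _)
    (Finset.prod_nonneg fun _ _ => fc_nonneg _ _ _ _)

open scoped Classical in
lemma fm_int {σ : ℝ} (hσ : 0 < σ) (hσ1 : σ < 1) (R : ℝ) : ∃ C : ℝ, 0 ≤ C ∧ ∀ c : mixedSpace K,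
    Integrable (fm K σ R c) ∧ ∫ x, fm K σ R c x ≤ C := by
  obtain ⟨Cr, hCr, hr⟩ := ae_one ℝ (volume : Measure ℝ) hσ (by simpa using hσ1) R
  obtain ⟨Cc, hCc, hc⟩ := ae_one ℂ (volume : Measure ℂ) (s := 2 * σ) (by positivity) (by
    rw [Complex.finrank_real_complex]
    push_cast
    linarith) R
  refine ⟨(∏ _w : {w : InfinitePlace K // w.IsReal}, Cr) *
    ∏ _w : {w : InfinitePlace K // w.IsComplex}, Cc, by positivity, fun c => ?_⟩
  have h1 : Integrable (fun x : {w : InfinitePlace K // w.IsReal} → ℝ =>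
      ∏ w, fr σ R (c.1 w) (x w)) :=
    Integrable.fintype_prod (f := fun w t => fr σ R (c.1 w) t) fun w => (hr (c.1 w)).1
  have h2 : Integrable (fun x : {w : InfinitePlace K // w.IsComplex} → ℂ =>
      ∏ w, fc σ R (c.2 w) (x w)) :=
    Integrable.fintype_prod (f := fun w t => fc σ R (c.2 w) t) fun w => (hc (c.2 w)).1
  refine ⟨h1.mul_prod h2, ?_⟩
  have h3 : ∫ x, fm K σ R c x = (∫ x : {w : InfinitePlace K // w.IsReal} → ℝ,
      ∏ w, fr σ R (c.1 w) (x w)) * ∫ x : {w : InfinitePlace K // w.IsComplex} → ℂ,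
      ∏ w, fc σ R (c.2 w) (x w) :=
    integral_prod_mul (μ := volume) (ν := volume)
      (fun x : {w : InfinitePlace K // w.IsReal} → ℝ => ∏ w, fr σ R (c.1 w) (x w))
      (fun x : {w : InfinitePlace K // w.IsComplex} → ℂ => ∏ w, fc σ R (c.2 w) (x w))
  rw [h3, integral_fintype_prod_volume_eq_prod (fun w t => fr σ R (c.1 w) t),
    integral_fintype_prod_volume_eq_prod (fun w t => fc σ R (c.2 w) t)]
  refine mul_le_mul ?_ ?_ ?_ ?_
  · exact Finset.prod_le_prod (fun w _ => integral_nonneg fun t => fr_nonneg _ _ _ _)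
      fun w _ => (hr (c.1 w)).2
  · exact Finset.prod_le_prod (fun w _ => integral_nonneg fun t => fc_nonneg _ _ _ _)
      fun w _ => (hc (c.2 w)).2
  · exact Finset.prod_nonneg fun w _ => integral_nonneg fun t => fc_nonneg _ _ _ _
  · positivity

open scoped Classical in
/-- all coordinates -/
lemma fn_int {σ : ℝ} (hσ : 0 < σ) (hσ1 : σ < 1) (R : ℝ) (n : ℕ) : ∃ C : ℝ, 0 ≤ C ∧
    ∀ c : Fin n → mixedSpace K,
    Integrable (fun ξ : Fin n → mixedSpace K => ∏ j, fm K σ R (c j) (ξ j)) ∧
      ∫ ξ : Fin n → mixedSpace K, ∏ j, fm K σ R (c j) (ξ j) ≤ C := by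
  obtain ⟨C, hC, h⟩ := fm_int K hσ hσ1 R
  refine ⟨∏ _j : Fin n, C, by positivity, fun c => ⟨?_, ?_⟩⟩
  · exact Integrable.fintype_prod (f := fun j x => fm K σ R (c j) x) fun j => (h (c j)).1
  · rw [integral_fintype_prod_volume_eq_prod (fun j x => fm K σ R (c j) x)]
    exact Finset.prod_le_prod (fun j _ => integral_nonneg fun t => fm_nonneg K _ _ _ _)
      fun j _ => (h (c j)).2

open scoped Classical in
/-- almost every point has no coordinate equal to a coordinate of the given points -/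
lemma ae_ne {n : ℕ} {ι : Type} [Countable ι] (c : ι → Fin n → mixedSpace K) :
    ∀ᵐ ξ : Fin n → mixedSpace K, ∀ i j, ∀ w : InfinitePlace K,
      0 < normAtPlace w (ξ j - c i j) := by
  rw [ae_all_iff]
  intro i
  rw [ae_all_iff]
  intro j
  have h0 : ∀ w : InfinitePlace K, ∀ᵐ x : mixedSpace K, 0 < normAtPlace w (x - c i j) := by
    intro w
    rcases w.isReal_or_isComplex with hw | hw
    · have h1 : ∀ᵐ t : ℝ, t ≠ (c i j).1 ⟨w, hw⟩ := by
        rw [ae_iff]
        simp
      have h2 : ∀ᵐ x : {w : InfinitePlace K // w.IsReal} → ℝ, x ⟨w, hw⟩ ≠ (c i j).1 ⟨w, hw⟩ :=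
        (Measure.quasiMeasurePreserving_eval (fun _ : {w : InfinitePlace K // w.IsReal} =>
          (volume : Measure ℝ)) ⟨w, hw⟩).ae h1
      have h3 : ∀ᵐ x : mixedSpace K, x.1 ⟨w, hw⟩ ≠ (c i j).1 ⟨w, hw⟩ :=
        (Measure.quasiMeasurePreserving_fst (μ := (volume : Measure
          ({w : InfinitePlace K // w.IsReal} → ℝ))) (ν := (volume : Measure
          ({w : InfinitePlace K // w.IsComplex} → ℂ)))).ae h2
      filter_upwards [h3] with x hx
      rw [normAtPlace_apply_of_isReal hw, norm_pos_iff]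
      exact sub_ne_zero.2 hx
    · have h1 : ∀ᵐ t : ℂ, t ≠ (c i j).2 ⟨w, hw⟩ := by
        rw [ae_iff]
        simp
      have h2 : ∀ᵐ x : {w : InfinitePlace K // w.IsComplex} → ℂ, x ⟨w, hw⟩ ≠ (c i j).2 ⟨w, hw⟩ :=
        (Measure.quasiMeasurePreserving_eval (fun _ : {w : InfinitePlace K // w.IsComplex} =>
          (volume : Measure ℂ)) ⟨w, hw⟩).ae h1
      have h3 : ∀ᵐ x : mixedSpace K, x.2 ⟨w, hw⟩ ≠ (c i j).2 ⟨w, hw⟩ :=
        (Measure.quasiMeasurePreserving_snd (μ := (volume : Measure
          ({w : InfinitePlace K // w.IsReal} → ℝ))) (ν := (volume : Measure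
          ({w : InfinitePlace K // w.IsComplex} → ℂ)))).ae h2
      filter_upwards [h3] with x hx
      rw [normAtPlace_apply_of_isComplex hw, norm_pos_iff]
      exact sub_ne_zero.2 hx
  have h4 : ∀ᵐ x : mixedSpace K, ∀ w : InfinitePlace K, 0 < normAtPlace w (x - c i j) :=
    ae_all_iff.2 h0
  exact (Measure.quasiMeasurePreserving_eval (fun _ : Fin n =>
    (volume : Measure (mixedSpace K))) j).ae h4

open scoped Classical in
/-- the comparison with the proximity function -/
lemma prox_le {n : ℕ} (hn : 1 ≤ n) {σ : ℝ} (hσ : 0 < σ) (ξ : Fin n → mixedSpace K)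
    (y : Fin n → K) (R : ℝ) (hne : ∀ j, ∀ w : InfinitePlace K,
      0 < normAtPlace w (ξ j - mixedEmbedding K (y j)))
    (hR : ∀ j, ∀ w : InfinitePlace K, normAtPlace w (ξ j) ≤ R) :
    Real.exp ((n : ℝ) * σ * prox ξ y) ≤ ∏ j, fm K σ R (mixedEmbedding K (y j)) (ξ j) := by
  have : Nonempty (Fin n) := ⟨⟨0, by omega⟩⟩
  obtain ⟨m, hm⟩ : ∃ m : InfinitePlace K → ℝ, m = fun w =>
    max 1 (⨆ j, normAtPlace w (ξ j - mixedEmbedding K (y j)))⁻¹ := ⟨_, rfl⟩
  have hm1 : ∀ w, 1 ≤ m w := fun w => by rw [hm]; exact le_max_left _ _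
  have hm2 : ∀ w j, m w ≤ max 1 (normAtPlace w (ξ j - mixedEmbedding K (y j)))⁻¹ := by
    intro w j
    rw [hm]
    refine max_le_max le_rfl ?_
    refine inv_anti₀ (hne j w) ?_
    exact le_ciSup (f := fun j => normAtPlace w (ξ j - mixedEmbedding K (y j)))
      (Set.finite_range _).bddAbove j
  have e1 : Real.exp ((n : ℝ) * σ * prox ξ y) = ∏ w : InfinitePlace K, ∏ _j : Fin n,
      (m w) ^ (σ * (w.mult : ℝ)) := by
    unfold prox
    rw [Finset.mul_sum, Real.exp_sum]
    refine Finset.prod_congr rfl fun w _ => ?_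
    rw [Finset.prod_const, Finset.card_univ, Fintype.card_fin, ← Real.rpow_natCast,
      ← Real.rpow_mul (zero_le_one.trans (hm1 w)), Real.rpow_def_of_pos (lt_of_lt_of_le one_pos (hm1 w))]
    congr 1
    rw [hm]
    ring
  rw [e1, Finset.prod_comm]
  refine Finset.prod_le_prod (fun j _ => Finset.prod_nonneg fun w _ =>
    Real.rpow_nonneg (zero_le_one.trans (hm1 w)) _) fun j _ => ?_
  calc ∏ w : InfinitePlace K, (m w) ^ (σ * (w.mult : ℝ)) ≤ ∏ w : InfinitePlace K,
        (max 1 (normAtPlace w (ξ j - mixedEmbedding K (y j)))⁻¹) ^ (σ * (w.mult : ℝ)) := by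
        refine Finset.prod_le_prod (fun w _ => Real.rpow_nonneg (zero_le_one.trans (hm1 w)) _)
          fun w _ => ?_
        exact Real.rpow_le_rpow (zero_le_one.trans (hm1 w)) (hm2 w j) (by positivity)
    _ = fm K σ R (mixedEmbedding K (y j)) (ξ j) := by
        rw [← Fintype.prod_subtype_mul_prod_subtype (fun w : InfinitePlace K => w.IsReal)]
        unfold fm
        congr 1
        · refine Finset.prod_congr rfl fun w _ => ?_
          unfold fr
          rw [Set.indicator_of_mem]
          · rw [normAtPlace_apply_of_isReal w.2, InfinitePlace.mult_isReal, Nat.cast_one, mul_one]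
            rfl
          · rw [mem_closedBall_zero_iff]
            have := hR j w
            rwa [normAtPlace_apply_of_isReal w.2] at this
        · refine Finset.prod_bij' (fun w _ => ⟨w.1, InfinitePlace.not_isReal_iff_isComplex.1 w.2⟩)
            (fun w _ => ⟨w.1, InfinitePlace.not_isReal_iff_isComplex.2 w.2⟩)
            (fun _ _ => Finset.mem_univ _) (fun _ _ => Finset.mem_univ _) (fun _ _ => rfl)
            (fun _ _ => rfl) fun w _ => ?_
          have hw : w.1.IsComplex := InfinitePlace.not_isReal_iff_isComplex.1 w.2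
          unfold fc
          rw [Set.indicator_of_mem]
          · rw [normAtPlace_apply_of_isComplex hw]
            have h2 : (w.1.mult : ℝ) = 2 := by
              have := InfinitePlace.mult_isComplex ⟨w.1, hw⟩
              exact_mod_cast this
            rw [h2, mul_comm]
            rfl
          · rw [mem_closedBall_zero_iff]
            have := hR j w
            rwa [normAtPlace_apply_of_isComplex hw] at this

open scoped Classical in
theorem ae : S_AE := by
  intro K _ _ n hn η hη hη1 ι _ y W hW hWs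
  have hσ : 0 < 1 - η := by linarith
  have hσ1 : 1 - η < 1 := by linarith
  -- for every radius the sum is finite almost everywhere
  have key : ∀ R : ℕ, ∀ᵐ ξ : Fin n → mixedSpace K,
      ∑' i, ENNReal.ofReal (W i * ∏ j, fm K (1 - η) R (mixedEmbedding K (y i j)) (ξ j)) < ⊤ := by
    intro R
    obtain ⟨C, hC, hint⟩ := fn_int K hσ hσ1 R n
    have hmeas : ∀ i, AEMeasurable (fun ξ : Fin n → mixedSpace K =>
        ENNReal.ofReal (W i * ∏ j, fm K (1 - η) R (mixedEmbedding K (y i j)) (ξ j))) := fun i =>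
      ((hint (fun j => mixedEmbedding K (y i j))).1.const_mul (W i)).aestronglyMeasurable.aemeasurable.ennreal_ofReal
    have htot : ∫⁻ ξ : Fin n → mixedSpace K,
        ∑' i, ENNReal.ofReal (W i * ∏ j, fm K (1 - η) R (mixedEmbedding K (y i j)) (ξ j)) ≠ ⊤ := by
      rw [lintegral_tsum hmeas]
      have h1 : ∀ i, ∫⁻ ξ : Fin n → mixedSpace K,
          ENNReal.ofReal (W i * ∏ j, fm K (1 - η) R (mixedEmbedding K (y i j)) (ξ j)) ≤
          ENNReal.ofReal (W i * C) := by
        intro i
        rw [← ofReal_integral_eq_lintegral_ofReal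
          ((hint (fun j => mixedEmbedding K (y i j))).1.const_mul (W i))
          (Filter.Eventually.of_forall fun ξ => mul_nonneg (hW i)
            (Finset.prod_nonneg fun j _ => fm_nonneg K _ _ _ _))]
        apply ENNReal.ofReal_le_ofReal
        rw [integral_const_mul]
        exact mul_le_mul_of_nonneg_left (hint (fun j => mixedEmbedding K (y i j))).2 (hW i)
      have h2 : ∑' i, ENNReal.ofReal (W i * C) ≠ ⊤ := (hWs.mul_right C).tsum_ofReal_ne_top
      exact ne_top_of_le_ne_top h2 (ENNReal.tsum_le_tsum h1)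
    exact ae_lt_top' (AEMeasurable.ennreal_tsum hmeas) htot
  filter_upwards [ae_all_iff.2 key, ae_ne K (fun i j => mixedEmbedding K (y i j))] with ξ hξ hne
  -- the radius
  obtain ⟨R, hR⟩ : ∃ R : ℕ, ∀ j, ∀ w : InfinitePlace K, normAtPlace w (ξ j) ≤ R := by
    obtain ⟨B, hB⟩ := (Set.finite_range (fun p : Fin n × InfinitePlace K =>
      normAtPlace p.2 (ξ p.1))).bddAbove
    obtain ⟨R, hR⟩ := exists_nat_ge B
    exact ⟨R, fun j w => (hB ⟨(j, w), rfl⟩).trans hR⟩
  refine ⟨(∑' i, ENNReal.ofReal (W i * ∏ j, fm K (1 - η) R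
    (mixedEmbedding K (y i j)) (ξ j))).toReal, fun i => ?_⟩
  have h1 : W i * Real.exp ((n : ℝ) * (1 - η) * prox ξ (y i)) ≤
      W i * ∏ j, fm K (1 - η) R (mixedEmbedding K (y i j)) (ξ j) :=
    mul_le_mul_of_nonneg_left (prox_le K hn hσ ξ (y i) R (hne i) hR) (hW i)
  have h2 : ENNReal.ofReal (W i * ∏ j, fm K (1 - η) R (mixedEmbedding K (y i j)) (ξ j)) ≤
      ∑' i, ENNReal.ofReal (W i * ∏ j, fm K (1 - η) R (mixedEmbedding K (y i j)) (ξ j)) :=
    ENNReal.le_tsum i
  have h3 := (ENNReal.ofReal_le_iff_le_toReal (hξ R).ne).1 h2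
  exact h1.trans h3

end Q273.MV
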