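import Pool.Agent.Q273.MV.Loc2

/-!
# Losses of integral vectors with prescribed divisibilities, final form; archimedean estimates
-/

set_option autoImplicit false
set_option linter.unusedSectionVars false

namespace Q273.MV

open NumberField IsDedekindDomain Finset Pool.Agent.H691R3 Height Pool.Agent.W232.VA
open NumberField.mixedEmbedding

variable {K : Type} [Field K] [NumberField K] {n r : ℕ}

lemma lam_div (v : HeightOneSpectrum (𝓞 K)) {b x : Fin (n + 1) → 𝓞 K} (hb : cz b ≠ 0)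
    (hx : cz x ≠ 0) (hl : lin (cz b) (cz x) ≠ 0) {k : ℕ} (hk : linZ b x ∈ v.asIdeal ^ k) :
    (k : ℝ) * Real.log (Nv v) + lg v (cz b) + lg v (cz x) ≤
      Pool.Agent.W232.VA.lam (fv v) (cz b) (cz x) := by
  rw [lam_eq (fv v) hb hx hl]
  have h1 := (fv_le_pow_iff v (linZ b x) k).mpr hk
  rw [linZ_cz] at h1
  have h2 := Real.log_le_log ((fv v).pos hl) h1
  rw [Real.log_zpow] at h2
  push_cast at h2
  unfold lg
  linarith

theorem loc (S : Finset (HeightOneSpectrum (𝓞 K))) (b : Fin r → Fin (n + 1) → 𝓞 K)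
    (hb : ∀ i, cz (b i) ≠ 0) (hd : ∀ i l, i ≠ l → ∀ c : K, cz (b i) ≠ c • cz (b l))
    (P : Fin r → HeightOneSpectrum (𝓞 K)) (hP : Function.Injective P) :
    ∃ C : ℝ, 0 ≤ C ∧ ∀ (x : Fin (n + 1) → 𝓞 K) (k : Fin r → ℕ), cz x ≠ 0 →
      (∀ i, lin (cz (b i)) (cz x) ≠ 0) → (∀ i, linZ (b i) x ∈ (P i).asIdeal ^ (k i)) →
      (∑ l, (k l : ℝ) * Real.log (Nv (P l)) - Gd (cz x) - C ≤
        hW (fun i => cz (b i)) (cz x) - N1 S (fun i => cz (b i)) (cz x)) ∧
      (∀ i, (k i : ℝ) * Real.log (Nv (P i)) - Gd (cz x) - C ≤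
        Real.log (mulHeight (cz x)) - N1 S (fun _ : Fin 1 => cz (b i)) (cz x)) ∧
      ∀ i, Real.log (mulHeight (cz x)) - N1 S (fun _ : Fin 1 => cz (b i)) (cz x) +
        ∑ l ∈ univ.erase i, (k l : ℝ) * Real.log (Nv (P l)) - Gd (cz x) - C ≤
        hW (fun i => cz (b i)) (cz x) - N1 S (fun i => cz (b i)) (cz x) := by
  classical
  set c : Fin r → ℝ := fun l => |lg (P l) (cz (b l))| + Real.log (Nv (P l)) with hc
  have hc0 : ∀ l, 0 ≤ c l := fun l => add_nonneg (abs_nonneg _) (log_Nv_pos _).le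
  have hH0 : ∀ i, 0 ≤ Real.log (mulHeight (cz (b i))) := fun i =>
    Real.log_nonneg (one_le_mulHeight _)
  have hn0 : (0 : ℝ) ≤ n := Nat.cast_nonneg n
  have hlogn : 0 ≤ Real.log ((n : ℝ) + 1) := Real.log_nonneg (by linarith)
  have hd0 : (0 : ℝ) ≤ (Module.finrank ℚ K : ℝ) := Nat.cast_nonneg _
  refine ⟨∑ l, c l + (Module.finrank ℚ K : ℝ) * Real.log ((n : ℝ) + 1) +
    ∑ i, Real.log (mulHeight (cz (b i))), ?_, ?_⟩
  · have h1 : 0 ≤ ∑ l, c l := Finset.sum_nonneg fun l _ => hc0 l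
    have h2 : 0 ≤ ∑ i, Real.log (mulHeight (cz (b i))) := Finset.sum_nonneg fun l _ => hH0 l
    have h3 := mul_nonneg hd0 hlogn
    linarith
  intro x k hx hl hk
  obtain ⟨h1, h2, h3⟩ := loc0 S hb hd P hP hx hl
  have hlam : ∀ l, (k l : ℝ) * Real.log (Nv (P l)) + lg (P l) (cz x) - c l ≤
      Pool.Agent.W232.VA.lam (fv (P l)) (cz (b l)) (cz x) - Real.log (Nv (P l)) := by
    intro l
    have e1 := lam_div (P l) (hb l) hx (hl l) (hk l)
    have e2 := neg_abs_le (lg (P l) (cz (b l)))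
    rw [hc]
    simp only
    linarith
  have hsub : ∀ V : Finset (Fin r), -Gd (cz x) ≤ ∑ l ∈ V, lg (P l) (cz x) := by
    intro V
    have e := sum_lg_ge hx (V.image P)
    rwa [Finset.sum_image fun i _ j _ h => hP h] at e
  have hcV : ∀ V : Finset (Fin r), ∑ l ∈ V, c l ≤ ∑ l, c l := fun V =>
    Finset.sum_le_sum_of_subset_of_nonneg (Finset.subset_univ V) fun l _ _ => hc0 l
  have hV : ∀ V : Finset (Fin r), ∑ l ∈ V, (k l : ℝ) * Real.log (Nv (P l)) - Gd (cz x) -
      ∑ l, c l ≤ ∑ l ∈ V, (Pool.Agent.W232.VA.lam (fv (P l)) (cz (b l)) (cz x) -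
        Real.log (Nv (P l))) := by
    intro V
    have e1 := Finset.sum_le_sum fun l (_ : l ∈ V) => hlam l
    rw [Finset.sum_sub_distrib, Finset.sum_add_distrib] at e1
    have e2 := hsub V
    have e3 := hcV V
    linarith
  have hHi : ∀ i, Real.log (mulHeight (cz (b i))) ≤ ∑ i, Real.log (mulHeight (cz (b i))) :=
    fun i => Finset.single_le_sum (f := fun i => Real.log (mulHeight (cz (b i))))
      (fun l _ => hH0 l) (Finset.mem_univ i)
  have hS1 : 0 ≤ ∑ i, Real.log (mulHeight (cz (b i))) := Finset.sum_nonneg fun l _ => hH0 l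
  have hS2 := mul_nonneg hd0 hlogn
  refine ⟨?_, fun i => ?_, fun i => ?_⟩
  · have := hV univ
    linarith
  · have e1 := h2 i
    have e2 := hV {i}
    rw [Finset.sum_singleton, Finset.sum_singleton] at e2
    have e3 := hHi i
    linarith
  · have e1 := h3 i
    have e2 := hV (univ.erase i)
    have e3 := hH0 i
    linarith

/-- archimedean estimates -/
theorem arch (hn : 1 ≤ n) (ξ : Fin n → mixedSpace K)
    (hξ : ∀ (w : InfinitePlace K) (y : K), normAtPlace w (ξ ⟨0, hn⟩ - mixedEmbedding K y) ≠ 0) :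
    ∃ C : ℝ, 0 ≤ C ∧ ∀ x : Fin (n + 1) → 𝓞 K, x 0 ≠ 0 → ∀ X Y : ℝ, 0 < Y → Y ≤ X →
      (∀ w : InfinitePlace K, w ((x 0 : 𝓞 K) : K) ≤ X) →
      (∀ (w : InfinitePlace K) (j : Fin n),
        normAtPlace w (mixedEmbedding K ((x 0 : 𝓞 K) : K) * ξ j -
          mixedEmbedding K ((x j.succ : 𝓞 K) : K)) ≤ Y) →
      Real.log (mulHeight (cz x)) + Gd (cz x) ≤ (Module.finrank ℚ K : ℝ) * Real.log X + C ∧
      Real.log (mulHeight (cz x)) + Gd (cz x) - (Module.finrank ℚ K : ℝ) * Real.log Y - C ≤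
        prox ξ (fun j => ((x j.succ : 𝓞 K) : K) / ((x 0 : 𝓞 K) : K)) := by
  classical
  have : Nonempty (Fin n) := ⟨⟨0, hn⟩⟩
  set Ξ : ℝ := ∑ w : InfinitePlace K, ∑ j, normAtPlace w (ξ j) with hΞ
  have hΞ0 : 0 ≤ Ξ := Finset.sum_nonneg fun w _ => Finset.sum_nonneg fun j _ => normAtPlace_nonneg _ _
  have hΞle : ∀ (w : InfinitePlace K) (j : Fin n), normAtPlace w (ξ j) ≤ Ξ := by
    intro w j
    have h1 : normAtPlace w (ξ j) ≤ ∑ j, normAtPlace w (ξ j) :=
      Finset.single_le_sum (f := fun j => normAtPlace w (ξ j))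
        (fun j _ => normAtPlace_nonneg _ _) (Finset.mem_univ j)
    have h2 : ∑ j, normAtPlace w (ξ j) ≤ Ξ :=
      Finset.single_le_sum (f := fun w => ∑ j, normAtPlace w (ξ j))
        (fun w _ => Finset.sum_nonneg fun j _ => normAtPlace_nonneg _ _) (Finset.mem_univ w)
    exact h1.trans h2
  have hd0 : (0 : ℝ) ≤ (Module.finrank ℚ K : ℝ) := Nat.cast_nonneg _
  have hlogΞ : 0 ≤ Real.log (Ξ + 1) := Real.log_nonneg (by linarith)
  refine ⟨(Module.finrank ℚ K : ℝ) * Real.log (Ξ + 1), mul_nonneg hd0 hlogΞ, ?_⟩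
  intro x hx0 X Y hY hYX hX hxY
  have hx0' : ((x 0 : 𝓞 K) : K) ≠ 0 := RingOfIntegers.coe_ne_zero_iff.mpr hx0
  have hx : cz x ≠ 0 := fun h => hx0' (congrFun h 0)
  set β : InfinitePlace K → ℝ := fun w => max (w ((x 0 : 𝓞 K) : K)) Y with hβ
  have hβY : ∀ w, Y ≤ β w := fun w => le_max_right _ _
  have hβ0 : ∀ w, 0 < β w := fun w => hY.trans_le (hβY w)
  have hβX : ∀ w, β w ≤ X := fun w => max_le (hX w) hYX
  have hsup : ∀ w : InfinitePlace K, (⨆ j, w (cz x j)) ≤ (Ξ + 1) * β w := by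
    intro w
    refine ciSup_le fun j => ?_
    refine Fin.cases ?_ (fun j => ?_) j
    · have h1 : w (cz x 0) ≤ β w := le_max_left _ _
      nlinarith [hβ0 w]
    · have h1 : w (cz x j.succ) = normAtPlace w (mixedEmbedding K ((x j.succ : 𝓞 K) : K)) :=
        (normAtPlace_apply w _).symm
      have h2 : mixedEmbedding K ((x j.succ : 𝓞 K) : K) =
          mixedEmbedding K ((x 0 : 𝓞 K) : K) * ξ j +
          -(mixedEmbedding K ((x 0 : 𝓞 K) : K) * ξ j -
            mixedEmbedding K ((x j.succ : 𝓞 K) : K)) := by ring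
      rw [h1, h2]
      refine (normAtPlace_add_le w _ _).trans ?_
      rw [normAtPlace_neg, map_mul, normAtPlace_apply]
      have h3 := hxY w j
      have h4 := hΞle w j
      have h5 : w ((x 0 : 𝓞 K) : K) ≤ β w := le_max_left _ _
      have h6 : 0 ≤ normAtPlace w (ξ j) := normAtPlace_nonneg _ _
      have h7 : w ((x 0 : 𝓞 K) : K) * normAtPlace w (ξ j) ≤ β w * Ξ :=
        mul_le_mul h5 h4 h6 (hβ0 w).le
      have h8 := hβY w
      linarith
  have hlog : ∀ w : InfinitePlace K, Real.log (⨆ j, w (cz x j)) ≤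
      Real.log (Ξ + 1) + Real.log (β w) := by
    intro w
    have hpos := sup_pos w.1 hx
    rw [← Real.log_mul (by linarith) (hβ0 w).ne']
    exact Real.log_le_log hpos (hsup w)
  have hsum : Real.log (mulHeight (cz x)) + Gd (cz x) ≤
      (Module.finrank ℚ K : ℝ) * Real.log (Ξ + 1) +
        ∑ w : InfinitePlace K, (w.mult : ℝ) * Real.log (β w) := by
    rw [log_height hx, sub_add_cancel, ← sum_mult_real, Finset.sum_mul, ← Finset.sum_add_distrib]
    refine Finset.sum_le_sum fun w _ => ?_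
    rw [← mul_add]
    exact mul_le_mul_of_nonneg_left (hlog w) (Nat.cast_nonneg _)
  constructor
  · have h1 : ∑ w : InfinitePlace K, (w.mult : ℝ) * Real.log (β w) ≤
        (Module.finrank ℚ K : ℝ) * Real.log X := by
      rw [← sum_mult_real, Finset.sum_mul]
      refine Finset.sum_le_sum fun w _ => mul_le_mul_of_nonneg_left ?_ (Nat.cast_nonneg _)
      exact Real.log_le_log (hβ0 w) (hβX w)
    linarith
  · have h1 : ∑ w : InfinitePlace K, (w.mult : ℝ) * Real.log (β w) -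
        (Module.finrank ℚ K : ℝ) * Real.log Y ≤
        prox ξ (fun j => ((x j.succ : 𝓞 K) : K) / ((x 0 : 𝓞 K) : K)) := by
      unfold prox
      rw [← sum_mult_real, Finset.sum_mul, ← Finset.sum_sub_distrib]
      refine Finset.sum_le_sum fun w _ => ?_
      rw [← mul_sub]
      refine mul_le_mul_of_nonneg_left ?_ (Nat.cast_nonneg _)
      rw [← Real.log_div (hβ0 w).ne' hY.ne']
      refine Real.log_le_log (div_pos (hβ0 w) hY) ?_
      have hw0 : 0 < w ((x 0 : 𝓞 K) : K) := (InfinitePlace.pos_iff).2 hx0'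
      set t : ℝ := ⨆ j, normAtPlace w (ξ j -
        mixedEmbedding K (((x j.succ : 𝓞 K) : K) / ((x 0 : 𝓞 K) : K))) with ht
      have hle : ∀ j, normAtPlace w (ξ j -
          mixedEmbedding K (((x j.succ : 𝓞 K) : K) / ((x 0 : 𝓞 K) : K))) ≤
          Y / w ((x 0 : 𝓞 K) : K) := by
        intro j
        rw [le_div_iff₀ hw0, mul_comm, ← normAtPlace_apply w ((x 0 : 𝓞 K) : K), ← map_mul,
          mul_sub, ← map_mul, mul_div_cancel₀ _ hx0']
        exact hxY w j
      have ht1 : t ≤ Y / w ((x 0 : 𝓞 K) : K) := ciSup_le hle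
      have ht0 : 0 < t := by
        have h2 : normAtPlace w (ξ ⟨0, hn⟩ -
            mixedEmbedding K (((x (Fin.succ ⟨0, hn⟩) : 𝓞 K) : K) / ((x 0 : 𝓞 K) : K))) ≤ t :=
          Finite.le_ciSup_of_le (f := fun j => normAtPlace w (ξ j -
            mixedEmbedding K (((x j.succ : 𝓞 K) : K) / ((x 0 : 𝓞 K) : K)))) ⟨0, hn⟩ le_rfl
        exact lt_of_lt_of_le (lt_of_le_of_ne (normAtPlace_nonneg _ _) (hξ w _).symm) h2
      have ht2 : w ((x 0 : 𝓞 K) : K) / Y ≤ t⁻¹ := by
        rw [← one_div, div_le_div_iff₀ hY ht0]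
        rw [le_div_iff₀ hw0] at ht1
        linarith
      rw [hβ]
      simp only
      rw [div_le_iff₀ hY]
      refine max_le ?_ ?_
      · rw [div_le_iff₀ hY] at ht2
        exact ht2.trans (mul_le_mul_of_nonneg_right (le_max_right _ _) hY.le)
      · have h3 := mul_le_mul_of_nonneg_right (le_max_left (1 : ℝ) t⁻¹) hY.le
        linarith
    linarith

end Q273.MV
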