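import Pool.Agent.Q273.MV.Low

/-!
# Statements of the lemmas of the project MV, fourth part
-/

set_option autoImplicit false

namespace Q273.MV

open NumberField NumberField.mixedEmbedding NumberField.InfinitePlace
open IsDedekindDomain Finset Pool.Agent.W232.VA Pool.Agent.H691R3 Height

variable {K : Type} [Field K] [NumberField K] {r : ℕ}

/-- integral vectors near `ξ` with prescribed divisibilities and archimedean sizes -/
def LowAt (ξ : Fin 1 → mixedSpace K) (b : Fin r → Fin (1 + 1) → 𝓞 K)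
    (P : Fin r → HeightOneSpectrum (𝓞 K)) (δ : Fin r → ℝ) (C : ℝ) : Prop :=
  ∀ t : ℝ, C ≤ t → ∃ (x : Fin (1 + 1) → 𝓞 K) (k : Fin r → ℕ), x 0 ≠ 0 ∧
    (∀ i, lin (cz (b i)) (cz x) ≠ 0) ∧
    (∀ i, linZ (b i) x ∈ (P i).asIdeal ^ (k i)) ∧
    (∀ i, δ i * ((Module.finrank ℚ K : ℝ) * t) - C ≤ (k i : ℝ) * Real.log (Nv (P i))) ∧
    (∀ w : InfinitePlace K, w ((x 0 : 𝓞 K) : K) ≤ Real.exp (t + C)) ∧
    ∀ w : InfinitePlace K, normAtPlace w (mixedEmbedding K ((x 0 : 𝓞 K) : K) * ξ 0 -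
      mixedEmbedding K ((x 1 : 𝓞 K) : K)) ≤ Real.exp (C - (1 - ∑ i, δ i) * t)

/-- job LOW -/
def S_LOW : Prop :=
  ∀ (K : Type) [Field K] [NumberField K] (ξ : Fin 1 → mixedSpace K), Gen ξ →
    ∀ (r : ℕ) (b : Fin r → Fin (1 + 1) → 𝓞 K), (∀ i, cz (b i) ≠ 0) →
    (∀ i l, i ≠ l → ∀ c : K, cz (b i) ≠ c • cz (b l)) →
    ∀ P : Fin r → HeightOneSpectrum (𝓞 K), Function.Injective P →
    ∀ δ : Fin r → ℝ, (∀ i, 0 ≤ δ i) → (∀ i, δ i < 1) → ∑ i, δ i < 2 →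
    ∃ C : ℝ, 0 ≤ C ∧ LowAt ξ b P δ C

end Q273.MV
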