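import Pool.Agent.Q273.MV.P2
import Pool.Agent.Q273.MV.Stm4

/-!
# The projective line: points near `ξ` at every scale, with uniform constants
-/

set_option autoImplicit false
set_option linter.unusedSectionVars false

namespace Q273.MV

open NumberField NumberField.mixedEmbedding NumberField.InfinitePlace
open IsDedekindDomain Finset Pool.Agent.W232.VA Pool.Agent.H691R3 Height
open Pool.Agent.Results.MP_4d5ce1_nt.ExceptionalSetExponents (height counting)

variable {K : Type} [Field K] [NumberField K] {q : ℕ}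

lemma frm_smul {α β : K × K} {c : K} (h : frm α = c • frm β) : α.1 * β.2 - α.2 * β.1 = 0 := by
  have h0 : -α.1 = c * (-β.1) := congrFun h 0
  have h1 : α.2 = c * β.2 := congrFun h 1
  linear_combination (-β.2) * h0 - β.1 * h1

/-- the archimedean estimates at `ξ`, with the constant `C` -/
def ArchAt (ξ : Fin 1 → mixedSpace K) (C : ℝ) : Prop :=
  ∀ x : Fin (1 + 1) → 𝓞 K, x 0 ≠ 0 → ∀ X Y : ℝ, 0 < Y → Y ≤ X →
    (∀ w : InfinitePlace K, w ((x 0 : 𝓞 K) : K) ≤ X) →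
    (∀ (w : InfinitePlace K) (j : Fin 1),
      normAtPlace w (mixedEmbedding K ((x 0 : 𝓞 K) : K) * ξ j -
        mixedEmbedding K ((x j.succ : 𝓞 K) : K)) ≤ Y) →
    Real.log (mulHeight (cz x)) + Gd (cz x) ≤ (Module.finrank ℚ K : ℝ) * Real.log X + C ∧
    Real.log (mulHeight (cz x)) + Gd (cz x) - (Module.finrank ℚ K : ℝ) * Real.log Y - C ≤
      prox ξ (fun j => ((x j.succ : 𝓞 K) : K) / ((x 0 : 𝓞 K) : K))

/-- the law at `ξ`, with the constant `C` -/
def LawC (ξ : Fin 1 → mixedSpace K) (T : Set (HeightOneSpectrum (𝓞 K))) (α : Fin q → K × K)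
    (κ0 ε C : ℝ) : Prop :=
  ∀ x : K, (∀ l, x * (α l).2 - 1 * (α l).1 ≠ 0) →
    (∑ l, sI T (α l) x ≤ κ0 * hh x ∨ (2 - κ0 + ε) * hh x ≤ prox ξ (fun _ => x)) →
    prox ξ (fun _ => x) + ∑ l, sI T (α l) x ≤ (2 + ε) * hh x + C

/-- the set of the targets with the constant `m` -/
def Fset (T : Set (HeightOneSpectrum (𝓞 K))) (α : Fin q → K × K)
    (b : Fin q → Fin (1 + 1) → 𝓞 K) (P : Fin q → HeightOneSpectrum (𝓞 K)) (δ : Fin q → ℝ)
    (ε : ℝ) (m : ℕ) : Set (mixedSpace K) :=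
  {ξ | LawC (fun _ => ξ) T α (kap q) ε m ∧ LowAt (fun _ => ξ) b P δ m ∧
    ArchAt (fun _ => ξ) m ∧ ∀ w : InfinitePlace K, normAtPlace w ξ ≤ m}

lemma LowAt.mono {r : ℕ} {ξ : Fin 1 → mixedSpace K} {b : Fin r → Fin (1 + 1) → 𝓞 K}
    {P : Fin r → HeightOneSpectrum (𝓞 K)} {δ : Fin r → ℝ} {C C' : ℝ} (h : LowAt ξ b P δ C)
    (hC : C ≤ C') : LowAt ξ b P δ C' := by
  intro t ht
  obtain ⟨x, k, h0, h1, h2, h3, h4, h5⟩ := h t (hC.trans ht)
  refine ⟨x, k, h0, h1, h2, fun i => ?_, fun w => ?_, fun w => ?_⟩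
  · have := h3 i
    linarith
  · exact (h4 w).trans (Real.exp_le_exp.2 (by linarith))
  · exact (h5 w).trans (Real.exp_le_exp.2 (by linarith))

lemma Fset_mono (T : Set (HeightOneSpectrum (𝓞 K))) (α : Fin q → K × K)
    (b : Fin q → Fin (1 + 1) → 𝓞 K) (P : Fin q → HeightOneSpectrum (𝓞 K)) (δ : Fin q → ℝ)
    (ε : ℝ) : Monotone (Fset T α b P δ ε) := by
  intro m m' hm ξ hξ
  have hm' : (m : ℝ) ≤ m' := by exact_mod_cast hm
  obtain ⟨h1, h2, h3, h4⟩ := hξ
  refine ⟨fun x hx hle => ?_, h2.mono hm', fun x hx X Y hY hYX h5 h6 => ?_, fun w => ?_⟩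
  · have := h1 x hx hle
    linarith
  · obtain ⟨h7, h8⟩ := h3 x hx X Y hY hYX h5 h6
    exact ⟨by linarith, by linarith⟩
  · exact (h4 w).trans hm'

/-- the sizes at the single archimedean places -/
lemma place {ξ : mixedSpace K} {B : ℝ} (hB : ∀ w : InfinitePlace K, normAtPlace w ξ ≤ B)
    (hB0 : 0 ≤ B) {x : Fin (1 + 1) → 𝓞 K} (hx0 : x 0 ≠ 0) {X Y : ℝ} (hY : 0 < Y) (hYX : Y ≤ X)
    (hX : ∀ w : InfinitePlace K, w ((x 0 : 𝓞 K) : K) ≤ X)
    (hxY : ∀ w : InfinitePlace K, normAtPlace w (mixedEmbedding K ((x 0 : 𝓞 K) : K) * ξ -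
      mixedEmbedding K ((x 1 : 𝓞 K) : K)) ≤ Y) (w : InfinitePlace K) :
    Real.log X - ((Module.finrank ℚ K : ℝ) * Real.log X +
      (Module.finrank ℚ K : ℝ) * Real.log (B + 1) -
        (Real.log (mulHeight (cz x)) + Gd (cz x))) ≤
      Real.log (max (w ((x 0 : 𝓞 K) : K)) Y) := by
  classical
  have hx0' : ((x 0 : 𝓞 K) : K) ≠ 0 := RingOfIntegers.coe_ne_zero_iff.mpr hx0
  have hx : cz x ≠ 0 := fun h => hx0' (congrFun h 0)
  set β : InfinitePlace K → ℝ := fun w => max (w ((x 0 : 𝓞 K) : K)) Y with hβ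
  have hβY : ∀ w, Y ≤ β w := fun w => le_max_right _ _
  have hβ0 : ∀ w, 0 < β w := fun w => hY.trans_le (hβY w)
  have hβX : ∀ w, β w ≤ X := fun w => max_le (hX w) hYX
  have hlogB : 0 ≤ Real.log (B + 1) := Real.log_nonneg (by linarith)
  have hsup : ∀ w : InfinitePlace K, (⨆ j, w (cz x j)) ≤ (B + 1) * β w := by
    intro w
    have hs := sup2 w.1 (cz x)
    have hs' : (⨆ j, w (cz x j)) = max (w (cz x 0)) (w (cz x 1)) := hs
    rw [hs']
    refine max_le ?_ ?_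
    · have h1 : w (cz x 0) ≤ β w := le_max_left _ _
      nlinarith [hβ0 w]
    · have h1 : w (cz x 1) = normAtPlace w (mixedEmbedding K ((x 1 : 𝓞 K) : K)) :=
        (normAtPlace_apply w _).symm
      have h2 : mixedEmbedding K ((x 1 : 𝓞 K) : K) =
          mixedEmbedding K ((x 0 : 𝓞 K) : K) * ξ +
          -(mixedEmbedding K ((x 0 : 𝓞 K) : K) * ξ -
            mixedEmbedding K ((x 1 : 𝓞 K) : K)) := by ring
      rw [h1, h2]
      refine (normAtPlace_add_le w _ _).trans ?_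
      rw [normAtPlace_neg, map_mul, normAtPlace_apply]
      have h3 := hxY w
      have h4 := hB w
      have h5 : w ((x 0 : 𝓞 K) : K) ≤ β w := le_max_left _ _
      have h6 : 0 ≤ normAtPlace w ξ := normAtPlace_nonneg _ _
      have h7 : w ((x 0 : 𝓞 K) : K) * normAtPlace w ξ ≤ β w * B :=
        mul_le_mul h5 h4 h6 (hβ0 w).le
      have h8 := hβY w
      linarith
  have hlog : ∀ w : InfinitePlace K, Real.log (⨆ j, w (cz x j)) ≤
      Real.log (B + 1) + Real.log (β w) := by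
    intro w
    have hpos := sup_pos w.1 hx
    rw [← Real.log_mul (by linarith) (hβ0 w).ne']
    exact Real.log_le_log hpos (hsup w)
  have hsum : Real.log (mulHeight (cz x)) + Gd (cz x) ≤
      (Module.finrank ℚ K : ℝ) * Real.log (B + 1) +
        ∑ w : InfinitePlace K, (w.mult : ℝ) * Real.log (β w) := by
    rw [log_height hx, sub_add_cancel, ← sum_mult_real, Finset.sum_mul, ← Finset.sum_add_distrib]
    refine Finset.sum_le_sum fun w _ => ?_
    rw [← mul_add]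
    exact mul_le_mul_of_nonneg_left (hlog w) (Nat.cast_nonneg _)
  have h0 : ∀ w : InfinitePlace K, 0 ≤ Real.log X - Real.log (β w) := fun w =>
    sub_nonneg.2 (Real.log_le_log (hβ0 w) (hβX w))
  have h1 : Real.log X - Real.log (β w) ≤
      ∑ w : InfinitePlace K, (w.mult : ℝ) * (Real.log X - Real.log (β w)) := by
    have h2 : (w.mult : ℝ) * (Real.log X - Real.log (β w)) ≤
        ∑ w : InfinitePlace K, (w.mult : ℝ) * (Real.log X - Real.log (β w)) :=
      Finset.single_le_sum (f := fun w : InfinitePlace K =>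
        (w.mult : ℝ) * (Real.log X - Real.log (β w)))
        (fun w _ => mul_nonneg (Nat.cast_nonneg _) (h0 w)) (Finset.mem_univ w)
    have h3 : (1 : ℝ) ≤ w.mult := by exact_mod_cast w.mult_pos
    have h4 := h0 w
    nlinarith
  have h5 : ∑ w : InfinitePlace K, (w.mult : ℝ) * (Real.log X - Real.log (β w)) =
      (Module.finrank ℚ K : ℝ) * Real.log X -
        ∑ w : InfinitePlace K, (w.mult : ℝ) * Real.log (β w) := by
    rw [← sum_mult_real, Finset.sum_mul, ← Finset.sum_sub_distrib]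
    exact Finset.sum_congr rfl fun w _ => by ring
  have h6 : Real.log (max (w ((x 0 : 𝓞 K) : K)) Y) = Real.log (β w) := rfl
  rw [h6]
  linarith

/-- the numerical part -/
theorem num2 {h G D p l C E Δ : ℝ} (hh : 0 ≤ h) (hG : 0 ≤ G) (hC : 0 ≤ C) (hD : 0 ≤ D)
    (hE : 0 ≤ E) (hE1 : E ≤ 1)
    (a : h + G ≤ D + C) (b : h + G + (1 - Δ) * D - C ≤ p) (c : Δ * D - G - C ≤ l)
    (f : p + l ≤ (2 + E) * h + C) :
    |h - D| ≤ E * D + 4 * C ∧ D - E * D - 4 * C ≤ h ∧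
    ∀ δ s : ℝ, δ * D - G - C ≤ s → s + (Δ - δ) * D - G - C ≤ l →
      |s - δ * D| ≤ E * D + 6 * C := by
  have g1 : D ≤ (1 + E) * h + 3 * C := by nlinarith
  have g2 : E * h ≤ E * (D + C) := mul_le_mul_of_nonneg_left (by linarith) hE
  have g3 : E * C ≤ C := by nlinarith
  have g4 : G ≤ E * D + 5 * C := by nlinarith
  have hED : 0 ≤ E * D := mul_nonneg hE hD
  refine ⟨abs_le.2 ⟨by nlinarith, by nlinarith⟩, by nlinarith, ?_⟩
  intro δ s d e
  refine abs_le.2 ⟨by nlinarith, by nlinarith⟩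

/-- the law applies -/
theorem applic {h G D p C E Δ κ : ℝ} (hh : 0 ≤ h) (hG : 0 ≤ G) (hC : 0 ≤ C)
    (hE : 0 ≤ E) (hEκ : E ≤ (κ - Δ) / 2) (hκ : κ ≤ 1) (hΔ0 : 0 ≤ Δ) (hΔκ : Δ < κ)
    (a : h + G ≤ D + C) (b : h + G + (1 - Δ) * D - C ≤ p)
    (hD : C + 8 * C / (κ - Δ) ≤ (1 - Δ) * D) : (2 - κ + E) * h ≤ p := by
  have hg : 0 < κ - Δ := by linarith
  have h1 : 0 < 1 - Δ := by linarith
  rcases le_or_gt (4 * C) ((κ - Δ) * h) with h2 | h2
  · have h3 : (1 - Δ) * (h - C) ≤ (1 - Δ) * D := mul_le_mul_of_nonneg_left (by linarith) h1.le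
    have h4 : 0 ≤ Δ * C := mul_nonneg hΔ0 hC
    have h5 : E * h ≤ (κ - Δ) / 2 * h := mul_le_mul_of_nonneg_right hEκ hh
    nlinarith
  · have h3 : 2 * h ≤ 8 * C / (κ - Δ) := by
      rw [le_div_iff₀ hg]
      nlinarith
    have h4 : (2 - κ + E) * h ≤ 2 * h := mul_le_mul_of_nonneg_right (by linarith) hh
    linarith

end Q273.MV
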