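import Pool.Agent.Q273.MV.Up
import Pool.Agent.Q273.MV.Trade
import Pool.Agent.Q273.MV.Loc2

/-!
# The upper law for hyperplane arrangements
-/

set_option autoImplicit false

namespace Q273.MV

open MeasureTheory NumberField NumberField.mixedEmbedding NumberField.InfinitePlace
open IsDedekindDomain Pool.Agent.W232.VA Pool.Agent.H691R3 Height LinearAlgebra.Projectivization

variable {K : Type} [Field K] [NumberField K] {n : ℕ}

/-- affine coordinates -/
noncomputable def aff (P : ℙ K (Fin (n + 1) → K)) : Fin n → K := fun j => P.rep j.succ / P.rep 0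

lemma mulHeight_rep (P : ℙ K (Fin (n + 1) → K)) : P.mulHeight = mulHeight P.rep := by
  conv_lhs => rw [← P.mk_rep]
  rw [Projectivization.mulHeight_mk]

lemma log_mulHeight_nonneg (P : ℙ K (Fin (n + 1) → K)) : 0 ≤ Real.log P.mulHeight := by
  rw [mulHeight_rep]
  exact Real.log_nonneg (one_le_mulHeight P.rep)

lemma loss_nonneg {r : ℕ} (S : Finset (HeightOneSpectrum (𝓞 K))) {a : Fin r → Fin (n + 1) → K}
    (ha : ∀ i, a i ≠ 0) {x : Fin (n + 1) → K} (hx : x ≠ 0) (hl : ∀ i, lin (a i) x ≠ 0) :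
    0 ≤ hW a x - N1 S a x := by
  classical
  obtain ⟨T, hT⟩ := exists_T ha hx hl
  rw [hW_eq' hT, N1_eq S hT]
  have h1 : ∑ v ∈ T, ind S a x v ≤ ∑ v ∈ T, wt (fv v) a x :=
    Finset.sum_le_sum fun v _ => by
      have := A_nonneg S ha hx hl v
      linarith
  have hwt : 0 ≤ ∑ w : InfinitePlace K, (w.mult : ℝ) * wt w.1 a x :=
    Finset.sum_nonneg fun w _ => mul_nonneg (Nat.cast_nonneg _) (wt_nonneg _ _ _)
  linarith

open scoped Classical in
theorem law (hn : 1 ≤ n) :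
    ∀ᵐ ξ : Fin n → mixedSpace K, ∀ (r : ℕ) (a : Fin r → Fin (n + 1) → K), (∀ i, a i ≠ 0) →
      ∀ (S : Finset (HeightOneSpectrum (𝓞 K))) (ε : ℝ), 0 < ε → ∃ C : ℝ,
      ∀ P : ℙ K (Fin (n + 1) → K), (∀ i, lin (a i) P.rep ≠ 0) →
        ((n : ℝ) + 1 / 2 + ε) * Real.log P.mulHeight ≤ n * prox ξ (aff P) →
        n * prox ξ (aff P) + (hW a P.rep - N1 S a P.rep) ≤
          ((n : ℝ) + 1 + ε) * Real.log P.mulHeight + C := by
  have : Countable K := Q273.Apx.countable_numberField K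
  have : Countable (HeightOneSpectrum (𝓞 K)) := Q273.Apx.countable_primes K
  have : Countable (ℙ K (Fin (n + 1) → K)) := by
    have h : Function.Surjective (fun v : {v : Fin (n + 1) → K // v ≠ 0} =>
        Projectivization.mk K v.1 v.2) := fun P => ⟨⟨P.rep, P.rep_nonzero⟩, P.mk_rep⟩
    exact h.countable
  let ι : Type := (Σ r : ℕ, {a : Fin r → Fin (n + 1) → K // ∀ i, a i ≠ 0}) ×
    Finset (HeightOneSpectrum (𝓞 K)) × {κ : ℚ // 0 ≤ κ ∧ κ ≤ 1 / 2}
  have key : ∀ i : ι, ∀ᵐ ξ : Fin n → mixedSpace K, ∀ ε : ℝ, 0 < ε → ∃ C : ℝ,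
      ∀ P : ℙ K (Fin (n + 1) → K), ((∀ l, lin (i.1.2.1 l) P.rep ≠ 0) ∧
        N1 i.2.1 i.1.2.1 P.rep ≤ hW i.1.2.1 P.rep - ((i.2.2.1 : ℚ) : ℝ) * Real.log P.mulHeight + 0) →
        (n : ℝ) * prox ξ (aff P) ≤
          ((n : ℝ) + 1 - ((i.2.2.1 : ℚ) : ℝ) + ε) * Real.log P.mulHeight + C := by
    rintro ⟨⟨r, a, ha⟩, S, κ, hκ0, hκ1⟩
    have hκ0' : (0 : ℝ) ≤ (κ : ℝ) := by exact_mod_cast hκ0
    have hκ1' : (κ : ℝ) ≤ 1 / 2 := by
      have : ((κ : ℚ) : ℝ) ≤ ((1 / 2 : ℚ) : ℝ) := by exact_mod_cast hκ1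
      simpa using this
    have hn0 : (0 : ℝ) ≤ n := Nat.cast_nonneg n
    refine up1 hn aff (fun P => P.mulHeight) {P | (∀ l, lin (a l) P.rep ≠ 0) ∧
        N1 S a P.rep ≤ hW a P.rep - (κ : ℝ) * Real.log P.mulHeight + 0}
      (fun P _ => by rw [mulHeight_rep]; exact one_le_mulHeight P.rep) (by linarith)
      (fun δ hδ => ?_)
    obtain ⟨M, hM⟩ := main2 a ha S (κ : ℝ) 0 δ hκ0' hκ1' hδ
    refine ⟨M, fun X hX => ?_⟩
    have hset : {P : ℙ K (Fin (n + 1) → K) | P ∈ {P : ℙ K (Fin (n + 1) → K) |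
        (∀ l, lin (a l) P.rep ≠ 0) ∧
        N1 S a P.rep ≤ hW a P.rep - (κ : ℝ) * Real.log P.mulHeight + 0} ∧
        P.mulHeight ≤ X} = Exc S a (κ : ℝ) 0 X := by
      ext P
      constructor
      · rintro ⟨⟨h1, h2⟩, h3⟩
        exact ⟨h1, h3, h2⟩
      · rintro ⟨h1, h3, h2⟩
        exact ⟨⟨h1, h2⟩, h3⟩
    rw [hset]
    exact hM X hX
  filter_upwards [ae_all_iff.2 key] with ξ hξ
  intro r a ha S
  have hn0 : (0 : ℝ) ≤ n := Nat.cast_nonneg n
  have h := tradeoff (fun P : ℙ K (Fin (n + 1) → K) => Real.log P.mulHeight)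
    (fun P => hW a P.rep - N1 S a P.rep) (fun P => (n : ℝ) * prox ξ (aff P))
    {P | ∀ i, lin (a i) P.rep ≠ 0} (n0 := (n : ℝ) + 1) (κ0 := 1 / 2) (by linarith) (by norm_num)
    (fun P hP => loss_nonneg S ha P.rep_nonzero hP) (fun P _ => log_mulHeight_nonneg P)
    (fun B => by
      obtain ⟨M, hM⟩ := main2 a ha S 0 0 1 le_rfl (by norm_num) one_pos
      refine (hM (max (Real.exp B) 1) (le_max_right _ _)).1.subset ?_
      rintro P ⟨h1, h2⟩
      refine ⟨h1, ?_, ?_⟩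
      · refine le_trans ?_ (le_max_left _ _)
        have hpos : 0 < P.mulHeight := by
          rw [mulHeight_rep]
          exact lt_of_lt_of_le one_pos (one_le_mulHeight P.rep)
        rw [← Real.log_le_iff_le_exp hpos]
        exact h2
      · have := loss_nonneg S ha P.rep_nonzero h1
        linarith)
    (fun j J hJ hj ε hε => by
      have hJ0 : (0 : ℚ) < J := by exact_mod_cast hJ
      obtain ⟨C, hC⟩ := hξ ⟨⟨r, a, ha⟩, S, ⟨1 / 2 * ((j : ℚ) / J), by positivity, by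
        have h1 : (j : ℚ) / J ≤ 1 := by
          rw [div_le_one hJ0]
          exact_mod_cast hj
        linarith⟩⟩ ε hε
      refine ⟨C, fun P hP hle => ?_⟩
      have h2 := hC P ⟨hP, by
        push_cast
        linarith⟩
      push_cast at h2
      exact h2)
  intro ε hε
  obtain ⟨C, hC⟩ := h ε hε
  refine ⟨C, fun P hP hle => hC P hP ?_⟩
  refine le_trans (le_of_eq ?_) hle
  ring

end Q273.MV
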