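import Mathlib

/-!
# The numerical lemma
-/

set_option autoImplicit false

namespace Q273.MV

theorem num {n h G D p l C C1 E Δ : ℝ} (hn : 1 ≤ n) (hh : 0 ≤ h) (hG : 0 ≤ G) (hC : 0 ≤ C)
    (hC1 : 0 ≤ C1) (hE : 0 ≤ E) (hΔ0 : 0 ≤ Δ) (hΔ1 : Δ ≤ 1)
    (a : h + G ≤ D + C) (b : n * (h + G) + (1 - Δ) * D - C ≤ p) (c : Δ * D - G - C ≤ l)
    (f : p + l ≤ (n + 1 + E) * h + C1) :
    |p - (n + 1 - Δ) * h| ≤ 2 * E * h + (2 * C1 + 7 * C) ∧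
    |l - Δ * h| ≤ 2 * E * h + (2 * C1 + 7 * C) ∧
    ∀ δ s : ℝ, 0 ≤ δ → δ ≤ Δ → δ * D - G - C ≤ s → s + (Δ - δ) * D - G - C ≤ l →
      |s - δ * h| ≤ 2 * E * h + (2 * C1 + 7 * C) := by
  have hEh : 0 ≤ E * h := mul_nonneg hE hh
  have hnG : G ≤ n * G := by nlinarith
  have g1 : D + (n - 1) * G ≤ (1 + E) * h + C1 + 2 * C := by nlinarith
  have hn1G : 0 ≤ (n - 1) * G := mul_nonneg (by linarith) hG
  have g3 : n * G ≤ E * h + C1 + 3 * C := by nlinarith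
  have g4 : G ≤ E * h + C1 + 3 * C := by linarith
  have g2 : h - C ≤ D := by linarith
  have p1 : (n + 1 - Δ) * h - 2 * C ≤ p := by
    have h1 : (1 - Δ) * (h - C) ≤ (1 - Δ) * D := mul_le_mul_of_nonneg_left g2 (by linarith)
    have h2 : 0 ≤ Δ * C := mul_nonneg hΔ0 hC
    nlinarith
  have l1 : Δ * h - E * h - C1 - 5 * C ≤ l := by
    have h1 : Δ * (h - C) ≤ Δ * D := mul_le_mul_of_nonneg_left g2 hΔ0
    have h2 : Δ * C ≤ C := by nlinarith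
    nlinarith
  have p2 : p ≤ (n + 1 - Δ + 2 * E) * h + 2 * C1 + 5 * C := by nlinarith
  have l2 : l ≤ (Δ + E) * h + C1 + 2 * C := by nlinarith
  refine ⟨abs_le.2 ⟨by nlinarith, by nlinarith⟩, abs_le.2 ⟨by nlinarith, by nlinarith⟩, ?_⟩
  intro δ s hδ0 hδ1 d e
  have s1 : δ * h - E * h - C1 - 5 * C ≤ s := by
    have h1 : δ * (h - C) ≤ δ * D := mul_le_mul_of_nonneg_left g2 hδ0
    have h2 : δ * C ≤ C := by nlinarith
    nlinarith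
  have s2 : s ≤ (δ + 2 * E) * h + 2 * C1 + 7 * C := by
    have h1 : (Δ - δ) * (h - C) ≤ (Δ - δ) * D := mul_le_mul_of_nonneg_left g2 (by linarith)
    have h2 : (Δ - δ) * C ≤ C := by nlinarith
    nlinarith
  exact abs_le.2 ⟨by nlinarith, by nlinarith⟩

end Q273.MV
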