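import Pool.Agent.Q273.MV.Low
import Pool.Agent.Q273.MV.Law
import Pool.Agent.Q273.MV.Num

/-!
# The lower law: every distribution of the losses occurs
-/

set_option autoImplicit false
set_option linter.unusedSectionVars false

namespace Q273.MV

open NumberField NumberField.mixedEmbedding NumberField.InfinitePlace
open IsDedekindDomain Finset Pool.Agent.W232.VA Pool.Agent.H691R3 Height
open LinearAlgebra.Projectivization

variable {K : Type} [Field K] [NumberField K] {n r : ℕ}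

/-- the upper law at `ξ` for one arrangement -/
def LawAt (ξ : Fin n → mixedSpace K) (S : Finset (HeightOneSpectrum (𝓞 K)))
    (a : Fin r → Fin (n + 1) → K) : Prop :=
  ∀ ε : ℝ, 0 < ε → ∃ C : ℝ,
      ∀ P : ℙ K (Fin (n + 1) → K), (∀ i, lin (a i) P.rep ≠ 0) →
        ((n : ℝ) + 1 / 2 + ε) * Real.log P.mulHeight ≤ n * prox ξ (aff P) →
        n * prox ξ (aff P) + (hW a P.rep - N1 S a P.rep) ≤
          ((n : ℝ) + 1 + ε) * Real.log P.mulHeight + C

lemma finite_low {S : Finset (HeightOneSpectrum (𝓞 K))}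
    (a : Fin r → Fin (n + 1) → K) (ha : ∀ i, a i ≠ 0) (B : ℝ) :
    {P : ℙ K (Fin (n + 1) → K) | (∀ i, lin (a i) P.rep ≠ 0) ∧
      Real.log P.mulHeight ≤ B}.Finite := by
  obtain ⟨M, hM⟩ := main2 a ha S 0 0 1 le_rfl (by norm_num) one_pos
  refine (hM (max (Real.exp B) 1) (le_max_right _ _)).1.subset ?_
  rintro P ⟨h1, h2⟩
  refine ⟨h1, ?_, ?_⟩
  · refine le_trans ?_ (le_max_left _ _)
    have hpos : 0 < P.mulHeight := by
      rw [mulHeight_rep]
      exact lt_of_lt_of_le one_pos (one_le_mulHeight P.rep)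
    rw [← Real.log_le_iff_le_exp hpos]
    exact h2
  · have := loss_nonneg S ha P.rep_nonzero h1
    linarith

theorem sharp1 (hn : 1 ≤ n) {ξ : Fin n → mixedSpace K} (hξ : Gen ξ)
    (S : Finset (HeightOneSpectrum (𝓞 K))) (b : Fin r → Fin (n + 1) → 𝓞 K)
    (hb : ∀ i, cz (b i) ≠ 0) (hd : ∀ i l, i ≠ l → ∀ c : K, cz (b i) ≠ c • cz (b l))
    (hlaw : LawAt ξ S fun i => cz (b i)) (hprimes : Infinite (HeightOneSpectrum (𝓞 K)))
    (δ : Fin r → ℝ) (hδ : ∀ i, 0 ≤ δ i) (hΔ : ∑ i, δ i < 1 / 2) (ε : ℝ) (hε : 0 < ε) (B : ℝ) :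
    ∃ P : ℙ K (Fin (n + 1) → K), (∀ i, lin (cz (b i)) P.rep ≠ 0) ∧ P.rep 0 ≠ 0 ∧
      B ≤ Real.log P.mulHeight ∧
      |n * prox ξ (aff P) - ((n : ℝ) + 1 - ∑ i, δ i) * Real.log P.mulHeight| ≤
        ε * Real.log P.mulHeight ∧
      |(hW (fun i => cz (b i)) P.rep - N1 S (fun i => cz (b i)) P.rep) -
        (∑ i, δ i) * Real.log P.mulHeight| ≤ ε * Real.log P.mulHeight ∧
      ∀ i, |(Real.log P.mulHeight - N1 S (fun _ : Fin 1 => cz (b i)) P.rep) -
        δ i * Real.log P.mulHeight| ≤ ε * Real.log P.mulHeight := by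
  classical
  set Δ : ℝ := ∑ i, δ i with hΔdef
  have hΔ0 : 0 ≤ Δ := Finset.sum_nonneg fun i _ => hδ i
  have hδΔ : ∀ i, δ i ≤ Δ := fun i =>
    Finset.single_le_sum (f := fun i => δ i) (fun i _ => hδ i) (Finset.mem_univ i)
  obtain ⟨P, hP⟩ : ∃ P : Fin r → HeightOneSpectrum (𝓞 K), Function.Injective P :=
    ⟨fun i => Infinite.natEmbedding _ i.1, fun i j h => Fin.ext ((Infinite.natEmbedding _).injective h)⟩
  obtain ⟨Ca, hCa, hloc⟩ := loc S b hb hd P hP
  obtain ⟨Cb, hCb, hlow⟩ := low0 hn hξ b P δ hδ (by linarith)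
  have hhyp : ∀ i, ∃ C : ℝ, ∀ y : Fin n → K,
      cz (b i) 0 + ∑ j, cz (b i) j.succ * y j = 0 → prox ξ y ≤ C := fun i =>
    hyper hn hξ (cz (b i)) (hb i)
  choose Ch hCh using hhyp
  set d : ℕ := Module.finrank ℚ K with hdd
  have hdpos : 0 < d := Module.finrank_pos
  have hdr : (0 : ℝ) < (d : ℝ) := by exact_mod_cast hdpos
  have hnr : (1 : ℝ) ≤ (n : ℝ) := by exact_mod_cast hn
  set γ : ℝ := (1 / 2 - Δ) / 2 with hγ
  have hγ0 : 0 < γ := by rw [hγ]; linarith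
  set ε1 : ℝ := min (ε / 4) γ with hε1
  have hε10 : 0 < ε1 := lt_min (by positivity) hγ0
  obtain ⟨C1', hC1'⟩ := hlaw ε1 hε10
  set C1 : ℝ := max C1' 0 with hC1
  have hC10 : 0 ≤ C1 := le_max_right _ _
  set C : ℝ := Ca + (1 + r) * Cb with hC
  have hC0 : 0 ≤ C := by positivity
  have hCaC : Ca ≤ C := by rw [hC]; nlinarith [Nat.cast_nonneg (α := ℝ) r]
  have hCbC : Cb ≤ C := by rw [hC]; nlinarith [Nat.cast_nonneg (α := ℝ) r]
  set H0 : ℝ := max (max (2 * C / γ) B) (2 * (2 * C1 + 7 * C) / ε) with hH0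
  obtain ⟨p0, hp00, hp0⟩ : ∃ p0 : ℝ, 0 ≤ p0 ∧ ∀ Q : ℙ K (Fin (n + 1) → K),
      (∀ i, lin (cz (b i)) Q.rep ≠ 0) → Real.log Q.mulHeight ≤ H0 →
      (n : ℝ) * prox ξ (aff Q) ≤ p0 := by
    refine ⟨∑ Q ∈ (finite_low (S := S) (fun i => cz (b i)) hb H0).toFinset,
      |(n : ℝ) * prox ξ (aff Q)|, Finset.sum_nonneg fun _ _ => abs_nonneg _, fun Q h1 h2 => ?_⟩
    exact (le_abs_self _).trans (Finset.single_le_sum (f := fun Q => |(n : ℝ) * prox ξ (aff Q)|)
        (fun _ _ => abs_nonneg _) ((Set.Finite.mem_toFinset _).2 ⟨h1, h2⟩))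
  obtain ⟨c0, hc00, hc0⟩ : ∃ c0 : ℝ, 0 ≤ c0 ∧ ∀ i, (n : ℝ) * Ch i ≤ c0 :=
    ⟨∑ i, |(n : ℝ) * Ch i|, Finset.sum_nonneg fun _ _ => abs_nonneg _, fun i =>
      (le_abs_self _).trans (Finset.single_le_sum (f := fun i => |(n : ℝ) * Ch i|)
        (fun _ _ => abs_nonneg _) (Finset.mem_univ i))⟩
  have h1Δ : 0 < 1 - Δ := by linarith
  obtain ⟨t, ht0, htd⟩ : ∃ t : ℝ, 0 ≤ t ∧ (1 - Δ) * (d * t) = C + p0 + c0 + 1 := by
    refine ⟨(C + p0 + c0 + 1) / ((1 - Δ) * d), ?_, ?_⟩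
    · exact div_nonneg (by linarith) (mul_nonneg h1Δ.le hdr.le)
    · field_simp
  obtain ⟨x, k, hx0, hk, hk2, ha1, ha2⟩ := hlow t ht0
  have hx0' : ((x 0 : 𝓞 K) : K) ≠ 0 := RingOfIntegers.coe_ne_zero_iff.mpr hx0
  have hx : cz x ≠ 0 := fun h => hx0' (congrFun h 0)
  set y : Fin n → K := fun j => ((x j.succ : 𝓞 K) : K) / ((x 0 : 𝓞 K) : K) with hy
  have hG0 : 0 ≤ Gd (cz x) := Gd_nonneg x
  have hH : 0 ≤ Real.log (mulHeight (cz x)) := Real.log_nonneg (one_le_mulHeight _)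
  have hprox : p0 + c0 + 1 ≤ n * prox ξ y := by
    have h1 : 0 ≤ (n : ℝ) * (Real.log (mulHeight (cz x)) + Gd (cz x)) :=
      mul_nonneg (by linarith) (add_nonneg hH hG0)
    linarith
  -- off the arrangement
  have hoff : ∀ i, lin (cz (b i)) (cz x) ≠ 0 := by
    intro i h0
    have h1 : cz (b i) 0 + ∑ j, cz (b i) j.succ * y j = 0 := by
      have h2 : lin (cz (b i)) (cz x) = ((x 0 : 𝓞 K) : K) *
          (cz (b i) 0 + ∑ j, cz (b i) j.succ * y j) := by
        unfold lin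
        rw [Fin.sum_univ_succ, mul_add, Finset.mul_sum]
        congr 1
        · exact mul_comm _ _
        · refine Finset.sum_congr rfl fun j _ => ?_
          rw [hy]
          simp only
          have e1 : cz x j.succ = ((x j.succ : 𝓞 K) : K) := rfl
          rw [e1]
          field_simp
      rw [h2] at h0
      exact (mul_eq_zero.1 h0).resolve_left hx0'
    have h3 := hCh i y h1
    have h4 : (n : ℝ) * Ch i ≤ c0 := hc0 i
    have h5 : (n : ℝ) * prox ξ y ≤ n * Ch i := mul_le_mul_of_nonneg_left h3 (by linarith)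
    linarith
  -- the projective point
  set Q : ℙ K (Fin (n + 1) → K) := Projectivization.mk K (cz x) hx with hQ
  obtain ⟨u, hu⟩ := Projectivization.exists_smul_eq_mk_rep K (cz x) hx
  have hu0 : ((u : Kˣ) : K) ≠ 0 := u.ne_zero
  have hu' : Q.rep = ((u : Kˣ) : K) • cz x := hu.symm
  have hQH : Q.mulHeight = mulHeight (cz x) := by
    rw [hQ, Projectivization.mulHeight_mk]
  have haff : aff Q = y := by
    funext j
    unfold aff
    rw [hu', Pi.smul_apply, Pi.smul_apply, smul_eq_mul, smul_eq_mul]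
    show _ = ((x j.succ : 𝓞 K) : K) / ((x 0 : 𝓞 K) : K)
    have e1 : cz x j.succ = ((x j.succ : 𝓞 K) : K) := rfl
    have e2 : cz x 0 = ((x 0 : 𝓞 K) : K) := rfl
    rw [e1, e2]
    field_simp
  have hlin : ∀ i, lin (cz (b i)) Q.rep ≠ 0 := by
    intro i
    rw [hu', lin_smul_right]
    exact mul_ne_zero hu0 (hoff i)
  have hrep0 : Q.rep 0 ≠ 0 := by
    rw [hu', Pi.smul_apply, smul_eq_mul]
    exact mul_ne_zero hu0 hx0'
  obtain ⟨hN1, hW1⟩ := transfer S (a := fun i => cz (b i)) (b := fun i => cz (b i)) (s := 1)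
    one_ne_zero hu0 (fun i => (one_smul K _).symm) hu'
  have hN1i : ∀ i, N1 S (fun _ : Fin 1 => cz (b i)) Q.rep =
      N1 S (fun _ : Fin 1 => cz (b i)) (cz x) := fun i =>
    (transfer S (a := fun _ : Fin 1 => cz (b i)) (b := fun _ : Fin 1 => cz (b i)) (s := 1)
      one_ne_zero hu0 (fun i => (one_smul K _).symm) hu').1
  obtain ⟨hl1, hl2, hl3⟩ := hloc x k hx hoff hk
  set h : ℝ := Real.log (mulHeight (cz x)) with hh
  set G : ℝ := Gd (cz x) with hG
  set D : ℝ := d * t with hD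
  have hD0 : 0 ≤ D := mul_nonneg hdr.le ht0
  have hrC : ∀ V : Finset (Fin r), ∑ l ∈ V, δ l * D - r * Cb ≤
      ∑ l ∈ V, (k l : ℝ) * Real.log (Nv (P l)) := by
    intro V
    have e1 := Finset.sum_le_sum fun l (_ : l ∈ V) => hk2 l
    rw [Finset.sum_sub_distrib, Finset.sum_const, nsmul_eq_mul] at e1
    have e2 : (V.card : ℝ) ≤ r := by
      have := Finset.card_le_univ V
      rw [Fintype.card_fin] at this
      exact_mod_cast this
    have e3 := mul_le_mul_of_nonneg_right e2 hCb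
    linarith
  have hsumD : ∑ l, δ l * D = Δ * D := by rw [hΔdef, Finset.sum_mul]
  -- height is large
  have hHlarge : H0 < h := by
    by_contra hcon
    push Not at hcon
    have h1 : (n : ℝ) * prox ξ (aff Q) ≤ p0 := hp0 Q hlin (by rw [hQH]; exact hcon)
    rw [haff] at h1
    linarith
  have hHγ : 2 * C ≤ γ * h := by
    have h1 : 2 * C / γ ≤ h := ((le_max_left _ _).trans (le_max_left _ _)).trans hHlarge.le
    rw [div_le_iff₀ hγ0] at h1
    linarith
  have hHB : B ≤ h := ((le_max_right _ _).trans (le_max_left _ _)).trans hHlarge.le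
  have hHε : 2 * (2 * C1 + 7 * C) ≤ ε * h := by
    have h1 : 2 * (2 * C1 + 7 * C) / ε ≤ h := (le_max_right _ _).trans hHlarge.le
    rw [div_le_iff₀ hε] at h1
    linarith
  -- the law applies
  have ha1' : h + G ≤ D + C := by linarith
  have ha2' : (n : ℝ) * (h + G) + (1 - Δ) * D - C ≤ n * prox ξ y := by linarith
  have happ : ((n : ℝ) + 1 / 2 + ε1) * h ≤ n * prox ξ y := by
    have h1 : h - C ≤ D := by linarith
    have h2 : (1 - Δ) * (h - C) ≤ (1 - Δ) * D := mul_le_mul_of_nonneg_left h1 h1Δ.le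
    have h3 : ε1 * h ≤ γ * h := mul_le_mul_of_nonneg_right (min_le_right _ _) hH
    have h4 : 0 ≤ Δ * C := mul_nonneg hΔ0 hC0
    have h5 : 0 ≤ (n : ℝ) * G := mul_nonneg (by linarith) hG0
    have h6 : γ * h + γ * h = (1 / 2 - Δ) * h := by rw [hγ]; ring
    nlinarith
  have hf := hC1' Q hlin (by rw [hQH, haff]; exact happ)
  rw [hQH, haff, hN1, hW1] at hf
  have hf' : n * prox ξ y + (hW (fun i => cz (b i)) (cz x) - N1 S (fun i => cz (b i)) (cz x)) ≤
      ((n : ℝ) + 1 + ε1) * h + C1 := hf.trans (by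
    have := le_max_left C1' 0
    linarith)
  have hc : Δ * D - G - C ≤ hW (fun i => cz (b i)) (cz x) - N1 S (fun i => cz (b i)) (cz x) := by
    have e1 := hrC univ
    rw [hsumD] at e1
    rw [hC]
    linarith
  obtain ⟨r1, r2, r3⟩ := num (n := (n : ℝ)) hnr hH hG0 hC0 hC10 hε10.le hΔ0 (by linarith)
    ha1' ha2' hc hf'
  have hfinal : 2 * ε1 * h + (2 * C1 + 7 * C) ≤ ε * h := by
    have h1 : ε1 * h ≤ ε / 4 * h := mul_le_mul_of_nonneg_right (min_le_left _ _) hH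
    nlinarith
  refine ⟨Q, hlin, hrep0, by rw [hQH]; exact hHB, ?_, ?_, fun i => ?_⟩
  · rw [hQH, haff]
    exact r1.trans hfinal
  · rw [hQH, hN1, hW1]
    exact r2.trans hfinal
  · rw [hQH, hN1i i]
    refine (r3 (δ i) _ (hδ i) (hδΔ i) ?_ ?_).trans hfinal
    · have e1 := hl2 i
      have e2 := hk2 i
      have e3 : (0 : ℝ) ≤ r * Cb := mul_nonneg (Nat.cast_nonneg _) hCb
      rw [hC]
      linarith
    · have e1 := hl3 i
      have e2 := hrC (univ.erase i)
      have e3 : ∑ l ∈ univ.erase i, δ l * D = Δ * D - δ i * D := by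
        rw [← hsumD, ← Finset.add_sum_erase univ (fun l => δ l * D) (Finset.mem_univ i)]
        ring
      rw [hC]
      linarith

end Q273.MV
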