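import Pool.Agent.Q273.MV.Stm

/-!
# Hyperplanes over `K` do not meet almost every point of `(K ⊗ ℝ)^n`
-/

set_option autoImplicit false

namespace Q273.MV

open MeasureTheory NumberField NumberField.mixedEmbedding NumberField.InfinitePlace

lemma measure_level {E : Type*} [NormedAddCommGroup E] [NormedSpace ℝ E] [FiniteDimensional ℝ E]
    [MeasurableSpace E] [BorelSpace E] (μ : Measure E) [μ.IsAddHaarMeasure] (g : E →ₗ[ℝ] ℝ)
    (hg : g ≠ 0) (c : ℝ) : μ {ξ | g ξ = c} = 0 := by
  by_cases h : ∃ ξ0, g ξ0 = c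
  · obtain ⟨ξ0, h0⟩ := h
    have h1 : {ξ | g ξ = c} = (fun ξ => ξ + (-ξ0)) ⁻¹' ((LinearMap.ker g : Submodule ℝ E) : Set E) := by
      ext ξ
      simp only [Set.mem_ofPred_eq, Set.mem_preimage, SetLike.mem_coe, LinearMap.mem_ker, map_add,
        map_neg]
      constructor
      · intro h
        rw [h, h0, add_neg_cancel]
      · intro h
        linarith
    rw [h1, measure_preimage_add_right]
    refine Measure.addHaar_submodule μ _ ?_
    intro htop
    exact hg (LinearMap.ker_eq_top.1 htop)
  · have h1 : {ξ | g ξ = c} = ∅ := by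
      ext ξ
      simp only [Set.mem_ofPred_eq, Set.mem_empty_iff_false, iff_false]
      exact fun hξ => h ⟨ξ, hξ⟩
    rw [h1, measure_empty]

variable {K : Type} [Field K] [NumberField K] {n : ℕ}

open scoped Classical in
/-- a real coordinate at the place `w` -/
noncomputable def ev (w : InfinitePlace K) : mixedSpace K →ₗ[ℝ] ℝ :=
  if hw : IsReal w then (LinearMap.proj ⟨w, hw⟩) ∘ₗ LinearMap.fst ℝ _ _
  else Complex.reLm ∘ₗ (LinearMap.proj ⟨w, not_isReal_iff_isComplex.1 hw⟩) ∘ₗ LinearMap.snd ℝ _ _

omit [NumberField K] in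
lemma ev_one (w : InfinitePlace K) : ev w (1 : mixedSpace K) = 1 := by
  unfold ev
  split_ifs with hw
  · rfl
  · rfl

omit [NumberField K] in
lemma ev_zero_of (w : InfinitePlace K) {x : mixedSpace K} (h : normAtPlace w x = 0) :
    ev w x = 0 := by
  unfold ev
  split_ifs with hw
  · rw [normAtPlace_apply_of_isReal hw, norm_eq_zero] at h
    exact h
  · rw [normAtPlace_apply_of_isComplex (not_isReal_iff_isComplex.1 hw), norm_eq_zero] at h
    show (x.2 ⟨w, not_isReal_iff_isComplex.1 hw⟩).re = 0
    rw [h]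
    rfl

/-- the value of a linear form at `(1, ξ)` -/
noncomputable def linX (a : Fin (n + 1) → K) (ξ : Fin n → mixedSpace K) : mixedSpace K :=
  mixedEmbedding K (a 0) + ∑ j, mixedEmbedding K (a j.succ) * ξ j

open scoped Classical in
theorem null (a : Fin (n + 1) → K) (ha : a ≠ 0) :
    ∀ᵐ ξ : Fin n → mixedSpace K, ∀ w : InfinitePlace K, normAtPlace w (linX a ξ) ≠ 0 := by
  rw [ae_all_iff]
  intro w
  by_cases h : ∃ j : Fin n, a j.succ ≠ 0
  · obtain ⟨j, hj⟩ := h
    let g : (Fin n → mixedSpace K) →ₗ[ℝ] ℝ :=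
      (ev w) ∘ₗ (∑ j, (LinearMap.mulLeft ℝ (mixedEmbedding K (a j.succ))) ∘ₗ
        (LinearMap.proj j : (Fin n → mixedSpace K) →ₗ[ℝ] mixedSpace K))
    have hg : ∀ ξ, g ξ = ev w (∑ j, mixedEmbedding K (a j.succ) * ξ j) := by
      intro ξ
      show ev w ((∑ j, (LinearMap.mulLeft ℝ (mixedEmbedding K (a j.succ))) ∘ₗ
        (LinearMap.proj j : (Fin n → mixedSpace K) →ₗ[ℝ] mixedSpace K)) ξ) = _
      rw [LinearMap.sum_apply]
      rfl
    have hg0 : g ≠ 0 := by
      intro h0
      have h1 := hg (Pi.single j (mixedEmbedding K (a j.succ)⁻¹))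
      rw [h0, LinearMap.zero_apply, Finset.sum_eq_single j, Pi.single_eq_same, ← map_mul,
        mul_inv_cancel₀ hj, map_one, ev_one] at h1
      · exact zero_ne_one h1
      · intro i _ hij
        rw [Pi.single_eq_of_ne hij, mul_zero]
      · intro h
        exact absurd (Finset.mem_univ j) h
    have h2 : SecondCountableTopology (mixedSpace K) := inferInstance
    have h3 : BorelSpace (mixedSpace K) := inferInstance
    have h4 : (volume : Measure (mixedSpace K)).IsAddHaarMeasure := inferInstance
    have h5 : BorelSpace (Fin n → mixedSpace K) := inferInstance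
    have h6 : (volume : Measure (Fin n → mixedSpace K)).IsAddHaarMeasure :=
      Measure.pi.isAddHaarMeasure _
    have hz := measure_level (volume : Measure (Fin n → mixedSpace K)) g hg0
      (-(ev w (mixedEmbedding K (a 0))))
    rw [ae_iff]
    refine measure_mono_null ?_ hz
    intro ξ hξ
    simp only [ne_eq, not_not, Set.mem_ofPred_eq] at hξ ⊢
    have h1 := ev_zero_of w hξ
    unfold linX at h1
    rw [map_add] at h1
    rw [hg]
    linarith
  · refine Filter.Eventually.of_forall fun ξ => ?_
    push Not at h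
    have h0 : a 0 ≠ 0 := by
      intro h0
      apply ha
      ext j
      refine Fin.cases h0 (fun i => h i) j
    unfold linX
    rw [Finset.sum_eq_zero fun j _ => by rw [h j, map_zero, zero_mul], add_zero, normAtPlace_apply]
    exact ((InfinitePlace.pos_iff).2 h0).ne'

end Q273.MV
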