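import Pool.Agent.Q273.MV.Loc3
import Pool.Agent.Q273.MV.Null
import Pool.Agent.Q6.MV.Pig

/-!
# Integral vectors near a generic point with prescribed divisibilities
-/

set_option autoImplicit false
set_option linter.unusedSectionVars false

namespace Q273.MV

open NumberField NumberField.mixedEmbedding NumberField.InfinitePlace
open IsDedekindDomain Finset Pool.Agent.W232.VA Pool.Agent.H691R3 Height

variable {K : Type} [Field K] [NumberField K] {n r : ℕ}

/-- a point of `(K ⊗ ℝ)^n` which is on no hyperplane over `K` at any place -/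
def Gen (ξ : Fin n → mixedSpace K) : Prop :=
  ∀ a : Fin (n + 1) → K, a ≠ 0 → ∀ w : InfinitePlace K, normAtPlace w (linX a ξ) ≠ 0

lemma Gen.ne (hn : 1 ≤ n) {ξ : Fin n → mixedSpace K} (h : Gen ξ) (w : InfinitePlace K) (y : K) :
    normAtPlace w (ξ ⟨0, hn⟩ - mixedEmbedding K y) ≠ 0 := by
  have h1 := h (Fin.cons (-y) (Pi.single ⟨0, hn⟩ 1)) (by
    intro h0
    have h2 := congrFun h0 (Fin.succ ⟨0, hn⟩)
    rw [Fin.cons_succ, Pi.single_eq_same] at h2
    exact one_ne_zero h2) w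
  have h2 : linX (Fin.cons (-y) (Pi.single ⟨0, hn⟩ 1)) ξ = ξ ⟨0, hn⟩ - mixedEmbedding K y := by
    unfold linX
    rw [Fin.cons_zero, Finset.sum_eq_single ⟨0, hn⟩]
    · rw [Fin.cons_succ, Pi.single_eq_same, map_one, one_mul, map_neg]
      ring
    · intro j _ hj
      rw [Fin.cons_succ, Pi.single_eq_of_ne hj, map_zero, zero_mul]
    · intro h
      exact absurd (Finset.mem_univ _) h
  rwa [h2] at h1

/-- points on a hyperplane over `K` stay away from a generic point -/
lemma hyper (hn : 1 ≤ n) {ξ : Fin n → mixedSpace K} (hξ : Gen ξ) (b : Fin (n + 1) → K)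
    (hb : b ≠ 0) : ∃ C : ℝ, ∀ y : Fin n → K, b 0 + ∑ j, b j.succ * y j = 0 → prox ξ y ≤ C := by
  classical
  have : Nonempty (Fin n) := ⟨⟨0, hn⟩⟩
  set c : InfinitePlace K → ℝ := fun w => normAtPlace w (linX b ξ) with hc
  have hc0 : ∀ w, 0 < c w := fun w => lt_of_le_of_ne (normAtPlace_nonneg _ _) (hξ b hb w).symm
  set B : InfinitePlace K → ℝ := fun w => ∑ j : Fin n, w (b j.succ) + 1 with hB
  have hB0 : ∀ w, 0 < B w := fun w => by
    have : 0 ≤ ∑ j : Fin n, w (b j.succ) := Finset.sum_nonneg fun j _ => apply_nonneg _ _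
    rw [hB]
    simp only
    linarith
  refine ⟨∑ w : InfinitePlace K, (w.mult : ℝ) * Real.log (max 1 (B w / c w)), fun y hy => ?_⟩
  unfold prox
  refine Finset.sum_le_sum fun w _ => mul_le_mul_of_nonneg_left ?_ (Nat.cast_nonneg _)
  set t : ℝ := ⨆ j, normAtPlace w (ξ j - mixedEmbedding K (y j)) with ht
  have htj : ∀ j, normAtPlace w (ξ j - mixedEmbedding K (y j)) ≤ t := fun j =>
    Finite.le_ciSup_of_le (f := fun j => normAtPlace w (ξ j - mixedEmbedding K (y j))) j le_rfl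
  have h1 : linX b ξ = ∑ j, mixedEmbedding K (b j.succ) * (ξ j - mixedEmbedding K (y j)) := by
    have h2 : mixedEmbedding K (b 0 + ∑ j, b j.succ * y j) = 0 := by rw [hy, map_zero]
    rw [map_add, map_sum] at h2
    simp only [map_mul] at h2
    unfold linX
    simp only [mul_sub]
    rw [Finset.sum_sub_distrib]
    linear_combination h2
  have h2 : c w ≤ ∑ j, normAtPlace w (mixedEmbedding K (b j.succ) *
      (ξ j - mixedEmbedding K (y j))) := by
    rw [hc]
    simp only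
    rw [h1]
    exact Finset.le_sum_of_subadditive (fun x => normAtPlace w x) (map_zero _).le
      (normAtPlace_add_le w) _ _
  have ht0' : 0 ≤ t := (normAtPlace_nonneg _ _).trans (htj ⟨0, hn⟩)
  have h3 : c w ≤ B w * t := by
    refine h2.trans ?_
    have h4 : ∑ j, normAtPlace w (mixedEmbedding K (b j.succ) * (ξ j - mixedEmbedding K (y j))) ≤
        ∑ j : Fin n, w (b j.succ) * t := by
      refine Finset.sum_le_sum fun j _ => ?_
      rw [map_mul, normAtPlace_apply]
      exact mul_le_mul_of_nonneg_left (htj j) (apply_nonneg _ _)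
    rw [← Finset.sum_mul] at h4
    refine h4.trans (mul_le_mul_of_nonneg_right ?_ ht0')
    rw [hB]
    simp only
    linarith
  have ht0 : 0 < t := by
    rcases ht0'.lt_or_eq with h | h
    · exact h
    · rw [← h, mul_zero] at h3
      exact absurd (hc0 w) (not_lt.2 h3)
  have h4 : t⁻¹ ≤ B w / c w := by
    rw [← one_div, div_le_div_iff₀ ht0 (hc0 w), one_mul]
    exact h3
  exact Real.log_le_log (lt_of_lt_of_le one_pos (le_max_left _ _)) (max_le_max_left _ h4)

/-- the map to the product of the residue rings -/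
noncomputable def phi (b : Fin r → Fin (n + 1) → 𝓞 K) (I : Fin r → Ideal (𝓞 K)) :
    (Fin (n + 1) → 𝓞 K) →+ (∀ i, 𝓞 K ⧸ I i) where
  toFun x := fun i => Ideal.Quotient.mk (I i) (linZ (b i) x)
  map_zero' := by
    funext i
    unfold linZ
    simp
  map_add' x y := by
    funext i
    simp only [Pi.add_apply]
    rw [← map_add]
    congr 1
    unfold linZ
    rw [← Finset.sum_add_distrib]
    exact Finset.sum_congr rfl fun j _ => by rw [Pi.add_apply, mul_add]

lemma card_quot (v : HeightOneSpectrum (𝓞 K)) (k : ℕ) :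
    (Nat.card (𝓞 K ⧸ v.asIdeal ^ k) : ℝ) = Real.exp (k * Real.log (Nv v)) := by
  have h1 : Nat.card (𝓞 K ⧸ v.asIdeal ^ k) = Ideal.absNorm (v.asIdeal ^ k) := by
    rw [Ideal.absNorm_apply, Submodule.cardQuot_apply]
  rw [h1, map_pow]
  push_cast
  have hN : 0 < Nv v := by linarith [two_le_Nv v]
  rw [Real.exp_nat_mul, Real.exp_log hN]
  rfl

/-- the vectors -/
theorem low0 (hn : 1 ≤ n) {ξ : Fin n → mixedSpace K} (hξ : Gen ξ)
    (b : Fin r → Fin (n + 1) → 𝓞 K) (P : Fin r → HeightOneSpectrum (𝓞 K))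
    (δ : Fin r → ℝ) (hδ : ∀ i, 0 ≤ δ i) (hΔ : ∑ i, δ i ≤ 1) :
    ∃ C : ℝ, 0 ≤ C ∧ ∀ t : ℝ, 0 ≤ t → ∃ (x : Fin (n + 1) → 𝓞 K) (k : Fin r → ℕ), x 0 ≠ 0 ∧
      (∀ i, linZ (b i) x ∈ (P i).asIdeal ^ (k i)) ∧
      (∀ i, δ i * ((Module.finrank ℚ K : ℝ) * t) - C ≤ (k i : ℝ) * Real.log (Nv (P i))) ∧
      Real.log (mulHeight (cz x)) + Gd (cz x) ≤ (Module.finrank ℚ K : ℝ) * t + C ∧
      (n : ℝ) * (Real.log (mulHeight (cz x)) + Gd (cz x)) +
        (1 - ∑ i, δ i) * ((Module.finrank ℚ K : ℝ) * t) - C ≤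
        n * prox ξ (fun j => ((x j.succ : 𝓞 K) : K) / ((x 0 : 𝓞 K) : K)) := by
  classical
  obtain ⟨C1, hC1, hpig⟩ := Pool.Agent.Q6.MV.pig K n ξ
  obtain ⟨C2, hC2, harch⟩ := arch hn ξ (hξ.ne hn)
  set d : ℕ := Module.finrank ℚ K with hd
  have hdpos : 0 < d := Module.finrank_pos
  have hdr : (0 : ℝ) < (d : ℝ) := by exact_mod_cast hdpos
  have hnr : (0 : ℝ) < (n : ℝ) := by exact_mod_cast hn
  have hlogC1 : 0 ≤ Real.log C1 := Real.log_nonneg hC1
  have hlog2 : 0 < Real.log 2 := Real.log_pos one_lt_two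
  have hNsum : 0 ≤ ∑ i, Real.log (Nv (P i)) := Finset.sum_nonneg fun i _ => (log_Nv_pos _).le
  set Δ : ℝ := ∑ i, δ i with hΔdef
  refine ⟨∑ i, Real.log (Nv (P i)) + (d * Real.log C1 + C2) +
    n * (d * Real.log 2 + d * Real.log C1 + C2), by positivity, fun t ht => ?_⟩
  set N : ℕ := ⌊Real.exp t⌋₊ with hN
  set k : Fin r → ℕ := fun i => ⌊δ i * (d * t) / Real.log (Nv (P i))⌋₊ with hk
  set E : ℝ := Real.exp ((1 - Δ) * t / n) with hE
  have hE1 : 1 ≤ E := by
    rw [hE]
    refine Real.one_le_exp ?_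
    have : 0 ≤ 1 - Δ := by linarith
    positivity
  set M : ℕ := ⌊E⌋₊ with hM
  have hM1 : 1 ≤ M := by
    rw [hM]
    exact Nat.le_floor (by exact_mod_cast hE1)
  have hMr : (1 : ℝ) ≤ M := by exact_mod_cast hM1
  have hN1 : 1 ≤ N := by
    rw [hN]
    exact Nat.le_floor (by
      push_cast
      exact Real.one_le_exp ht)
  have hNr : (1 : ℝ) ≤ N := by exact_mod_cast hN1
  have hk1 : ∀ i, (k i : ℝ) * Real.log (Nv (P i)) ≤ δ i * (d * t) := by
    intro i
    have h1 : (k i : ℝ) ≤ δ i * (d * t) / Real.log (Nv (P i)) :=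
      Nat.floor_le (div_nonneg (mul_nonneg (hδ i) (by positivity)) (log_Nv_pos _).le)
    rwa [le_div_iff₀ (log_Nv_pos _)] at h1
  have hk2 : ∀ i, δ i * (d * t) - Real.log (Nv (P i)) ≤ (k i : ℝ) * Real.log (Nv (P i)) := by
    intro i
    have h1 : δ i * (d * t) / Real.log (Nv (P i)) < (k i : ℝ) + 1 := Nat.lt_floor_add_one _
    rw [div_lt_iff₀ (log_Nv_pos _)] at h1
    linarith
  have hfin : ∀ i, Finite (𝓞 K ⧸ (P i).asIdeal ^ (k i)) := fun i =>
    Ideal.finiteQuotientOfFreeOfNeBot _ (pow_ne_zero _ (P i).ne_bot)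
  have hcard : (Nat.card (∀ i, 𝓞 K ⧸ (P i).asIdeal ^ (k i)) : ℝ) ≤ Real.exp (Δ * (d * t)) := by
    rw [Nat.card_pi]
    push_cast
    rw [Finset.prod_congr rfl fun i _ => card_quot (P i) (k i), ← Real.exp_sum]
    refine Real.exp_le_exp.2 ?_
    rw [hΔdef, Finset.sum_mul]
    exact Finset.sum_le_sum fun i _ => hk1 i
  have hMpow : ((M : ℝ)) ^ (d * n) ≤ Real.exp ((1 - Δ) * (d * t)) := by
    have h1 : (M : ℝ) ≤ E := Nat.floor_le (by positivity)
    calc ((M : ℝ)) ^ (d * n) ≤ E ^ (d * n) := pow_le_pow_left₀ (by positivity) h1 _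
      _ = Real.exp ((1 - Δ) * (d * t)) := by
          rw [hE, ← Real.exp_nat_mul]
          congr 1
          push_cast
          field_simp
  have hcount : M ^ (d * n) * Nat.card (∀ i, 𝓞 K ⧸ (P i).asIdeal ^ (k i)) < (N + 1) ^ d := by
    have h1 : ((M : ℝ)) ^ (d * n) * (Nat.card (∀ i, 𝓞 K ⧸ (P i).asIdeal ^ (k i)) : ℝ) <
        ((N : ℝ) + 1) ^ d := by
      calc ((M : ℝ)) ^ (d * n) * (Nat.card (∀ i, 𝓞 K ⧸ (P i).asIdeal ^ (k i)) : ℝ)
          ≤ Real.exp ((1 - Δ) * (d * t)) * Real.exp (Δ * (d * t)) := by gcongr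
        _ = Real.exp t ^ d := by
            rw [← Real.exp_add, ← Real.exp_nat_mul]
            congr 1
            ring
        _ < ((N : ℝ) + 1) ^ d := by
            refine pow_lt_pow_left₀ (Nat.lt_floor_add_one _) (by positivity) hdpos.ne'
    exact_mod_cast h1
  obtain ⟨x, hx0, hφ, hxX, hxY⟩ := hpig (∀ i, 𝓞 K ⧸ (P i).asIdeal ^ (k i))
    (phi b fun i => (P i).asIdeal ^ (k i)) N M hM1 hcount
  have hYX : C1 / M ≤ C1 * N := by
    have h1 : C1 / M ≤ C1 := div_le_self (by linarith) hMr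
    have h2 : C1 * 1 ≤ C1 * N := mul_le_mul_of_nonneg_left hNr (by linarith)
    linarith
  obtain ⟨h1, h2⟩ := harch x hx0 (C1 * N) (C1 / M) (by positivity) hYX hxX hxY
  have hlogX : Real.log (C1 * N) ≤ Real.log C1 + t := by
    rw [Real.log_mul (by linarith) (by linarith)]
    have h3 : Real.log N ≤ t := by
      rw [Real.log_le_iff_le_exp (by linarith)]
      exact Nat.floor_le (by positivity)
    linarith
  have hlogM : (1 - Δ) * t / n - Real.log 2 ≤ Real.log M := by
    have h3 : E / 2 ≤ M := by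
      have := Nat.lt_floor_add_one E
      rw [← hM] at this
      linarith
    have h4 := Real.log_le_log (by positivity) h3
    rw [Real.log_div (by positivity) two_ne_zero, hE, Real.log_exp] at h4
    exact h4
  have hlogY : Real.log (C1 / M) ≤ Real.log C1 + Real.log 2 - (1 - Δ) * t / n := by
    rw [Real.log_div (by linarith) (by linarith)]
    linarith
  refine ⟨x, k, hx0, fun i => ?_, fun i => ?_, ?_, ?_⟩
  · have h3 := congrFun hφ i
    exact Ideal.Quotient.eq_zero_iff_mem.1 h3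
  · have h3 : Real.log (Nv (P i)) ≤ ∑ i, Real.log (Nv (P i)) :=
      Finset.single_le_sum (f := fun i => Real.log (Nv (P i))) (fun i _ => (log_Nv_pos _).le)
        (Finset.mem_univ i)
    have h4 := hk2 i
    have h5 : 0 ≤ (d * Real.log C1 + C2) + n * (d * Real.log 2 + d * Real.log C1 + C2) := by
      positivity
    linarith
  · have h3 : (d : ℝ) * Real.log (C1 * N) ≤ d * (Real.log C1 + t) :=
      mul_le_mul_of_nonneg_left hlogX hdr.le
    have h5 : 0 ≤ n * (d * Real.log 2 + d * Real.log C1 + C2) := by positivity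
    linarith
  · have h3 : (d : ℝ) * Real.log (C1 / M) ≤ d * (Real.log C1 + Real.log 2 - (1 - Δ) * t / n) :=
      mul_le_mul_of_nonneg_left hlogY hdr.le
    have h4 := mul_le_mul_of_nonneg_left h2 hnr.le
    have h5 : (n : ℝ) * ((d : ℝ) * ((1 - Δ) * t / n)) = (1 - Δ) * (d * t) := by
      field_simp
    have h6 := mul_le_mul_of_nonneg_left h3 hnr.le
    have h7 : 0 ≤ d * Real.log C1 + C2 := by positivity
    nlinarith

end Q273.MV
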