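import Pool.Agent.Q273.MV.P2
import Pool.Agent.Results.MP_4d5ce1_nt.ExceptionalSetRoots

/-!
# The projective line: the inequality without epsilon at almost every target
-/

set_option autoImplicit false
set_option linter.unusedSectionVars false

namespace Q273.MV

open MeasureTheory NumberField IsDedekindDomain Finset Pool.Agent.H691R3 Height
open Pool.Agent.W232.VA NumberField.mixedEmbedding NumberField.InfinitePlace
open Pool.Agent.Results.MP_4d5ce1_nt.ExceptionalSetExponents (height counting)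
open Pool.Agent.Results.MP_4d5ce1_nt

variable {K : Type} [Field K] [NumberField K] {q : ℕ}

/-- the exponent of the exceptions to the inequality -/
noncomputable def expo (q : ℕ) : ℝ :=
  if q = 3 then 80 / 133 else if q = 4 then 18 / 23 else if q = 5 ∨ q = 6 then 1 else 8 / 7

lemma expo_nonneg (q : ℕ) : 0 ≤ expo q := by
  unfold expo
  split_ifs <;> norm_num

theorem expo_eq {q : ℕ} (hq : 3 ≤ q) : ExceptionalSetRoots.exponent q 2 = expo q := by
  unfold ExceptionalSetRoots.exponent expo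
  rw [if_neg (lt_irrefl _)]
  have hm : max ((2 : ℝ) - 2) (8 / 7) = 8 / 7 := by norm_num
  rw [hm]
  by_cases h3 : q = 3
  · subst h3
    norm_num
  rw [if_neg h3, if_neg h3]
  by_cases h4 : q = 4
  · subst h4
    norm_num
  rw [if_neg h4, if_neg h4]
  by_cases h5 : q = 5
  · subst h5
    norm_num
  by_cases h6 : q = 6
  · subst h6
    norm_num
  have hor : ¬ (q = 5 ∨ q = 6) := by
    rintro (h | h)
    · exact h5 h
    · exact h6 h
  rw [if_neg hor, if_neg hor]
  have h7 : (7 : ℝ) ≤ q := by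
    have : 7 ≤ q := by omega
    exact_mod_cast this
  have h8 : (8 / 7 : ℝ) ≤ 2 - 2 * 2 / q := by
    have h9 : (2 * 2 : ℝ) / q ≤ 4 / 7 := by
      rw [div_le_div_iff₀ (by linarith) (by norm_num)]
      linarith
    linarith
  rw [min_eq_right h8, min_eq_left (by norm_num)]

/-- the violations of the inequality -/
def VS (T : Set (HeightOneSpectrum (𝓞 K))) (α : Fin q → K × K) (c : ℝ) : Set K :=
  {x | (∀ l, x * (α l).2 - 1 * (α l).1 ≠ 0) ∧ counting T α x < ((q : ℝ) - 2) * height x + c}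

lemma VS_count {T : Set (HeightOneSpectrum (𝓞 K))} (hT : T.Finite) (hq : 3 ≤ q)
    {α : Fin q → K × K} (hα : Pts α) (c δ : ℝ) (hδ : 0 < δ) :
    ∃ C : ℝ, ∀ X : ℝ, 1 ≤ X → {x | x ∈ VS T α c ∧ mulHeight (vec x) ≤ X}.Finite ∧
      ({x | x ∈ VS T α c ∧ mulHeight (vec x) ≤ X}.ncard : ℝ) ≤ C * X ^ (expo q + δ) := by
  have hd := finrank_posR K
  have hq3 : (3 : ℝ) ≤ q := by exact_mod_cast hq
  obtain ⟨C, hC⟩ := ExceptionalSetRoots.result K T hT q (by omega) α hα.1 hα.2 2 c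
    ((Module.finrank ℚ K : ℝ) * δ) (by norm_num) (by linarith) (by positivity)
  rw [expo_eq hq] at hC
  refine ⟨C, fun X hX => ?_⟩
  have hX1 : 1 ≤ X ^ (1 / (Module.finrank ℚ K : ℝ)) := Real.one_le_rpow hX (by positivity)
  obtain ⟨h1, h2⟩ := hC _ hX1
  have hset : {x | x ∈ VS T α c ∧ mulHeight (vec x) ≤ X} =
      {x : K | (∀ l, x * (α l).2 - 1 * (α l).1 ≠ 0) ∧
        Real.exp (ExceptionalSetRoots.height x) ≤ X ^ (1 / (Module.finrank ℚ K : ℝ)) ∧
        ExceptionalSetRoots.counting T α x <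
          ((q : ℝ) - 2) * ExceptionalSetRoots.height x + c} := by
    ext x
    have hX0 : 0 < X := by linarith
    have key : mulHeight (vec x) ≤ X ↔
        Real.exp (ExceptionalSetRoots.height x) ≤ X ^ (1 / (Module.finrank ℚ K : ℝ)) := by
      have e : ExceptionalSetRoots.height x = height x := rfl
      rw [Real.rpow_def_of_pos hX0, Real.exp_le_exp, e, mul_one_div, le_div_iff₀ hd,
        ← Real.log_le_log_iff (lt_of_lt_of_le one_pos (one_le_mulHeight _)) hX0]
      have e2 : Real.log (mulHeight (vec x)) = (Module.finrank ℚ K : ℝ) * height x :=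
        log_height_vec x
      rw [e2, mul_comm]
    constructor
    · rintro ⟨⟨h3, h4⟩, h5⟩
      exact ⟨h3, key.1 h5, h4⟩
    · rintro ⟨h3, h5, h4⟩
      exact ⟨⟨h3, h4⟩, key.2 h5⟩
  rw [hset]
  refine ⟨h1, h2.trans (le_of_eq ?_)⟩
  congr 1
  rw [← Real.rpow_mul (by linarith)]
  congr 1
  field_simp

open scoped Classical in
theorem lawE : ∀ᵐ ξ : Fin 1 → mixedSpace K, ∀ (q : ℕ), 3 ≤ q → ∀ α : Fin q → K × K, Pts α →
    ∀ T : Set (HeightOneSpectrum (𝓞 K)), T.Finite → ∀ (c ε : ℝ), 0 < ε →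
      {x : K | (∀ l, x * (α l).2 - 1 * (α l).1 ≠ 0) ∧ (expo q + ε) * hh x ≤ prox ξ (fun _ => x) ∧
        counting T α x < ((q : ℝ) - 2) * height x + c}.Finite := by
  have : Countable K := Q273.Apx.countable_numberField K
  have : Countable {T : Set (HeightOneSpectrum (𝓞 K)) // T.Finite} :=
    Q273.Apx.countable_finite_sets K
  let ι : Type := (Σ q : ℕ, {α : Fin q → K × K // 3 ≤ q ∧ Pts α}) ×
    {T : Set (HeightOneSpectrum (𝓞 K)) // T.Finite} × ℕ
  have key : ∀ i : ι, ∀ᵐ ξ : Fin 1 → mixedSpace K, ∀ ε : ℝ, 0 < ε → ∃ C : ℝ,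
      ∀ x ∈ VS i.2.1.1 i.1.2.1 (i.2.2 : ℝ),
        ((1 : ℕ) : ℝ) * prox ξ (fun _ => x) ≤
          (expo i.1.1 + ε) * Real.log (mulHeight (vec x)) + C := by
    rintro ⟨⟨q, α, hq, hα⟩, ⟨T, hT⟩, c⟩
    exact up1 (n := 1) le_rfl (fun (x : K) (_ : Fin 1) => x)
      (fun x => mulHeight (vec x)) (VS T α (c : ℝ))
      (fun x _ => one_le_mulHeight _) (s := expo q) (expo_nonneg q)
      (fun δ hδ => VS_count hT hq hα c δ hδ)
  filter_upwards [ae_all_iff.2 key] with ξ hξ
  intro q hq α hα T hT c ε hε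
  obtain ⟨N, hN⟩ := exists_nat_ge c
  obtain ⟨C, hC⟩ := hξ ⟨⟨q, α, hq, hα⟩, ⟨T, hT⟩, N⟩ (ε / 2) (by positivity)
  refine (finP hT (by omega) hα (2 * C / ε)).subset ?_
  rintro x ⟨h1, h2, h3⟩
  refine ⟨h1, ?_⟩
  have h4 := hC x ⟨h1, by
    show counting T α x < ((q : ℝ) - 2) * height x + (N : ℝ)
    linarith⟩
  rw [Nat.cast_one, one_mul] at h4
  have e : Real.log (mulHeight (vec x)) = hh x := rfl
  rw [e] at h4
  have h5 : (expo q + ε) * hh x ≤ (expo q + ε / 2) * hh x + C := h2.trans h4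
  rw [le_div_iff₀ hε]
  linarith

end Q273.MV
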