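import Pool.Agent.W232.VA.LB
import Pool.Agent.Q273.MV.Stm

/-!
# Heights, local heights and losses of integral vectors with prescribed divisibilities
-/

set_option autoImplicit false
set_option linter.unusedSectionVars false

namespace Q273.MV

open NumberField IsDedekindDomain Finset Pool.Agent.H691R3 Height Pool.Agent.W232.VA

variable {K : Type} [Field K] [NumberField K] {n r : ℕ}

/-- `log` of the `v`-adic size of a vector -/
noncomputable def lg (v : HeightOneSpectrum (𝓞 K)) (x : Fin (n + 1) → K) : ℝ :=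
  Real.log (⨆ j, fv v (x j))

lemma sup_support {z : Fin (n + 1) → K} (hz : z ≠ 0) :
    {v : HeightOneSpectrum (𝓞 K) | (⨆ j, fv v (z j)) ≠ 1}.Finite := by
  have h1 : (⋃ j ∈ {j : Fin (n + 1) | z j ≠ 0},
      {v : HeightOneSpectrum (𝓞 K) | fv v (z j) ≠ 1}).Finite :=
    Set.Finite.biUnion (Set.toFinite _) fun j hj => fv_support_finite hj
  refine h1.subset ?_
  intro v hv
  by_contra hne
  apply hv
  simp only [Set.mem_iUnion, Set.mem_ofPred_eq, not_exists, not_not] at hne
  obtain ⟨k, hk⟩ := sup_att (fv v) z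
  have hpos := sup_pos (fv v) hz
  rw [hk] at hpos ⊢
  refine hne k ?_
  intro h0
  rw [h0, map_zero] at hpos
  exact lt_irrefl _ hpos

lemma lg_support {z : Fin (n + 1) → K} (hz : z ≠ 0) :
    (Function.support fun v : HeightOneSpectrum (𝓞 K) => lg v z).Finite := by
  refine (sup_support hz).subset ?_
  intro v hv
  rw [Function.mem_support] at hv
  intro h
  apply hv
  unfold lg
  rw [h, Real.log_one]

lemma lg_nonpos (v : HeightOneSpectrum (𝓞 K)) (x : Fin (n + 1) → 𝓞 K) : lg v (cz x) ≤ 0 := by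
  unfold lg
  refine Real.log_nonpos ?_ (ciSup_le fun j => fv_int_le_one v (x j))
  obtain ⟨j, hj⟩ := sup_att (fv v) (cz x)
  rw [hj]
  exact (fv v).nonneg _

/-- the logarithm of the norm of the greatest common divisor -/
noncomputable def Gd (x : Fin (n + 1) → K) : ℝ := -∑ᶠ v : HeightOneSpectrum (𝓞 K), lg v x

lemma Gd_nonneg (x : Fin (n + 1) → 𝓞 K) : 0 ≤ Gd (cz x) := by
  unfold Gd
  rw [← finsum_neg_distrib]
  exact finsum_nonneg fun v => neg_nonneg.2 (lg_nonpos v x)

/-- the sum over finitely many primes -/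
lemma sum_lg_ge {x : Fin (n + 1) → 𝓞 K} (hx : cz x ≠ 0) (T : Finset (HeightOneSpectrum (𝓞 K))) :
    -Gd (cz x) ≤ ∑ v ∈ T, lg v (cz x) := by
  classical
  unfold Gd
  rw [neg_neg]
  set F := (lg_support hx).toFinset with hF
  have g2 : ∑ᶠ v : HeightOneSpectrum (𝓞 K), lg v (cz x) = ∑ v ∈ F ∪ T, lg v (cz x) := by
    refine finsum_eq_sum_of_support_subset _ ?_
    intro v hv
    rw [Finset.coe_union]
    left
    rw [hF, Set.Finite.coe_toFinset]
    exact hv
  rw [g2]
  have h := Finset.sum_le_sum_of_subset_of_nonneg (f := fun v => -lg v (cz x))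
    (Finset.subset_union_right (s₁ := F) (s₂ := T))
    (fun v _ _ => by have := lg_nonpos v x; linarith)
  rw [Finset.sum_neg_distrib, Finset.sum_neg_distrib] at h
  linarith

/-- the height in logarithmic form -/
lemma log_height {x : Fin (n + 1) → K} (hx : x ≠ 0) :
    Real.log (mulHeight x) =
      ∑ w : InfinitePlace K, (w.mult : ℝ) * Real.log (⨆ j, w (x j)) - Gd x := by
  unfold Gd
  rw [NumberField.mulHeight_eq hx]
  have h1 : ∏ᶠ w : FinitePlace K, (⨆ j, w (x j)) =
      ∏ᶠ v : HeightOneSpectrum (𝓞 K), ⨆ j, fv v (x j) := by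
    rw [← finprod_comp_equiv (FinitePlace.equivHeightOneSpectrum (K := K)).symm]
    rfl
  rw [h1]
  set S := (sup_support hx).toFinset with hS
  have h2 : ∏ᶠ v : HeightOneSpectrum (𝓞 K), (⨆ j, fv v (x j)) = ∏ v ∈ S, ⨆ j, fv v (x j) := by
    refine finprod_eq_prod_of_mulSupport_subset _ ?_
    intro v hv
    rw [hS, Set.Finite.coe_toFinset]
    exact hv
  have h3 : ∑ᶠ v : HeightOneSpectrum (𝓞 K), lg v x = ∑ v ∈ S, lg v x := by
    refine finsum_eq_sum_of_support_subset _ ?_
    intro v hv
    rw [hS, Set.Finite.coe_toFinset]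
    simp only [Function.mem_support, Set.mem_ofPred_eq] at hv ⊢
    intro h
    apply hv
    unfold lg
    rw [h, Real.log_one]
  rw [h2, h3]
  have hpos : ∀ w : InfinitePlace K, 0 < ⨆ j, w (x j) := fun w => sup_pos w.1 hx
  rw [Real.log_mul, Real.log_prod, Real.log_prod, sub_neg_eq_add]
  · congr 1
    refine Finset.sum_congr rfl fun w _ => ?_
    rw [Real.log_pow]
  · intro v _
    exact (sup_pos (fv v) hx).ne'
  · intro w _
    exact (pow_pos (hpos w) _).ne'
  · exact (Finset.prod_pos fun w _ => pow_pos (hpos w) _).ne'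
  · exact (Finset.prod_pos fun v _ => sup_pos (fv v) hx).ne'

/-- the finite local height in terms of sizes -/
lemma lam_eq (f : AbsoluteValue K ℝ) {a x : Fin (n + 1) → K} (ha : a ≠ 0) (hx : x ≠ 0)
    (hl : lin a x ≠ 0) :
    lam f a x = Real.log (⨆ j, f (a j)) + Real.log (⨆ j, f (x j)) - Real.log (f (lin a x)) := by
  unfold Pool.Agent.W232.VA.lam
  have h1 := sup_pos f ha
  have h2 := sup_pos f hx
  have h3 := f.pos hl
  rw [Real.log_div (mul_pos h1 h2).ne' h3.ne', Real.log_mul h1.ne' h2.ne']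

/-- the sum of all local heights -/
lemma sum_lam' {a x : Fin (n + 1) → K} (ha : a ≠ 0) (hx : x ≠ 0) (hl : lin a x ≠ 0)
    (T : Finset (HeightOneSpectrum (𝓞 K))) (hT : ∀ v ∉ T, lam (fv v) a x = 0) :
    ∑ w : InfinitePlace K, (w.mult : ℝ) * lam w.1 a x + ∑ v ∈ T, lam (fv v) a x =
      Real.log (mulHeight a) + Real.log (mulHeight x) := by
  classical
  have h1 := log_product_formula (K := K) hl
  set F := (lg_support ha).toFinset ∪ (lg_support hx).toFinset ∪
    (log_fv_support_finite hl).toFinset ∪ T with hF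
  have e0 : ∑ v ∈ T, lam (fv v) a x = ∑ v ∈ F, lam (fv v) a x := by
    refine Finset.sum_subset (by rw [hF]; exact Finset.subset_union_right) fun v _ hv => hT v hv
  have e1 : ∑ᶠ v : HeightOneSpectrum (𝓞 K), Real.log (fv v (lin a x)) =
      ∑ v ∈ F, Real.log (fv v (lin a x)) := by
    refine finsum_eq_sum_of_support_subset _ ?_
    intro v hv
    have : v ∈ (log_fv_support_finite hl).toFinset := by rwa [Set.Finite.mem_toFinset]
    rw [hF]
    simp only [Finset.coe_union, Set.mem_union, Finset.mem_coe]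
    tauto
  have e2 : Gd a = -∑ v ∈ F, lg v a := by
    unfold Gd
    rw [finsum_eq_sum_of_support_subset (s := F)]
    intro v hv
    have : v ∈ (lg_support ha).toFinset := by rwa [Set.Finite.mem_toFinset]
    rw [hF]
    simp only [Finset.coe_union, Set.mem_union, Finset.mem_coe]
    tauto
  have e3 : Gd x = -∑ v ∈ F, lg v x := by
    unfold Gd
    rw [finsum_eq_sum_of_support_subset (s := F)]
    intro v hv
    have : v ∈ (lg_support hx).toFinset := by rwa [Set.Finite.mem_toFinset]
    rw [hF]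
    simp only [Finset.coe_union, Set.mem_union, Finset.mem_coe]
    tauto
  rw [e1] at h1
  rw [log_height ha, log_height hx, e0, e2, e3]
  have e4 : ∑ w : InfinitePlace K, (w.mult : ℝ) * lam w.1 a x =
      ∑ w : InfinitePlace K, (w.mult : ℝ) * Real.log (⨆ j, w (a j)) +
      ∑ w : InfinitePlace K, (w.mult : ℝ) * Real.log (⨆ j, w (x j)) -
      ∑ w : InfinitePlace K, (w.mult : ℝ) * Real.log (w (lin a x)) := by
    rw [← Finset.sum_add_distrib, ← Finset.sum_sub_distrib]
    refine Finset.sum_congr rfl fun w _ => ?_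
    rw [lam_eq w.1 ha hx hl, mul_sub, mul_add]
    rfl
  have e5 : ∑ v ∈ F, lam (fv v) a x = ∑ v ∈ F, lg v a + ∑ v ∈ F, lg v x -
      ∑ v ∈ F, Real.log (fv v (lin a x)) := by
    rw [← Finset.sum_add_distrib, ← Finset.sum_sub_distrib]
    exact Finset.sum_congr rfl fun v _ => lam_eq (fv v) ha hx hl
  rw [e4, e5]
  linarith

/-- the local height at an archimedean place is bounded from below -/
lemma lam_arch_ge (w : InfinitePlace K) {a x : Fin (n + 1) → K} (ha : a ≠ 0) (hx : x ≠ 0)
    (hl : lin a x ≠ 0) : -Real.log ((n : ℝ) + 1) ≤ lam w.1 a x := by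
  unfold Pool.Agent.W232.VA.lam
  have h1 := sup_pos w.1 ha
  have h2 := sup_pos w.1 hx
  have h3 := w.1.pos hl
  rw [← Real.log_inv]
  refine Real.log_le_log (by positivity) ?_
  rw [inv_eq_one_div, div_le_div_iff₀ (by positivity) h3, one_mul]
  have h4 : w.1 (lin a x) ≤ ∑ j : Fin (n + 1), w.1 (a j * x j) := by
    unfold lin
    exact w.1.sum_le _ _
  refine h4.trans ?_
  calc ∑ j : Fin (n + 1), w.1 (a j * x j) ≤ ∑ _j : Fin (n + 1), (⨆ j, w.1 (a j)) * ⨆ j, w.1 (x j) := by
        refine Finset.sum_le_sum fun j _ => ?_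
        rw [map_mul]
        exact mul_le_mul (sup_le_of _ a j) (sup_le_of _ x j) (w.1.nonneg _) h1.le
    _ = _ := by
        rw [Finset.sum_const, Finset.card_univ, Fintype.card_fin, nsmul_eq_mul]
        push_cast
        ring

end Q273.MV
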