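import Pool.Agent.Q273.MV.Loc3
import Pool.Agent.Results.MP_4d5ce1_nt.ExceptionalSetExponents

/-!
# The projective line: conversions
-/

set_option autoImplicit false
set_option linter.unusedSectionVars false

namespace Q273.MV

open NumberField IsDedekindDomain Finset Pool.Agent.H691R3 Height Pool.Agent.W232.VA
open NumberField.mixedEmbedding
open Pool.Agent.Results.MP_4d5ce1_nt.ExceptionalSetExponents (height counting)

variable {K : Type} [Field K] [NumberField K] {q : ℕ}

/-- the vector `(1, x)` -/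
def vec (x : K) : Fin (1 + 1) → K := Fin.cons 1 fun _ => x

/-- the linear form vanishing at the point `[α.1 : α.2]` -/
def frm (α : K × K) : Fin (1 + 1) → K := Fin.cons (-α.1) fun _ => α.2

lemma vec_ne (x : K) : vec x ≠ 0 := by
  intro h
  have := congrFun h 0
  exact one_ne_zero this

lemma frm_ne {α : K × K} (hα : α ≠ 0) : frm α ≠ 0 := by
  intro h
  have h0 := congrFun h 0
  have h1 := congrFun h 1
  apply hα
  have e0 : -α.1 = 0 := h0
  have e1 : α.2 = 0 := h1
  exact Prod.ext (neg_eq_zero.1 e0) e1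

lemma lin_frm_vec (α : K × K) (x : K) : lin (frm α) (vec x) = x * α.2 - 1 * α.1 := by
  unfold lin
  rw [Fin.sum_univ_succ, Fin.sum_univ_one]
  show -α.1 * 1 + α.2 * x = _
  ring

lemma sup2 (f : AbsoluteValue K ℝ) (x : Fin (1 + 1) → K) :
    (⨆ j, f (x j)) = max (f (x 0)) (f (x 1)) := by
  apply le_antisymm
  · refine ciSup_le fun j => ?_
    refine Fin.cases (le_max_left _ _) (fun i => ?_) j
    have : i = 0 := Subsingleton.elim _ _
    rw [this]
    exact le_max_right _ _
  · exact max_le (sup_le_of f x 0) (sup_le_of f x 1)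

lemma log_height_vec (x : K) :
    Real.log (mulHeight (vec x)) = (Module.finrank ℚ K : ℝ) * height x := by
  have hd : (Module.finrank ℚ K : ℝ) ≠ 0 := by
    have : 0 < Module.finrank ℚ K := Module.finrank_pos
    positivity
  unfold height
  rw [mul_div_cancel₀ _ hd, log_height (vec_ne x)]
  unfold Gd
  rw [sub_neg_eq_add]
  congr 1
  · refine Finset.sum_congr rfl fun w _ => ?_
    have h := sup2 w.1 (vec x)
    have h' : (⨆ j, w (vec x j)) = max (w 1) (w x) := h
    rw [h', max_comm]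
  · refine finsum_congr fun v => ?_
    unfold lg
    rw [sup2]
    have h' : max (fv v (vec x 0)) (fv v (vec x 1)) =
        max (FinitePlace.mk v 1) (FinitePlace.mk v x) := rfl
    rw [h', max_comm]

lemma lam_vec (v : HeightOneSpectrum (𝓞 K)) (α : K × K) (x : K) :
    Pool.Agent.W232.VA.lam (fv v) (frm α) (vec x) =
      Real.log (max (FinitePlace.mk v x) (FinitePlace.mk v 1) *
        max (FinitePlace.mk v α.1) (FinitePlace.mk v α.2) /
        FinitePlace.mk v (x * α.2 - 1 * α.1)) := by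
  unfold Pool.Agent.W232.VA.lam
  rw [sup2, sup2, lin_frm_vec]
  have e1 : max (fv v (frm α 0)) (fv v (frm α 1)) =
      max (FinitePlace.mk v α.1) (FinitePlace.mk v α.2) := by
    have e : fv v (frm α 0) = FinitePlace.mk v α.1 := by
      show fv v (-α.1) = _
      rw [(fv v).map_neg]
      rfl
    rw [e]
    rfl
  have e2 : max (fv v (vec x 0)) (fv v (vec x 1)) =
      max (FinitePlace.mk v x) (FinitePlace.mk v 1) := by
    rw [max_comm]
    rfl
  rw [e1, e2, mul_comm (max (FinitePlace.mk v α.1) (FinitePlace.mk v α.2))]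
  rfl

/-- the truncated local height -/
lemma min_lam (v : HeightOneSpectrum (𝓞 K)) {α : K × K} (hα : α ≠ 0) {x : K}
    (hx : x * α.2 - 1 * α.1 ≠ 0) :
    (Module.finrank ℚ K : ℝ) *
      min (Real.log (max (FinitePlace.mk v x) (FinitePlace.mk v 1) *
        max (FinitePlace.mk v α.1) (FinitePlace.mk v α.2) /
        FinitePlace.mk v (x * α.2 - 1 * α.1)) / (Module.finrank ℚ K : ℝ))
        (Real.log (Ideal.absNorm v.asIdeal : ℝ) / (Module.finrank ℚ K : ℝ)) =
      if 0 < Pool.Agent.W232.VA.lam (fv v) (frm α) (vec x) then Real.log (Nv v) else 0 := by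
  have hd0 : (0 : ℝ) < (Module.finrank ℚ K : ℝ) := by
    have : 0 < Module.finrank ℚ K := Module.finrank_pos
    exact_mod_cast this
  rw [mul_min_of_nonneg _ _ hd0.le, mul_div_cancel₀ _ hd0.ne', mul_div_cancel₀ _ hd0.ne',
    ← lam_vec]
  have hl : lin (frm α) (vec x) ≠ 0 := by rw [lin_frm_vec]; exact hx
  obtain ⟨k, hk⟩ := lam_fin v (frm_ne hα) (vec_ne x) hl
  have hN : Real.log (Ideal.absNorm v.asIdeal : ℝ) = Real.log (Nv v) := rfl
  rw [hN]
  have hpos := log_Nv_pos v
  rcases Nat.eq_zero_or_pos k with h0 | h0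
  · have e : Pool.Agent.W232.VA.lam (fv v) (frm α) (vec x) = 0 := by
      rw [hk, h0]
      simp
    rw [e, if_neg (lt_irrefl _)]
    exact min_eq_left hpos.le
  · have h1 : (1 : ℝ) ≤ k := by exact_mod_cast h0
    have e : Real.log (Nv v) ≤ Pool.Agent.W232.VA.lam (fv v) (frm α) (vec x) := by
      rw [hk]
      nlinarith
    rw [if_pos (hpos.trans_le e)]
    exact min_eq_right e

open Classical in
lemma counting_single {T : Set (HeightOneSpectrum (𝓞 K))} (hT : T.Finite) {α : K × K}
    (hα : α ≠ 0) {x : K} (hx : x * α.2 - 1 * α.1 ≠ 0) :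
    (Module.finrank ℚ K : ℝ) * counting T (fun _ : Fin 1 => α) x =
      N1 hT.toFinset (fun _ : Fin 1 => frm α) (vec x) := by
  unfold counting N1
  rw [mul_finsum]
  refine finsum_congr fun v => ?_
  rw [finsum_eq_if]
  by_cases hv : v ∉ T
  · rw [if_pos hv, Finset.sum_const, Finset.card_univ, Fintype.card_fin, one_smul, min_lam v hα hx]
    by_cases h : 0 < Pool.Agent.W232.VA.lam (fv v) (frm α) (vec x)
    · rw [if_pos h, if_pos ⟨by rwa [Set.Finite.mem_toFinset], 0, h⟩]
    · rw [if_neg h, if_neg]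
      rintro ⟨_, _, h'⟩
      exact h h'
  · rw [if_neg hv, mul_zero, if_neg]
    rintro ⟨h, _⟩
    rw [Set.Finite.mem_toFinset] at h
    exact hv h

lemma counting_sum {T : Set (HeightOneSpectrum (𝓞 K))} {α : Fin q → K × K}
    (hα : ∀ l, α l ≠ 0) {x : K} (hx : ∀ l, x * (α l).2 - 1 * (α l).1 ≠ 0) :
    counting T α x = ∑ l, counting T (fun _ : Fin 1 => α l) x := by
  classical
  have ha : ∀ l, frm (α l) ≠ 0 := fun l => frm_ne (hα l)
  have hl : ∀ l, lin (frm (α l)) (vec x) ≠ 0 := fun l => by rw [lin_frm_vec]; exact hx l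
  obtain ⟨T0, hT0⟩ := exists_T ha (vec_ne x) hl
  have hd0 : (0 : ℝ) < (Module.finrank ℚ K : ℝ) := by
    have : 0 < Module.finrank ℚ K := Module.finrank_pos
    exact_mod_cast this
  have hzero : ∀ v ∉ T0, ∀ l, min (Real.log (max (FinitePlace.mk v x) (FinitePlace.mk v 1) *
        max (FinitePlace.mk v (α l).1) (FinitePlace.mk v (α l).2) /
        FinitePlace.mk v (x * (α l).2 - 1 * (α l).1)) / (Module.finrank ℚ K : ℝ))
        (Real.log (Ideal.absNorm v.asIdeal : ℝ) / (Module.finrank ℚ K : ℝ)) = 0 := by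
    intro v hv l
    have h1 := min_lam v (hα l) (hx l)
    rw [if_neg (by rw [hT0 v hv l]; exact lt_irrefl _)] at h1
    exact (mul_eq_zero.1 h1).resolve_left hd0.ne'
  have e1 : ∀ (m : ℕ) (β : Fin m → K × K), (∀ v ∉ T0, ∀ l, min (Real.log
        (max (FinitePlace.mk v x) (FinitePlace.mk v 1) *
        max (FinitePlace.mk v (β l).1) (FinitePlace.mk v (β l).2) /
        FinitePlace.mk v (x * (β l).2 - 1 * (β l).1)) / (Module.finrank ℚ K : ℝ))
        (Real.log (Ideal.absNorm v.asIdeal : ℝ) / (Module.finrank ℚ K : ℝ)) = 0) →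
      counting T β x = ∑ v ∈ T0, if v ∉ T then ∑ l, min (Real.log
        (max (FinitePlace.mk v x) (FinitePlace.mk v 1) *
        max (FinitePlace.mk v (β l).1) (FinitePlace.mk v (β l).2) /
        FinitePlace.mk v (x * (β l).2 - 1 * (β l).1)) / (Module.finrank ℚ K : ℝ))
        (Real.log (Ideal.absNorm v.asIdeal : ℝ) / (Module.finrank ℚ K : ℝ)) else 0 := by
    intro m β hβ
    unfold counting
    rw [finsum_eq_sum_of_support_subset (s := T0)]
    · refine Finset.sum_congr rfl fun v _ => ?_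
      rw [finsum_eq_if]
    · intro v hv
      by_contra hne
      apply hv
      beta_reduce
      rw [finsum_eq_if]
      by_cases hvT : v ∉ T
      · rw [if_pos hvT]
        exact Finset.sum_eq_zero fun l _ => hβ v hne l
      · rw [if_neg hvT]
  rw [e1 q α hzero, Finset.sum_congr rfl fun l _ => e1 1 (fun _ : Fin 1 => α l)
    (fun v hv _ => hzero v hv l), Finset.sum_comm]
  refine Finset.sum_congr rfl fun v _ => ?_
  by_cases hv : v ∉ T
  · rw [if_pos hv]
    refine Finset.sum_congr rfl fun l _ => ?_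
    rw [if_pos hv, Finset.sum_const, Finset.card_univ, Fintype.card_fin, one_smul]
  · rw [if_neg hv]
    exact (Finset.sum_eq_zero fun l _ => by rw [if_neg hv]).symm

/-- the sum of the losses, with one gcd term -/
theorem locS {n r : ℕ} (S : Finset (HeightOneSpectrum (𝓞 K))) (b : Fin r → Fin (n + 1) → 𝓞 K)
    (hb : ∀ i, cz (b i) ≠ 0) (hd : ∀ i l, i ≠ l → ∀ c : K, cz (b i) ≠ c • cz (b l))
    (P : Fin r → HeightOneSpectrum (𝓞 K)) (hP : Function.Injective P) :
    ∃ C : ℝ, 0 ≤ C ∧ ∀ (x : Fin (n + 1) → 𝓞 K) (k : Fin r → ℕ), cz x ≠ 0 →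
      (∀ i, lin (cz (b i)) (cz x) ≠ 0) → (∀ i, linZ (b i) x ∈ (P i).asIdeal ^ (k i)) →
      ∀ V : Finset (Fin r), ∑ l ∈ V, (k l : ℝ) * Real.log (Nv (P l)) - Gd (cz x) - C ≤
        ∑ l ∈ V, (Real.log (mulHeight (cz x)) - N1 S (fun _ : Fin 1 => cz (b l)) (cz x)) := by
  classical
  have hH0 : ∀ i, 0 ≤ Real.log (mulHeight (cz (b i))) := fun i =>
    Real.log_nonneg (one_le_mulHeight _)
  have hn0 : (0 : ℝ) ≤ n := Nat.cast_nonneg n
  have hlogn : 0 ≤ Real.log ((n : ℝ) + 1) := Real.log_nonneg (by linarith)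
  have hd0 : (0 : ℝ) ≤ (Module.finrank ℚ K : ℝ) := Nat.cast_nonneg _
  set c : Fin r → ℝ := fun l => |lg (P l) (cz (b l))| + Real.log (Nv (P l)) +
    (Module.finrank ℚ K : ℝ) * Real.log ((n : ℝ) + 1) + Real.log (mulHeight (cz (b l))) with hc
  have hc0 : ∀ l, 0 ≤ c l := fun l => by
    have h1 := abs_nonneg (lg (P l) (cz (b l)))
    have h2 := (log_Nv_pos (P l)).le
    have h3 := mul_nonneg hd0 hlogn
    have h4 := hH0 l
    rw [hc]
    simp only
    linarith
  refine ⟨∑ l, c l, Finset.sum_nonneg fun l _ => hc0 l, ?_⟩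
  intro x k hx hl hk V
  obtain ⟨_, h2, _⟩ := loc0 S hb hd P hP hx hl
  have hlam : ∀ l, (k l : ℝ) * Real.log (Nv (P l)) + lg (P l) (cz x) - c l ≤
      Real.log (mulHeight (cz x)) - N1 S (fun _ : Fin 1 => cz (b l)) (cz x) := by
    intro l
    have e1 := lam_div (P l) (hb l) hx (hl l) (hk l)
    have e2 := neg_abs_le (lg (P l) (cz (b l)))
    have e3 := h2 l
    rw [hc]
    simp only
    linarith
  have hsub : -Gd (cz x) ≤ ∑ l ∈ V, lg (P l) (cz x) := by
    have e := sum_lg_ge hx (V.image P)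
    rwa [Finset.sum_image fun i _ j _ h => hP h] at e
  have hcV : ∑ l ∈ V, c l ≤ ∑ l, c l :=
    Finset.sum_le_sum_of_subset_of_nonneg (Finset.subset_univ V) fun l _ _ => hc0 l
  have e1 := Finset.sum_le_sum fun l (_ : l ∈ V) => hlam l
  rw [Finset.sum_sub_distrib, Finset.sum_add_distrib] at e1
  linarith

/-- the first main theorem: the truncated counting function is at most the height -/
lemma single_ge {n : ℕ} (S : Finset (HeightOneSpectrum (𝓞 K))) {a x : Fin (n + 1) → K}
    (ha : a ≠ 0) (hx : x ≠ 0) (hl : lin a x ≠ 0) :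
    -((Module.finrank ℚ K : ℝ) * Real.log ((n : ℝ) + 1)) - Real.log (mulHeight a) ≤
      Real.log (mulHeight x) - N1 S (fun _ : Fin 1 => a) x := by
  classical
  obtain ⟨T, hT⟩ := exists_T (a := fun _ : Fin 1 => a) (fun _ => ha) hx (fun _ => hl)
  have h1 := sum_lam' ha hx hl T (fun v hv => hT v hv 0)
  rw [N1_eq (a := fun _ : Fin 1 => a) S (T := T) hT]
  have h2 : ∑ v ∈ T, ind S (fun _ : Fin 1 => a) x v ≤
      ∑ v ∈ T, Pool.Agent.W232.VA.lam (fv v) a x := by
    refine Finset.sum_le_sum fun v _ => ?_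
    have h3 := lam_fin_nonneg v ha hx hl
    unfold ind
    split_ifs with h
    · obtain ⟨_, _, hi⟩ := h
      obtain ⟨k, hk⟩ := lam_fin v ha hx hl
      have hk1 : (1 : ℝ) ≤ k := by
        rcases Nat.eq_zero_or_pos k with h0 | h0
        · rw [hk, h0] at hi
          simp at hi
        · exact_mod_cast h0
      have h4 := log_Nv_pos v
      rw [hk]
      nlinarith
    · exact h3
  have h3 : -((Module.finrank ℚ K : ℝ) * Real.log ((n : ℝ) + 1)) ≤
      ∑ w : InfinitePlace K, (w.mult : ℝ) * Pool.Agent.W232.VA.lam w.1 a x := by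
    rw [← sum_mult_real, ← neg_mul, ← Finset.sum_neg_distrib, Finset.sum_mul]
    refine Finset.sum_le_sum fun w _ => ?_
    have h4 := lam_arch_ge w ha hx hl
    have h5 : (0 : ℝ) ≤ w.mult := Nat.cast_nonneg _
    nlinarith
  linarith

end Q273.MV
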