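import Pool.Agent.Q273.MV.P4

/-!
# The projective line: points near `ξ` at every scale with prescribed losses
-/

set_option autoImplicit false
set_option linter.unusedSectionVars false

namespace Q273.MV

open NumberField NumberField.mixedEmbedding NumberField.InfinitePlace
open IsDedekindDomain Finset Pool.Agent.W232.VA Pool.Agent.H691R3 Height
open Pool.Agent.Results.MP_4d5ce1_nt.ExceptionalSetExponents (height counting)

variable {K : Type} [Field K] [NumberField K] {q : ℕ}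

lemma counting_nonneg (T : Set (HeightOneSpectrum (𝓞 K))) (hT : T.Finite) {α : K × K}
    (hα : α ≠ 0) {x : K} (hx : x * α.2 - 1 * α.1 ≠ 0) :
    0 ≤ (Module.finrank ℚ K : ℝ) * counting T (fun _ : Fin 1 => α) x := by
  classical
  rw [counting_single hT hα hx]
  unfold N1
  refine finsum_nonneg fun v => ?_
  split_ifs
  · exact (log_Nv_pos v).le
  · exact le_rfl

lemma sI_le {T : Set (HeightOneSpectrum (𝓞 K))} (hT : T.Finite) {α : K × K}
    (hα : α ≠ 0) {x : K} (hx : x * α.2 - 1 * α.1 ≠ 0) : sI T α x ≤ hh x := by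
  have := counting_nonneg T hT hα hx
  unfold sI
  linarith

/-- the range of the distributions -/
def Dist (q : ℕ) (δ : Fin q → ℝ) : Prop :=
  (∀ i, 0 ≤ δ i) ∧ (∀ i, δ i < 1) ∧ ∑ i, δ i < kap q

theorem core (hq : 2 ≤ q) {T : Set (HeightOneSpectrum (𝓞 K))} (hT : T.Finite)
    {α : Fin q → K × K} (hα : Pts α) {s : K} (hs : s ≠ 0) {b : Fin q → Fin (1 + 1) → 𝓞 K}
    (hb : ∀ i, cz (b i) = s • frm (α i)) {P : Fin q → HeightOneSpectrum (𝓞 K)}
    (hP : Function.Injective P) {δ : Fin q → ℝ} (hδ : Dist q δ) {ε : ℝ} (hε : 0 < ε) :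
    ∃ ε1 : ℝ, 0 < ε1 ∧ ∀ m : ℕ, ∃ t1 : ℝ, ∀ t : ℝ, t1 ≤ t → ∀ ξ ∈ Fset T α b P δ ε1 m,
      ∃ y : K, (∀ l, y * (α l).2 - 1 * (α l).1 ≠ 0) ∧
        |hh y - (Module.finrank ℚ K : ℝ) * t| ≤ ε * ((Module.finrank ℚ K : ℝ) * t) ∧
        (∀ i, |sI T (α i) y - δ i * ((Module.finrank ℚ K : ℝ) * t)| ≤
          ε * ((Module.finrank ℚ K : ℝ) * t)) ∧
        ∀ w : InfinitePlace K, normAtPlace w (ξ - mixedEmbedding K y) ≤
          Real.exp (-((2 - ∑ i, δ i - ε) * t)) := by
  classical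
  obtain ⟨hδ0, hδ1, hΔκ⟩ := hδ
  have hb0 : ∀ i, cz (b i) ≠ 0 := fun i => by
    rw [hb i]; exact smul_ne_zero hs (frm_ne (hα.1 i))
  have hbd : ∀ i l, i ≠ l → ∀ c : K, cz (b i) ≠ c • cz (b l) := by
    intro i l hil c h
    rw [hb i, hb l, smul_comm] at h
    exact hα.2 i l hil (frm_smul (smul_right_injective _ hs h))
  set S : Finset (HeightOneSpectrum (𝓞 K)) := hT.toFinset with hS
  set Δ : ℝ := ∑ i, δ i with hΔdef
  have hΔ0 : 0 ≤ Δ := Finset.sum_nonneg fun i _ => hδ0 i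
  obtain ⟨Ca, hCa, hloc⟩ := locS S b hb0 hbd P hP
  set d : ℕ := Module.finrank ℚ K with hdd
  have hdpos : 0 < d := Module.finrank_pos
  have hdr : (1 : ℝ) ≤ (d : ℝ) := by exact_mod_cast hdpos
  have hd0 : (0 : ℝ) < d := by linarith
  have hκ2 : kap q ≤ 2 := by
    unfold kap
    split_ifs <;> norm_num
  have hΔ2 : Δ < 2 := by linarith
  -- the precision
  set ε1 : ℝ := min (min (ε / (2 * d)) ((2 - Δ) / (2 * d))) (min ((kap q - Δ) / 2) 1) with hε1
  have hε10 : 0 < ε1 := by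
    have h1 : 0 < kap q - Δ := by linarith
    have h2 : 0 < 2 - Δ := by linarith
    exact lt_min (lt_min (by positivity) (by positivity)) (lt_min (by positivity) one_pos)
  have hε1a : ε1 * d ≤ ε / 2 := by
    have h1 : ε1 ≤ ε / (2 * d) := (min_le_left _ _).trans (min_le_left _ _)
    rw [le_div_iff₀ (by positivity)] at h1
    linarith
  have hε1b : ε1 * d ≤ (2 - Δ) / 2 := by
    have h1 : ε1 ≤ (2 - Δ) / (2 * d) := (min_le_left _ _).trans (min_le_right _ _)
    rw [le_div_iff₀ (by positivity)] at h1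
    linarith
  have hε1c : ε1 ≤ (kap q - Δ) / 2 := (min_le_right _ _).trans (min_le_left _ _)
  have hε1d : ε1 ≤ 1 := (min_le_right _ _).trans (min_le_right _ _)
  have hε1e : ε1 ≤ ε / 2 := by nlinarith
  refine ⟨ε1, hε10, fun m => ?_⟩
  have hm0 : (0 : ℝ) ≤ m := Nat.cast_nonneg m
  have hq0 : (0 : ℝ) ≤ q := Nat.cast_nonneg q
  set C2 : ℝ := Ca + (d + 1) * m + q * m + m with hC2
  have hC20 : 0 ≤ C2 := by positivity
  have hlogm : 0 ≤ Real.log ((m : ℝ) + 1) := Real.log_nonneg (by linarith)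
  have hlog2 : 0 ≤ Real.log 2 := Real.log_nonneg (by norm_num)
  -- the constant of the single places
  set C5 : ℝ := 4 * C2 + d * m + d * Real.log ((m : ℝ) + 1) + m + Real.log 2 with hC5
  have hC50 : 0 ≤ C5 := by positivity
  set t1 : ℝ := max (max (m : ℝ) (12 * C2 / ε)) (max (4 * C5 / ε) (max (4 * C5 / (2 - Δ))
    ((C2 + 8 * C2 / (kap q - Δ)) / |1 - Δ|))) with ht1
  refine ⟨t1, fun t ht ξ hξ => ?_⟩
  obtain ⟨hlaw, hlow, harch, hbd'⟩ := hξ
  have htm : (m : ℝ) ≤ t := ((le_max_left _ _).trans (le_max_left _ _)).trans ht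
  have ht0 : 0 ≤ t := hm0.trans htm
  have htε : 12 * C2 ≤ ε * t := by
    have h1 : 12 * C2 / ε ≤ t := ((le_max_right _ _).trans (le_max_left _ _)).trans ht
    rw [div_le_iff₀ hε] at h1
    linarith
  have htε5 : 4 * C5 ≤ ε * t := by
    have h1 : 4 * C5 / ε ≤ t := ((le_max_left _ _).trans (le_max_right _ _)).trans ht
    rw [div_le_iff₀ hε] at h1
    linarith
  have htΔ5 : 4 * C5 ≤ (2 - Δ) * t := by
    have h1 : 4 * C5 / (2 - Δ) ≤ t :=
      ((le_max_left _ _).trans ((le_max_right _ _).trans (le_max_right _ _))).trans ht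
    rw [div_le_iff₀ (by linarith)] at h1
    linarith
  have htκ : Δ < 1 → C2 + 8 * C2 / (kap q - Δ) ≤ (1 - Δ) * (d * t) := by
    intro h1
    have h2 : (C2 + 8 * C2 / (kap q - Δ)) / |1 - Δ| ≤ t :=
      ((le_max_right _ _).trans ((le_max_right _ _).trans (le_max_right _ _))).trans ht
    have h3 : 0 < 1 - Δ := by linarith
    rw [abs_of_pos h3, div_le_iff₀ h3] at h2
    have h4 : t ≤ d * t := by nlinarith
    nlinarith
  obtain ⟨x, k, hx0, hoff, hdiv, hk, hX, hY⟩ := hlow t htm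
  have hx0' : ((x 0 : 𝓞 K) : K) ≠ 0 := RingOfIntegers.coe_ne_zero_iff.mpr hx0
  have hx : cz x ≠ 0 := fun h => hx0' (congrFun h 0)
  set y : K := ((x 1 : 𝓞 K) : K) / ((x 0 : 𝓞 K) : K) with hy
  have hyfun : (fun j : Fin 1 => ((x j.succ : 𝓞 K) : K) / ((x 0 : 𝓞 K) : K)) = fun _ => y := by
    funext j
    rw [Subsingleton.elim j 0]
    rfl
  have hvec : vec y = ((x 0 : 𝓞 K) : K)⁻¹ • cz x := by
    funext j
    refine Fin.cases ?_ (fun i => ?_) j
    · show (1 : K) = ((x 0 : 𝓞 K) : K)⁻¹ * ((x 0 : 𝓞 K) : K)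
      rw [inv_mul_cancel₀ hx0']
    · rw [Subsingleton.elim i 0]
      show y = ((x 0 : 𝓞 K) : K)⁻¹ * ((x 1 : 𝓞 K) : K)
      rw [hy, div_eq_inv_mul]
  have hxi : ((x 0 : 𝓞 K) : K)⁻¹ ≠ 0 := inv_ne_zero hx0'
  have hcz : cz x = ((x 0 : 𝓞 K) : K) • vec y := by
    rw [hvec, smul_smul, mul_inv_cancel₀ hx0', one_smul]
  have hhy : hh y = Real.log (mulHeight (cz x)) := by
    unfold hh
    rw [hvec, mulHeight_smul_eq_mulHeight _ hxi]
  have hG0 : 0 ≤ Gd (cz x) := Gd_nonneg x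
  have hH : 0 ≤ Real.log (mulHeight (cz x)) := Real.log_nonneg (one_le_mulHeight _)
  have hpt : ∀ l, y * (α l).2 - 1 * (α l).1 ≠ 0 := by
    intro l h0
    apply hoff l
    rw [hb l, hcz, lin_smul_left, lin_smul_right, lin_frm_vec, h0, mul_zero, mul_zero]
  have hsI : ∀ i, sI T (α i) y =
      Real.log (mulHeight (cz x)) - N1 S (fun _ : Fin 1 => cz (b i)) (cz x) := by
    intro i
    unfold sI
    rw [hhy, counting_single hT (hα.1 i) (hpt i)]
    congr 1
    have e := (transfer S (a := fun _ : Fin 1 => frm (α i)) (b := fun _ : Fin 1 => cz (b i))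
      (s := s) (t := ((x 0 : 𝓞 K) : K)) (x := vec y) (x' := cz x) hs hx0' (fun _ => hb i) hcz).1
    rw [e]
  set h : ℝ := Real.log (mulHeight (cz x)) with hhd
  set G : ℝ := Gd (cz x) with hG
  set D : ℝ := d * t with hD
  have hD0 : 0 ≤ D := mul_nonneg hd0.le ht0
  have htD : t ≤ D := by rw [hD]; nlinarith
  -- the sizes
  set X : ℝ := Real.exp (t + m) with hXd
  set Y : ℝ := Real.exp (m - (1 - Δ) * t) with hYd
  have hlX : Real.log X = t + m := Real.log_exp _
  have hlY : Real.log Y = m - (1 - Δ) * t := Real.log_exp _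
  have hY0 : 0 < Y := Real.exp_pos _
  have hYX : Y ≤ X := Real.exp_le_exp.2 (by nlinarith)
  have hY' : ∀ w : InfinitePlace K, normAtPlace w (mixedEmbedding K ((x 0 : 𝓞 K) : K) * ξ -
      mixedEmbedding K ((x 1 : 𝓞 K) : K)) ≤ Y := hY
  obtain ⟨ha0, hb0'⟩ := harch x hx0 X Y hY0 hYX hX (by
    intro w j
    rw [Subsingleton.elim j 0]
    exact hY' w)
  rw [hlX] at ha0
  rw [hlY, hyfun] at hb0'
  have ha1 : h + G ≤ D + C2 := by
    have h1 : (d : ℝ) * (t + m) + m = D + (d + 1) * m := by rw [hD]; ring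
    have h2 : (0 : ℝ) ≤ q * m := by positivity
    rw [hC2]
    linarith
  have hb1 : h + G + (1 - Δ) * D - C2 ≤ prox (n := 1) (fun _ => ξ) (fun _ => y) := by
    have h1 : (d : ℝ) * (m - (1 - Δ) * t) + m = (d + 1) * m - (1 - Δ) * D := by rw [hD]; ring
    have h2 : (0 : ℝ) ≤ q * m := by positivity
    rw [hC2]
    linarith
  have hV : ∀ V : Finset (Fin q), ∑ l ∈ V, δ l * D - G - C2 ≤ ∑ l ∈ V, sI T (α l) y := by
    intro V
    have e1 := Finset.sum_le_sum fun l (_ : l ∈ V) => hk l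
    rw [Finset.sum_sub_distrib, Finset.sum_const, nsmul_eq_mul] at e1
    have e2 : (V.card : ℝ) ≤ q := by
      have := Finset.card_le_univ V
      rw [Fintype.card_fin] at this
      exact_mod_cast this
    have e3 := mul_le_mul_of_nonneg_right e2 hm0
    have e4 := hloc x k hx hoff hdiv V
    rw [Finset.sum_congr rfl fun l _ => hsI l]
    have h2 : (0 : ℝ) ≤ (d + 1) * m := by positivity
    rw [hC2]
    linarith
  have hsumD : ∑ l, δ l * D = Δ * D := by rw [hΔdef, Finset.sum_mul]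
  -- the law
  have happ : ∑ l, sI T (α l) y ≤ kap q * hh y ∨
      (2 - kap q + ε1) * hh y ≤ prox (n := 1) (fun _ => ξ) (fun _ => y) := by
    by_cases hq2 : q = 2
    · left
      have h1 : ∑ l, sI T (α l) y ≤ ∑ _l : Fin q, hh y :=
        Finset.sum_le_sum fun l _ => sI_le hT (hα.1 l) (hpt l)
      rw [Finset.sum_const, Finset.card_univ, Fintype.card_fin, nsmul_eq_mul] at h1
      have h2 : kap q = 2 := by
        unfold kap
        rw [if_pos hq2]
      have h3 : (q : ℝ) = 2 := by rw [hq2]; norm_num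
      rw [h2]
      rw [h3] at h1
      exact h1
    · right
      have hκ1 : kap q ≤ 1 := by
        unfold kap
        rw [if_neg hq2]
        split_ifs <;> norm_num
      rw [hhy]
      exact applic hH hG0 hC20 hε10.le hε1c hκ1 hΔ0 hΔκ ha1 hb1 (htκ (by linarith))
  have hf := hlaw y hpt happ
  rw [hhy] at hf
  have hf' : prox (n := 1) (fun _ => ξ) (fun _ => y) + ∑ l, sI T (α l) y ≤ (2 + ε1) * h + C2 := by
    have h1 : (m : ℝ) ≤ C2 := by
      have h2 : (0 : ℝ) ≤ q * m := by positivity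
      have h3 : (0 : ℝ) ≤ (d + 1) * m := by positivity
      rw [hC2]
      linarith
    linarith
  obtain ⟨r1, r2, r3⟩ := num2 (l := ∑ l, sI T (α l) y) hH hG0 hC20 hD0 hε10.le hε1d ha1 hb1 (by
      have := hV univ
      rwa [hsumD] at this) hf'
  have hεD : ε1 * D ≤ ε / 2 * D := mul_le_mul_of_nonneg_right hε1e hD0
  have hεtD : ε * t ≤ ε * D := mul_le_mul_of_nonneg_left htD hε.le
  refine ⟨y, hpt, ?_, fun i => ?_, fun w => ?_⟩
  · rw [hhy]
    linarith
  · refine (r3 (δ i) (sI T (α i) y) ?_ ?_).trans (by linarith)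
    · have := hV {i}
      rwa [Finset.sum_singleton, Finset.sum_singleton] at this
    · have e2 := hV (univ.erase i)
      have e3 : ∑ l ∈ univ.erase i, δ l * D = Δ * D - δ i * D := by
        rw [← hsumD, ← Finset.add_sum_erase univ (fun l => δ l * D) (Finset.mem_univ i)]
        ring
      rw [e3] at e2
      rw [← Finset.add_sum_erase univ (fun l => sI T (α l) y) (Finset.mem_univ i)]
      linarith
  · -- the single places
    have hw0 : 0 < w ((x 0 : 𝓞 K) : K) := (InfinitePlace.pos_iff).2 hx0'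
    have h1 := place hbd' hm0 hx0 hY0 hYX hX hY' w
    rw [hlX] at h1
    have hε1D : ε1 * D = ε1 * d * t := by rw [hD]; ring
    have h2 : t - ε1 * D - (4 * C2 + d * m + d * Real.log ((m : ℝ) + 1)) ≤
        Real.log (max (w ((x 0 : 𝓞 K) : K)) Y) := by
      refine le_trans ?_ h1
      have h3 : (d : ℝ) * (t + m) = D + d * m := by rw [hD]; ring
      have h4 : (0 : ℝ) ≤ m := hm0
      linarith
    have hYlt : Y < max (w ((x 0 : 𝓞 K) : K)) Y := by
      rw [← Real.log_lt_log_iff hY0 (lt_of_lt_of_le hY0 (le_max_right _ _)), hlY]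
      refine lt_of_lt_of_le ?_ h2
      rw [hε1D]
      have h3 : ε1 * d * t ≤ (2 - Δ) / 2 * t := mul_le_mul_of_nonneg_right hε1b ht0
      have h4 : 4 * C2 + d * m + d * Real.log ((m : ℝ) + 1) + m + Real.log 2 = C5 := rfl
      have h5 : 0 < Real.log 2 := Real.log_pos one_lt_two
      nlinarith
    have hmax : max (w ((x 0 : 𝓞 K) : K)) Y = w ((x 0 : 𝓞 K) : K) := by
      rcases max_choice (w ((x 0 : 𝓞 K) : K)) Y with h3 | h3
      · exact h3
      · rw [h3] at hYlt
        exact absurd hYlt (lt_irrefl _)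
    rw [hmax] at h2
    have h3 : normAtPlace w (ξ - mixedEmbedding K y) ≤ Y / w ((x 0 : 𝓞 K) : K) := by
      rw [le_div_iff₀ hw0, mul_comm, ← normAtPlace_apply w ((x 0 : 𝓞 K) : K), ← map_mul,
        mul_sub, ← map_mul, hy, mul_div_cancel₀ _ hx0']
      exact hY' w
    refine h3.trans ?_
    have h4 : Y / w ((x 0 : 𝓞 K) : K) = Real.exp (Real.log Y - Real.log (w ((x 0 : 𝓞 K) : K))) := by
      rw [Real.exp_sub, Real.exp_log hY0, Real.exp_log hw0]
    rw [h4]
    refine Real.exp_le_exp.2 ?_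
    rw [hlY]
    rw [hε1D] at h2
    have h5 : ε1 * d * t ≤ ε / 2 * t := mul_le_mul_of_nonneg_right hε1a ht0
    have h6 : 4 * C2 + d * m + d * Real.log ((m : ℝ) + 1) + m + Real.log 2 = C5 := rfl
    nlinarith

end Q273.MV
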