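import Mathlib

/-!
# Statements of the lemmas of the project MV, third part
-/

set_option autoImplicit false

open MeasureTheory NumberField NumberField.mixedEmbedding
open scoped NNReal

namespace Q273.MV

open scoped Classical in
/-- job DENS: Lebesgue density, in shells around almost every point -/
def S_DENS : Prop :=
  ∀ (K : Type) [Field K] [NumberField K] (F : ℕ → Set (mixedSpace K)),
    (∀ᵐ ξ : mixedSpace K, ∃ m, ξ ∈ F m) →
    ∀ᵐ ξ : mixedSpace K, ∃ m, ξ ∈ F m ∧ ∃ r0 : ℝ, 0 < r0 ∧ ∀ r : ℝ, 0 < r → r ≤ r0 →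
      ∃ ξ' ∈ F m, ∀ w : InfinitePlace K,
        r / 2 ≤ normAtPlace w (ξ' - ξ) ∧ normAtPlace w (ξ' - ξ) ≤ r

/-- job CANTOR: a Cantor set of positive Hausdorff measure in a finite-dimensional space -/
def S_CANTOR : Prop :=
  ∀ (E : Type) [NormedAddCommGroup E] [NormedSpace ℝ E] [FiniteDimensional ℝ E]
    [MeasurableSpace E] [BorelSpace E] (c0 : E) (R0 a : ℝ) (s : ℝ≥0) (A : ℕ → Set E),
    0 < R0 → 0 < a → 0 < s → (s : ℝ) < Module.finrank ℝ E →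
    (∀ (n : ℕ) (R M : ℝ), 0 < R → R ≤ R0 → ∃ ρ r : ℝ, 0 < r ∧ 4 * r ≤ ρ ∧ ρ ≤ R ∧
      M ≤ r ^ (s : ℝ) * ρ ^ (-(Module.finrank ℝ E : ℝ)) ∧
      ∀ c : E, Metric.closedBall c R ⊆ Metric.closedBall c0 R0 →
        ∃ P : Finset E, a * (R / ρ) ^ (Module.finrank ℝ E) ≤ P.card ∧
          (∀ p ∈ P, Metric.closedBall p r ⊆ A n ∩ Metric.closedBall c R) ∧
          ∀ p ∈ P, ∀ p' ∈ P, p ≠ p' → ρ ≤ dist p p') →
    Measure.hausdorffMeasure (s : ℝ) (Metric.closedBall c0 R0 ∩ ⋂ n, A n) ≠ 0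

end Q273.MV
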