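import Pool.Agent.Q273.MV.P5
import Pool.Agent.Q273.MV.Stm3

/-!
# The projective line: the limit points at almost every target
-/

set_option autoImplicit false
set_option linter.unusedSectionVars false

namespace Q273.MV

open MeasureTheory NumberField NumberField.mixedEmbedding NumberField.InfinitePlace
open IsDedekindDomain Finset Pool.Agent.W232.VA Pool.Agent.H691R3 Height
open Pool.Agent.Results.MP_4d5ce1_nt.ExceptionalSetExponents (height counting)

variable {K : Type} [Field K] [NumberField K] {q : ℕ}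

open scoped Classical in
lemma ae_transfer {p : (Fin 1 → mixedSpace K) → Prop} (h : ∀ᵐ ξ : Fin 1 → mixedSpace K, p ξ) :
    ∀ᵐ ξ : mixedSpace K, p fun _ => ξ := by
  have h1 := (volume_preserving_funUnique (Fin 1) (mixedSpace K)).symm
  exact h1.quasiMeasurePreserving.ae h

open scoped Classical in
theorem cover (hlow : S_LOW) (hq : 2 ≤ q) {T : Set (HeightOneSpectrum (𝓞 K))} (hT : T.Finite)
    {α : Fin q → K × K} (hα : Pts α) {s : K} (hs : s ≠ 0) {b : Fin q → Fin (1 + 1) → 𝓞 K}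
    (hb : ∀ i, cz (b i) = s • frm (α i)) {P : Fin q → HeightOneSpectrum (𝓞 K)}
    (hP : Function.Injective P) {δ : Fin q → ℝ} (hδ : Dist q δ) {ε : ℝ} (hε : 0 < ε) :
    ∀ᵐ ξ : mixedSpace K, ∃ m, ξ ∈ Fset T α b P δ ε m := by
  have hb0 : ∀ i, cz (b i) ≠ 0 := fun i => by
    rw [hb i]; exact smul_ne_zero hs (frm_ne (hα.1 i))
  have hbd : ∀ i l, i ≠ l → ∀ c : K, cz (b i) ≠ c • cz (b l) := by
    intro i l hil c h
    rw [hb i, hb l, smul_comm] at h
    exact hα.2 i l hil (frm_smul (smul_right_injective _ hs h))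
  have hκ2 : kap q ≤ 2 := by
    unfold kap
    split_ifs <;> norm_num
  have h1 := ae_transfer (K := K) lawP
  have h2 := ae_transfer (K := K) gen_ae
  filter_upwards [h1, h2] with ξ hξ1 hξ2
  obtain ⟨C1, hC1⟩ := hξ1 q hq α hα T hT ε hε
  obtain ⟨C2, hC2, hL⟩ := hlow K (fun _ => ξ) hξ2 q b hb0 hbd P hP δ hδ.1 hδ.2.1
    (by linarith [hδ.2.2])
  obtain ⟨C3, hC3, hA⟩ := arch (n := 1) le_rfl (fun _ => ξ) (hξ2.ne le_rfl)
  obtain ⟨C4, hC4⟩ : ∃ C4 : ℝ, ∀ w : InfinitePlace K, normAtPlace w ξ ≤ C4 := by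
    obtain ⟨B, hB⟩ := (Set.finite_range (fun w : InfinitePlace K => normAtPlace w ξ)).bddAbove
    exact ⟨B, fun w => hB ⟨w, rfl⟩⟩
  obtain ⟨m, hm⟩ := exists_nat_ge (max (max C1 C2) (max C3 C4))
  have hm1 : C1 ≤ m := ((le_max_left _ _).trans (le_max_left _ _)).trans hm
  have hm2 : C2 ≤ m := ((le_max_right _ _).trans (le_max_left _ _)).trans hm
  have hm3 : C3 ≤ m := ((le_max_left _ _).trans (le_max_right _ _)).trans hm
  have hm4 : C4 ≤ m := ((le_max_right _ _).trans (le_max_right _ _)).trans hm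
  refine ⟨m, fun x hx hle => ?_, hL.mono hm2, fun x hx X Y hY hYX h5 h6 => ?_, fun w =>
    (hC4 w).trans hm4⟩
  · have := hC1 x hx hle
    linarith
  · obtain ⟨h7, h8⟩ := hA x hx X Y hY hYX h5 h6
    exact ⟨by linarith, by linarith⟩

/-- points at every scale with the prescribed losses and the proximity `τ` -/
def Spread (ξ : mixedSpace K) (T : Set (HeightOneSpectrum (𝓞 K))) (α : Fin q → K × K)
    (δ : Fin q → ℝ) (ε : ℝ) : Prop :=
  ∀ τ : ℝ, 0 ≤ τ → τ < 2 - ∑ i, δ i - ε → ∃ c t1 : ℝ, ∀ t : ℝ, t1 ≤ t →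
    ∃ y : K, (∀ l, y * (α l).2 - 1 * (α l).1 ≠ 0) ∧
      |hh y - (Module.finrank ℚ K : ℝ) * t| ≤ ε * ((Module.finrank ℚ K : ℝ) * t) ∧
      (∀ i, |sI T (α i) y - δ i * ((Module.finrank ℚ K : ℝ) * t)| ≤
        ε * ((Module.finrank ℚ K : ℝ) * t)) ∧
      |prox (n := 1) (fun _ => ξ) (fun _ => y) - τ * ((Module.finrank ℚ K : ℝ) * t)| ≤ c

lemma prox_one (ξ : mixedSpace K) (y : K) : prox (n := 1) (fun _ => ξ) (fun _ => y) =
    ∑ w : InfinitePlace K, (w.mult : ℝ) *
      Real.log (max 1 (normAtPlace w (ξ - mixedEmbedding K y))⁻¹) := by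
  unfold prox
  refine Finset.sum_congr rfl fun w _ => ?_
  rw [ciSup_unique]

theorem shell {ξ : mixedSpace K} {T : Set (HeightOneSpectrum (𝓞 K))} {α : Fin q → K × K}
    {b : Fin q → Fin (1 + 1) → 𝓞 K} {P : Fin q → HeightOneSpectrum (𝓞 K)} {δ : Fin q → ℝ}
    {ε ε1 : ℝ} {m : ℕ}
    (hcore : ∃ t1 : ℝ, ∀ t : ℝ, t1 ≤ t → ∀ ξ ∈ Fset T α b P δ ε1 m,
      ∃ y : K, (∀ l, y * (α l).2 - 1 * (α l).1 ≠ 0) ∧
        |hh y - (Module.finrank ℚ K : ℝ) * t| ≤ ε * ((Module.finrank ℚ K : ℝ) * t) ∧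
        (∀ i, |sI T (α i) y - δ i * ((Module.finrank ℚ K : ℝ) * t)| ≤
          ε * ((Module.finrank ℚ K : ℝ) * t)) ∧
        ∀ w : InfinitePlace K, normAtPlace w (ξ - mixedEmbedding K y) ≤
          Real.exp (-((2 - ∑ i, δ i - ε) * t)))
    {r0 : ℝ} (hr0 : 0 < r0) (hr : ∀ r : ℝ, 0 < r → r ≤ r0 →
      ∃ ξ' ∈ Fset T α b P δ ε1 m, ∀ w : InfinitePlace K,
        r / 2 ≤ normAtPlace w (ξ' - ξ) ∧ normAtPlace w (ξ' - ξ) ≤ r) :
    Spread ξ T α δ ε := by
  obtain ⟨t0, ht0⟩ := hcore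
  intro τ hτ hτ2
  set β : ℝ := 2 - ∑ i, δ i - ε with hβ
  set r1 : ℝ := min r0 1 with hr1
  have hr10 : 0 < r1 := lt_min hr0 one_pos
  have hr11 : r1 ≤ 1 := min_le_right _ _
  have hlr : Real.log r1 ≤ 0 := Real.log_nonpos hr10.le hr11
  have hl4 : 0 < Real.log 4 := Real.log_pos (by norm_num)
  have hβτ : 0 < β - τ := by linarith
  have hd0 := finrank_posR K
  refine ⟨(Module.finrank ℚ K : ℝ) * (Real.log 4 - Real.log r1),
    max (max t0 0) ((Real.log 4 - Real.log r1) / (β - τ)), fun t ht => ?_⟩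
  have ht1 : t0 ≤ t := ((le_max_left _ _).trans (le_max_left _ _)).trans ht
  have ht2 : 0 ≤ t := ((le_max_right _ _).trans (le_max_left _ _)).trans ht
  have ht3 : Real.log 4 - Real.log r1 ≤ (β - τ) * t := by
    have h1 : (Real.log 4 - Real.log r1) / (β - τ) ≤ t := (le_max_right _ _).trans ht
    rw [div_le_iff₀ hβτ] at h1
    linarith
  set r : ℝ := r1 * Real.exp (-(τ * t)) with hrd
  have hrpos : 0 < r := mul_pos hr10 (Real.exp_pos _)
  have hτt : 0 ≤ τ * t := mul_nonneg hτ ht2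
  have hexp1 : Real.exp (-(τ * t)) ≤ 1 := by
    rw [Real.exp_le_one_iff]
    linarith
  have hrr1 : r ≤ r1 := by
    rw [hrd]
    nlinarith
  have hlogr : Real.log r = Real.log r1 - τ * t := by
    rw [hrd, Real.log_mul hr10.ne' (Real.exp_ne_zero _), Real.log_exp]
    ring
  obtain ⟨ξ', hξ', hsh⟩ := hr r hrpos (hrr1.trans (min_le_left _ _))
  obtain ⟨y, hy1, hy2, hy3, hy4⟩ := ht0 t ht1 ξ' hξ'
  refine ⟨y, hy1, hy2, hy3, ?_⟩
  have hsmall : Real.exp (-(β * t)) ≤ r / 4 := by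
    rw [← Real.log_le_log_iff (Real.exp_pos _) (by positivity), Real.log_exp,
      Real.log_div hrpos.ne' (by norm_num), hlogr]
    nlinarith
  have hw : ∀ w : InfinitePlace K, r / 4 ≤ normAtPlace w (ξ - mixedEmbedding K y) ∧
      normAtPlace w (ξ - mixedEmbedding K y) ≤ 2 * r := by
    intro w
    obtain ⟨h1, h2⟩ := hsh w
    have h3 := (hy4 w).trans hsmall
    have e1 : ξ - mixedEmbedding K y = -(ξ' - ξ) + (ξ' - mixedEmbedding K y) := by ring
    have e2 : ξ' - ξ = -(ξ - mixedEmbedding K y) + (ξ' - mixedEmbedding K y) := by ring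
    constructor
    · have h4 := normAtPlace_add_le w (-(ξ - mixedEmbedding K y)) (ξ' - mixedEmbedding K y)
      rw [← e2, normAtPlace_neg] at h4
      linarith
    · have h4 := normAtPlace_add_le w (-(ξ' - ξ)) (ξ' - mixedEmbedding K y)
      rw [← e1, normAtPlace_neg] at h4
      linarith
  have hlog : ∀ w : InfinitePlace K,
      |Real.log (max 1 (normAtPlace w (ξ - mixedEmbedding K y))⁻¹) - τ * t| ≤
        Real.log 4 - Real.log r1 := by
    intro w
    obtain ⟨h1, h2⟩ := hw w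
    set z : ℝ := normAtPlace w (ξ - mixedEmbedding K y) with hz
    have hz0 : 0 < z := by linarith
    rw [abs_le]
    constructor
    · have h3 : Real.log z⁻¹ ≤ Real.log (max 1 z⁻¹) :=
        Real.log_le_log (by positivity) (le_max_right _ _)
      rw [Real.log_inv] at h3
      have h4 : Real.log z ≤ Real.log (2 * r) := Real.log_le_log hz0 h2
      rw [Real.log_mul two_ne_zero hrpos.ne', hlogr] at h4
      have h5 : Real.log 2 ≤ Real.log 4 := Real.log_le_log two_pos (by norm_num)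
      linarith
    · have h3 : max 1 z⁻¹ ≤ (r / 4)⁻¹ := by
        refine max_le ?_ ?_
        · rw [one_le_inv₀ (by positivity)]
          linarith
        · exact inv_anti₀ (by positivity) h1
      have h4 := Real.log_le_log (lt_of_lt_of_le one_pos (le_max_left _ _)) h3
      rw [Real.log_inv, Real.log_div hrpos.ne' (by norm_num), hlogr] at h4
      linarith
  rw [prox_one]
  have e1 : ∑ w : InfinitePlace K, (w.mult : ℝ) *
      Real.log (max 1 (normAtPlace w (ξ - mixedEmbedding K y))⁻¹) -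
      τ * ((Module.finrank ℚ K : ℝ) * t) = ∑ w : InfinitePlace K, (w.mult : ℝ) *
      (Real.log (max 1 (normAtPlace w (ξ - mixedEmbedding K y))⁻¹) - τ * t) := by
    have e2 : τ * ((Module.finrank ℚ K : ℝ) * t) =
        ∑ w : InfinitePlace K, (w.mult : ℝ) * (τ * t) := by
      rw [← sum_mult_real, ← Finset.sum_mul]
      ring
    rw [e2, ← Finset.sum_sub_distrib]
    exact Finset.sum_congr rfl fun w _ => by ring
  rw [e1]
  refine (Finset.abs_sum_le_sum_abs _ _).trans ?_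
  rw [← sum_mult_real, Finset.sum_mul]
  refine Finset.sum_le_sum fun w _ => ?_
  rw [abs_mul, abs_of_nonneg (Nat.cast_nonneg (α := ℝ) w.mult)]
  exact mul_le_mul_of_nonneg_left (hlog w) (Nat.cast_nonneg _)

end Q273.MV
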