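import Pool.Agent.Q273.MV.P6

/-!
# The projective line: the set of the limit points
-/

set_option autoImplicit false
set_option linter.unusedSectionVars false

namespace Q273.MV

open MeasureTheory NumberField NumberField.mixedEmbedding NumberField.InfinitePlace
open IsDedekindDomain Finset Pool.Agent.W232.VA Pool.Agent.H691R3 Height
open Pool.Agent.Results.MP_4d5ce1_nt.ExceptionalSetExponents (height counting)

variable {K : Type} [Field K] [NumberField K] {q : ℕ}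

/-- limit points of `(m(ξ, x) / h(x), (1 - N(α_l, x) / h(x))_l)` as `h(x)` grows -/
def Lim (ξ : mixedSpace K) (T : Set (HeightOneSpectrum (𝓞 K))) (α : Fin q → K × K)
    (τ : ℝ) (δ : Fin q → ℝ) : Prop :=
  ∀ ε : ℝ, 0 < ε → ∀ B : ℝ, ∃ x : K, (∀ l, x * (α l).2 - 1 * (α l).1 ≠ 0) ∧ B ≤ hh x ∧
    |prox (n := 1) (fun _ => ξ) (fun _ => x) - τ * hh x| ≤ ε * hh x ∧
    ∀ i, |sI T (α i) x - δ i * hh x| ≤ ε * hh x

lemma Lim.closed {ξ : mixedSpace K} {T : Set (HeightOneSpectrum (𝓞 K))} {α : Fin q → K × K}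
    {τ : ℝ} {δ : Fin q → ℝ} (h : ∀ η : ℝ, 0 < η → ∃ (τ' : ℝ) (δ' : Fin q → ℝ),
      |τ' - τ| ≤ η ∧ (∀ i, |δ' i - δ i| ≤ η) ∧ Lim ξ T α τ' δ') : Lim ξ T α τ δ := by
  intro ε hε B
  obtain ⟨τ', δ', h1, h2, h3⟩ := h (ε / 2) (by positivity)
  obtain ⟨x, hx1, hx2, hx3, hx4⟩ := h3 (ε / 2) (by positivity) B
  have hh0 := hh_nonneg x
  refine ⟨x, hx1, hx2, ?_, fun i => ?_⟩
  · have e : prox (n := 1) (fun _ => ξ) (fun _ => x) - τ * hh x =
        (prox (n := 1) (fun _ => ξ) (fun _ => x) - τ' * hh x) + (τ' - τ) * hh x := by ring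
    rw [e]
    refine (abs_add_le _ _).trans ?_
    rw [abs_mul, abs_of_nonneg hh0]
    have := mul_le_mul_of_nonneg_right h1 hh0
    linarith
  · have e : sI T (α i) x - δ i * hh x =
        (sI T (α i) x - δ' i * hh x) + (δ' i - δ i) * hh x := by ring
    rw [e]
    refine (abs_add_le _ _).trans ?_
    rw [abs_mul, abs_of_nonneg hh0]
    have := mul_le_mul_of_nonneg_right (h2 i) hh0
    have := hx4 i
    linarith

lemma Spread.lim {ξ : mixedSpace K} {T : Set (HeightOneSpectrum (𝓞 K))} {α : Fin q → K × K}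
    {δ : Fin q → ℝ} (hδ : Dist q δ) (h : ∀ ε : ℚ, 0 < ε → Spread ξ T α δ ε) {τ : ℝ}
    (hτ : 0 ≤ τ) (hτ2 : τ < 2 - ∑ i, δ i) : Lim ξ T α τ δ := by
  intro ε hε B
  have hδs : 0 ≤ ∑ i, δ i := Finset.sum_nonneg fun i _ => hδ.1 i
  obtain ⟨ε2, hε2, hε2'⟩ := exists_rat_btwn (show (0 : ℝ) <
    min (min (ε / 8) (1 / 2)) (2 - ∑ i, δ i - τ) from
    lt_min (lt_min (by positivity) (by norm_num)) (by linarith))
  have hε2a : (ε2 : ℝ) ≤ ε / 8 := hε2'.le.trans ((min_le_left _ _).trans (min_le_left _ _))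
  have hε2b : (ε2 : ℝ) ≤ 1 / 2 := hε2'.le.trans ((min_le_left _ _).trans (min_le_right _ _))
  have hε2c : (ε2 : ℝ) < 2 - ∑ i, δ i - τ := lt_of_lt_of_le hε2' (min_le_right _ _)
  obtain ⟨c, t1, hc⟩ := h ε2 (by exact_mod_cast hε2) τ hτ (by linarith)
  have hd : (1 : ℝ) ≤ (Module.finrank ℚ K : ℝ) := by
    have : 0 < Module.finrank ℚ K := Module.finrank_pos
    exact_mod_cast this
  set t : ℝ := max (max t1 0) (max (2 * B) (4 * c / ε)) with ht
  have ht1 : t1 ≤ t := (le_max_left _ _).trans (le_max_left _ _)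
  have ht0 : 0 ≤ t := (le_max_right _ _).trans (le_max_left _ _)
  have htB : 2 * B ≤ t := (le_max_left _ _).trans (le_max_right _ _)
  have htc : 4 * c ≤ ε * t := by
    have h1 : 4 * c / ε ≤ t := (le_max_right _ _).trans (le_max_right _ _)
    rw [div_le_iff₀ hε] at h1
    linarith
  obtain ⟨x, hx1, hx2, hx3, hx4⟩ := hc t ht1
  set D : ℝ := (Module.finrank ℚ K : ℝ) * t with hD
  have htD : t ≤ D := by rw [hD]; nlinarith
  have hD0 : 0 ≤ D := ht0.trans htD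
  have hh0 := hh_nonneg x
  rw [abs_le] at hx2
  have h2D : ε2 * D ≤ 1 / 2 * D := mul_le_mul_of_nonneg_right hε2b hD0
  have hDh : D ≤ 2 * hh x := by linarith
  have hεD : ε2 * D ≤ ε / 8 * D := mul_le_mul_of_nonneg_right hε2a hD0
  have hεh : ε / 8 * D ≤ ε / 8 * (2 * hh x) := mul_le_mul_of_nonneg_left hDh (by positivity)
  have hDh' : |D - hh x| ≤ ε2 * D := abs_le.2 ⟨by linarith, by linarith⟩
  refine ⟨x, hx1, by linarith, ?_, fun i => ?_⟩
  · have e : prox (n := 1) (fun _ => ξ) (fun _ => x) - τ * hh x =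
        (prox (n := 1) (fun _ => ξ) (fun _ => x) - τ * D) + τ * (D - hh x) := by ring
    rw [e]
    refine (abs_add_le _ _).trans ?_
    rw [abs_mul, abs_of_nonneg hτ]
    have h1 : τ * |D - hh x| ≤ 2 * (ε2 * D) :=
      mul_le_mul (by linarith) hDh' (abs_nonneg _) (by norm_num)
    have h2 : ε * t ≤ ε * D := mul_le_mul_of_nonneg_left htD hε.le
    have h3 : ε * D ≤ ε * (2 * hh x) := mul_le_mul_of_nonneg_left hDh hε.le
    linarith
  · have hδi : δ i ≤ 1 := (hδ.2.1 i).le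
    have e : sI T (α i) x - δ i * hh x =
        (sI T (α i) x - δ i * D) + δ i * (D - hh x) := by ring
    rw [e]
    refine (abs_add_le _ _).trans ?_
    rw [abs_mul, abs_of_nonneg (hδ.1 i)]
    have h1 : δ i * |D - hh x| ≤ 1 * (ε2 * D) :=
      mul_le_mul hδi hDh' (abs_nonneg _) (by norm_num)
    have h2 := hx3 i
    have h3 : 0 ≤ ε * hh x := mul_nonneg hε.le hh0
    linarith

lemma approx_dist {δ : Fin q → ℝ} (h0 : ∀ i, 0 ≤ δ i) (h1 : ∀ i, δ i ≤ 1)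
    (hκ : ∑ i, δ i ≤ kap q) {η : ℝ} (hη : 0 < η) :
    ∃ δ' : Fin q → ℚ, (∀ i, ((δ' i : ℚ) : ℝ) ≤ δ i) ∧ (∀ i, |((δ' i : ℚ) : ℝ) - δ i| ≤ η) ∧
      Dist q fun i => ((δ' i : ℚ) : ℝ) := by
  have key : ∀ i, ∃ r : ℚ, 0 ≤ (r : ℝ) ∧ (r : ℝ) ≤ δ i ∧ |(r : ℝ) - δ i| ≤ η ∧
      (0 < δ i → (r : ℝ) < δ i) := by
    intro i
    rcases (h0 i).lt_or_eq with h | h
    · obtain ⟨r, hr1, hr2⟩ := exists_rat_btwn (show max 0 (δ i - η) < δ i from
        max_lt h (by linarith))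
      have h2 : (0 : ℝ) ≤ r := (le_max_left _ _).trans hr1.le
      have h3 : δ i - η ≤ r := (le_max_right _ _).trans hr1.le
      exact ⟨r, h2, hr2.le, abs_le.2 ⟨by linarith, by linarith⟩, fun _ => hr2⟩
    · refine ⟨0, by norm_num, by rw [← h]; norm_num, ?_, fun h' => absurd h' (by rw [← h]; exact lt_irrefl _)⟩
      rw [← h]
      simp [hη.le]
  choose r hr0 hr1 hr2 hr3 using key
  refine ⟨r, hr1, hr2, hr0, fun i => ?_, ?_⟩
  · rcases (h0 i).lt_or_eq with h | h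
    · exact (hr3 i h).trans_le (h1 i)
    · have := hr1 i
      rw [← h] at this
      linarith
  · by_cases hall : ∀ i, δ i = 0
    · have e : ∑ i, ((r i : ℚ) : ℝ) ≤ 0 := by
        refine Finset.sum_nonpos fun i _ => ?_
        have := hr1 i
        rwa [hall i] at this
      exact e.trans_lt (kap_pos q)
    · push Not at hall
      obtain ⟨i, hi⟩ := hall
      have hpos : 0 < δ i := lt_of_le_of_ne (h0 i) (Ne.symm hi)
      exact (Finset.sum_lt_sum (fun j _ => hr1 j) ⟨i, Finset.mem_univ i, hr3 i hpos⟩).trans_le hκ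

open scoped Classical in
/-- all limit points -/
theorem limits (hlow : S_LOW) (hdens : S_DENS) : ∀ᵐ ξ : mixedSpace K, ∀ (q : ℕ), 2 ≤ q →
    ∀ α : Fin q → K × K, Pts α → ∀ T : Set (HeightOneSpectrum (𝓞 K)), T.Finite →
    ∀ (τ : ℝ) (δ : Fin q → ℝ), 0 ≤ τ → (∀ i, 0 ≤ δ i) → (∀ i, δ i ≤ 1) →
      ∑ i, δ i ≤ kap q → τ + ∑ i, δ i ≤ 2 → Lim ξ T α τ δ := by
  have : Countable K := Q273.Apx.countable_numberField K
  have : Countable {T : Set (HeightOneSpectrum (𝓞 K)) // T.Finite} :=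
    Q273.Apx.countable_finite_sets K
  let ι : Type := Σ q : ℕ, {α : Fin q → K × K // 2 ≤ q ∧ Pts α} ×
    {δ : Fin q → ℚ // Dist q fun i => ((δ i : ℚ) : ℝ)} ×
    {T : Set (HeightOneSpectrum (𝓞 K)) // T.Finite} × {ε : ℚ // 0 < ε}
  have key : ∀ i : ι, ∀ᵐ ξ : mixedSpace K,
      Spread ξ i.2.2.2.1.1 i.2.1.1 (fun j => ((i.2.2.1.1 j : ℚ) : ℝ)) i.2.2.2.2.1 := by
    rintro ⟨q, ⟨α, hq, hα⟩, ⟨δ, hδ⟩, ⟨T, hT⟩, ⟨ε, hε⟩⟩
    have hε' : (0 : ℝ) < (ε : ℝ) := by exact_mod_cast hε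
    obtain ⟨s, hs, b, hb⟩ := exists_scale fun i => frm (α i)
    obtain ⟨P, hP⟩ : ∃ P : Fin q → HeightOneSpectrum (𝓞 K), Function.Injective P := by
      have := infinite_primes K
      exact ⟨fun i => Infinite.natEmbedding _ i.1, fun i j h =>
        Fin.ext ((Infinite.natEmbedding _).injective h)⟩
    obtain ⟨ε1, hε1, hcore⟩ := core hq hT hα hs hb hP hδ hε'
    have hcov := cover hlow hq hT hα hs hb hP hδ hε1
    filter_upwards [hdens K _ hcov] with ξ hξ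
    obtain ⟨m, _, r0, hr0, hr⟩ := hξ
    exact shell (hcore m) hr0 hr
  filter_upwards [ae_all_iff.2 key] with ξ hξ
  intro q hq α hα T hT τ δ hτ h0 h1 hκ hsum
  have hκ2 : kap q ≤ 2 := by
    unfold kap
    split_ifs <;> norm_num
  refine Lim.closed fun η hη => ?_
  obtain ⟨δ', hδ1, hδ2, hδ3⟩ := approx_dist h0 h1 hκ hη
  have hs : ∑ i, ((δ' i : ℚ) : ℝ) ≤ ∑ i, δ i := Finset.sum_le_sum fun i _ => hδ1 i
  refine ⟨max 0 (τ - η), fun i => ((δ' i : ℚ) : ℝ), ?_, hδ2, ?_⟩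
  · rcases le_total 0 (τ - η) with h | h
    · rw [max_eq_right h]
      rw [abs_le]
      constructor <;> linarith
    · rw [max_eq_left h, abs_le]
      constructor <;> linarith
  · refine Spread.lim hδ3 (fun ε hε => ?_) (le_max_left _ _) ?_
    · exact hξ ⟨q, ⟨α, hq, hα⟩, ⟨δ', hδ3⟩, ⟨T, hT⟩, ⟨ε, hε⟩⟩
    · refine max_lt ?_ ?_
      · have := hδ3.2.2
        linarith
      · linarith

end Q273.MV
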