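import Pool.Agent.Q273.MV.P7

/-!
# The projective line: nothing else is a limit point
-/

set_option autoImplicit false
set_option linter.unusedSectionVars false

namespace Q273.MV

open MeasureTheory NumberField NumberField.mixedEmbedding NumberField.InfinitePlace
open IsDedekindDomain Finset Pool.Agent.W232.VA Pool.Agent.H691R3 Height
open Pool.Agent.Results.MP_4d5ce1_nt.ExceptionalSetExponents (height counting)

variable {K : Type} [Field K] [NumberField K] {q : ℕ}

lemma prox_nonneg {n : ℕ} (ξ : Fin n → mixedSpace K) (y : Fin n → K) : 0 ≤ prox ξ y := by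
  unfold prox
  exact Finset.sum_nonneg fun w _ => mul_nonneg (Nat.cast_nonneg _)
    (Real.log_nonneg (le_max_left _ _))

lemma Lim.basic {ξ : mixedSpace K} {T : Set (HeightOneSpectrum (𝓞 K))} (hT : T.Finite)
    {α : Fin q → K × K} (hα : Pts α) {τ : ℝ} {δ : Fin q → ℝ} (h : Lim ξ T α τ δ) :
    0 ≤ τ ∧ ∀ i, 0 ≤ δ i ∧ δ i ≤ 1 := by
  refine ⟨?_, fun i => ⟨?_, ?_⟩⟩
  · refine le_of_forall_pos_le_add fun ε hε => ?_
    obtain ⟨x, _, hB, h2, _⟩ := h ε hε 1
    have h3 := prox_nonneg (n := 1) (fun _ => ξ) (fun _ => x)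
    rw [abs_le] at h2
    by_contra hcon
    push Not at hcon
    nlinarith [h2.1, h2.2]
  · obtain ⟨c, hc0, hc⟩ := sI_ge hT (hα.1 i)
    refine le_of_forall_pos_le_add fun ε hε => ?_
    obtain ⟨x, hx, hB, _, h2⟩ := h (ε / 2) (by positivity) (2 * c / ε + 1)
    have h3 := hc x (hx i)
    have h4 := h2 i
    rw [abs_le] at h4
    have h5 : 0 ≤ 2 * c / ε := by positivity
    have h6 : 2 * c / ε * ε = 2 * c := div_mul_cancel₀ _ hε.ne'
    have h7 : 0 < hh x := by linarith
    have h8 : c ≤ ε / 2 * hh x := by nlinarith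
    by_contra hcon
    push Not at hcon
    nlinarith [h4.1, h4.2]
  · refine le_of_forall_pos_le_add fun ε hε => ?_
    obtain ⟨x, hx, hB, _, h2⟩ := h ε hε 1
    have h3 := sI_le hT (hα.1 i) (hx i)
    have h4 := h2 i
    rw [abs_le] at h4
    by_contra hcon
    push Not at hcon
    nlinarith [h4.1, h4.2]

theorem Lim.sum_le {ξ : mixedSpace K} {T : Set (HeightOneSpectrum (𝓞 K))}
    {α : Fin q → K × K} (hlaw : LawP (fun _ => ξ) T α (kap q)) {τ : ℝ}
    {δ : Fin q → ℝ} (h : Lim ξ T α τ δ) (hreg : ∑ i, δ i ≤ kap q ∨ 2 - kap q < τ) :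
    τ + ∑ i, δ i ≤ 2 := by
  by_contra hcon
  push Not at hcon
  set Δ : ℝ := ∑ i, δ i with hΔ
  set g : ℝ := τ + Δ - 2 with hg
  have hg0 : 0 < g := by linarith
  have hq0 : (0 : ℝ) ≤ q := Nat.cast_nonneg q
  -- an amount for which the law applies
  have halt : ∃ e0 : ℝ, 0 < e0 ∧ (Δ + q * e0 ≤ kap q ∨ 2 - kap q + e0 ≤ τ - e0) := by
    have hB : 2 - kap q < τ → ∃ e0 : ℝ, 0 < e0 ∧ (Δ + q * e0 ≤ kap q ∨
        2 - kap q + e0 ≤ τ - e0) := fun h1 =>
      ⟨(τ - (2 - kap q)) / 2, by linarith, Or.inr (by linarith)⟩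
    rcases hreg with h1 | h1
    · rcases h1.lt_or_eq with h2 | h2
      · refine ⟨(kap q - Δ) / (q + 1), div_pos (by linarith) (by linarith), Or.inl ?_⟩
        have h3 : (q : ℝ) * ((kap q - Δ) / (q + 1)) ≤ kap q - Δ := by
          rw [mul_div_assoc', div_le_iff₀ (by linarith)]
          nlinarith
        linarith
      · exact hB (by linarith)
    · exact hB h1
  obtain ⟨e0, he0, hor⟩ := halt
  set e : ℝ := min (g / (2 * (q + 2))) e0 with he
  have hepos : 0 < e := lt_min (by positivity) he0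
  have he1 : e * (q + 2) ≤ g / 2 := by
    have h1 : e ≤ g / (2 * (q + 2)) := min_le_left _ _
    rw [le_div_iff₀ (by positivity)] at h1
    linarith
  have he2 : e ≤ e0 := min_le_right _ _
  obtain ⟨C, hC⟩ := hlaw e hepos
  obtain ⟨x, hx, hB, h1, h2⟩ := h e hepos (2 * |C| / g + 1)
  have hC0 := abs_nonneg C
  have hC1 := le_abs_self C
  have h3 : 0 ≤ 2 * |C| / g := by positivity
  have h4 : 2 * |C| / g * g = 2 * |C| := div_mul_cancel₀ _ hg0.ne'
  have hpos : 0 < hh x := by linarith
  rw [abs_le] at h1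
  have hup : ∑ i, sI T (α i) x ≤ (Δ + q * e) * hh x := by
    have h5 : ∑ i, sI T (α i) x ≤ ∑ i, (δ i * hh x + e * hh x) := by
      refine Finset.sum_le_sum fun i _ => ?_
      have := h2 i
      rw [abs_le] at this
      linarith [this.2]
    rw [Finset.sum_add_distrib, ← Finset.sum_mul, Finset.sum_const, Finset.card_univ,
      Fintype.card_fin, nsmul_eq_mul] at h5
    linarith
  have hdown : (Δ - q * e) * hh x ≤ ∑ i, sI T (α i) x := by
    have h5 : ∑ i, (δ i * hh x - e * hh x) ≤ ∑ i, sI T (α i) x := by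
      refine Finset.sum_le_sum fun i _ => ?_
      have := h2 i
      rw [abs_le] at this
      linarith [this.1]
    rw [Finset.sum_sub_distrib, ← Finset.sum_mul, Finset.sum_const, Finset.card_univ,
      Fintype.card_fin, nsmul_eq_mul] at h5
    linarith
  have h6 := hC x hx (by
    rcases hor with h7 | h7
    · left
      refine hup.trans (mul_le_mul_of_nonneg_right ?_ hpos.le)
      have : (q : ℝ) * e ≤ q * e0 := mul_le_mul_of_nonneg_left he2 hq0
      linarith
    · right
      have h8 : (2 - kap q + e) * hh x ≤ (τ - e) * hh x :=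
        mul_le_mul_of_nonneg_right (by linarith) hpos.le
      linarith [h1.1])
  have h9 : (g - (q + 2) * e) * hh x ≤ C := by nlinarith [h1.1]
  have h10 : g / 2 * hh x ≤ (g - (q + 2) * e) * hh x :=
    mul_le_mul_of_nonneg_right (by linarith) hpos.le
  nlinarith

end Q273.MV
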