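import Pool.Agent.Q273.MV.Ae
import Pool.Agent.Q61.MV.Summ
import Pool.Agent.W232.VA.LB
import Pool.Agent.Q273.Apx
import Pool.Agent.Q273.ApxF

/-!
# The upper law: thin sets of points have small proximity to almost every point
-/

set_option autoImplicit false

namespace Q273.MV

open MeasureTheory NumberField NumberField.mixedEmbedding NumberField.InfinitePlace

variable {K : Type} [Field K] [NumberField K] {n : ℕ}

open scoped Classical in
/-- a thin set of elements of an index type with a height -/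
theorem up1 (hn : 1 ≤ n) {T : Type} [Countable T] (y : T → Fin n → K) (H : T → ℝ) (S : Set T)
    (hH : ∀ x ∈ S, 1 ≤ H x) {s : ℝ} (hs : 0 ≤ s)
    (hS : ∀ δ : ℝ, 0 < δ → ∃ C : ℝ, ∀ X : ℝ, 1 ≤ X → {x | x ∈ S ∧ H x ≤ X}.Finite ∧
      ({x | x ∈ S ∧ H x ≤ X}.ncard : ℝ) ≤ C * X ^ (s + δ)) :
    ∀ᵐ ξ : Fin n → mixedSpace K, ∀ ε : ℝ, 0 < ε → ∃ C : ℝ, ∀ x ∈ S,
      (n : ℝ) * prox ξ (y x) ≤ (s + ε) * Real.log (H x) + C := by
  have hn0 : (0 : ℝ) < n := by exact_mod_cast hn
  have key : ∀ k : ℕ, ∀ᵐ ξ : Fin n → mixedSpace K, ∃ C : ℝ, ∀ x ∈ S,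
      (n : ℝ) * prox ξ (y x) ≤ (s + 1 / ((k : ℝ) + 1)) * Real.log (H x) + C := by
    intro k
    set ε : ℝ := 1 / ((k : ℝ) + 1) with hε
    have hε0 : 0 < ε := by positivity
    obtain ⟨C, hC⟩ := hS (ε / 4) (by positivity)
    have hsum := Pool.Agent.Q61.MV.summ T S H (s + ε / 4) (s + ε / 2) C (by linarith)
      (by positivity) hH hC
    set η : ℝ := ε / 2 / (s + ε) with hη
    have hη0 : 0 < η := by positivity
    have hη1 : η < 1 := by
      rw [hη, div_lt_one (by positivity)]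
      linarith
    have h1η : 1 - η = (s + ε / 2) / (s + ε) := by
      rw [hη]
      field_simp
      ring
    have h := ae K n hn η hη0 hη1 S (fun x => y x) (fun x => (H x) ^ (-(s + ε / 2)))
      (fun x => Real.rpow_nonneg (zero_le_one.trans (hH x x.2)) _) hsum
    filter_upwards [h] with ξ hξ
    obtain ⟨C', hC'⟩ := hξ
    refine ⟨Real.log (max C' 1) / (1 - η), fun x hx => ?_⟩
    have h1 := hC' ⟨x, hx⟩
    have hHx : 1 ≤ H x := hH x hx
    have hHx0 : 0 < H x := by linarith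
    have h2 : (H x) ^ (-(s + ε / 2)) * Real.exp ((n : ℝ) * (1 - η) * prox ξ (y x)) ≤ max C' 1 :=
      h1.trans (le_max_left _ _)
    have h3 := Real.log_le_log (by positivity) h2
    rw [Real.log_mul (Real.rpow_pos_of_pos hHx0 _).ne' (Real.exp_ne_zero _), Real.log_exp,
      Real.log_rpow hHx0] at h3
    have h1η0 : 0 < 1 - η := by linarith
    have h4 : (n : ℝ) * prox ξ (y x) * (1 - η) ≤
        (s + ε / 2) * Real.log (H x) + Real.log (max C' 1) := by linarith
    have h5 : (n : ℝ) * prox ξ (y x) ≤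
        ((s + ε / 2) * Real.log (H x) + Real.log (max C' 1)) / (1 - η) := by
      rwa [le_div_iff₀ h1η0]
    refine h5.trans (le_of_eq ?_)
    rw [add_div]
    congr 1
    rw [h1η]
    field_simp
  filter_upwards [ae_all_iff.2 key] with ξ hξ
  intro ε hε
  obtain ⟨k, hk⟩ := exists_nat_one_div_lt hε
  obtain ⟨C, hC⟩ := hξ k
  refine ⟨C, fun x hx => (hC x hx).trans ?_⟩
  have h1 : 0 ≤ Real.log (H x) := Real.log_nonneg (hH x hx)
  have h2 : (s + 1 / ((k : ℝ) + 1)) * Real.log (H x) ≤ (s + ε) * Real.log (H x) :=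
    mul_le_mul_of_nonneg_right (by linarith) h1
  linarith

end Q273.MV
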